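import Pool.Agent.Run7.h130.Basics

/-!
# Basic facts on `Good`
-/

set_option autoImplicit false

namespace Run7.h130

open Module

section

variable {F : Type} [Field F]

theorem rk_add_ker {E W : Type} [AddCommGroup E] [Module F E] [FiniteDimensional F E]
    [AddCommGroup W] [Module F W] (L : E →ₗ[F] W) :
    rk L + finrank F (LinearMap.ker L) = finrank F E := LinearMap.finrank_range_add_finrank_ker L

theorem rk_equiv {E W E' W' : Type} [AddCommGroup E] [Module F E]
    [AddCommGroup W] [Module F W] [AddCommGroup E'] [Module F E']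
    [AddCommGroup W'] [Module F W'] (σ : E ≃ₗ[F] E') (τ : W ≃ₗ[F] W') (L : E →ₗ[F] W)
    (L' : E' →ₗ[F] W') (h : ∀ x, L' (σ x) = τ (L x)) : rk L' = rk L := by
  unfold rk
  have : LinearMap.range L' = (LinearMap.range L).map (τ : W →ₗ[F] W') := by
    ext w
    simp only [LinearMap.mem_range, Submodule.mem_map]
    constructor
    · rintro ⟨y, rfl⟩
      refine ⟨L (σ.symm y), ⟨_, rfl⟩, ?_⟩
      have := h (σ.symm y)
      simp at this
      simp [this]
    · rintro ⟨_, ⟨x, rfl⟩, rfl⟩
      exact ⟨σ x, h x⟩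
  rw [this]
  exact LinearEquiv.finrank_map_eq τ _

theorem rk_smul {E W : Type} [AddCommGroup E] [Module F E]
    [AddCommGroup W] [Module F W] (c : F) (hc : c ≠ 0) (L : E →ₗ[F] W) :
    rk (c • L) = rk L := by
  unfold rk
  rw [LinearMap.range_smul _ _ hc]

theorem Good_mono {θ θ' : ℕ} (hθ : θ ≤ θ') : ∀ (n : ℕ) (E W : Type) [AddCommGroup E] [Module F E]
    [AddCommGroup W] [Module F W] (G : ML F n E W) (p : Fin n → E) (k k' : Fin n → ℕ)
    (_ : ∀ i, k i ≤ k' i), Good θ n E W G p k → Good θ' n E W G p k'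
  | 0, _, _, _, _, _, _, _, _, _, _, _, _ => trivial
  | n + 1, E, W, _, _, _, _, G, p, k, k', hk, h => by
      obtain ⟨h1, Ξ, h2, h3, h4⟩ := h
      refine ⟨h1.trans (by have := hk 0; omega), Ξ, h2, by omega, fun ξ hξ => ?_⟩
      exact Good_mono hθ n _ _ _ _ _ _ (fun i => by have := hk i.succ; omega) (h4 ξ hξ)

theorem Good_smul {θ : ℕ} (c : F) (hc : c ≠ 0) : ∀ (n : ℕ) (E W : Type) [AddCommGroup E] [Module F E]
    [AddCommGroup W] [Module F W] (G : ML F n E W) (p : Fin n → E) (k : Fin n → ℕ),
    Good θ n E W G p k → Good θ n E W (c • G) p k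
  | 0, _, _, _, _, _, _, _, _, _, _ => trivial
  | n + 1, E, W, _, _, _, _, G, p, k, h => by
      obtain ⟨h1, Ξ, h2, h3, h4⟩ := h
      have hker : LinearMap.ker (Lm (c • G) p 0) = LinearMap.ker (Lm G p 0) := by
        rw [Lm_smul, LinearMap.ker_smul _ _ hc]
      refine ⟨by rw [Lm_smul, rk_smul c hc]; exact h1, Ξ, by rw [hker]; exact h2,
        by rw [hker]; exact h3, fun ξ hξ => ?_⟩
      have := Good_smul c hc n _ _ _ _ _ (h4 ξ hξ)
      rw [← dl_smul] at this
      simpa using this

theorem dl_congr {n : ℕ} {E W E' W' : Type} [AddCommGroup E] [Module F E]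
    [AddCommGroup W] [Module F W] [AddCommGroup E'] [Module F E']
    [AddCommGroup W'] [Module F W'] (σ : E ≃ₗ[F] E') (τ : W ≃ₗ[F] W') (A B : ML F n E W)
    (A' B' : ML F n E' W') (hA : ∀ x, A' (fun i => σ (x i)) = τ (A x))
    (hB : ∀ x, B' (fun i => σ (x i)) = τ (B x)) (x : Fin n → E × E) :
    dl A' B' (fun i => (σ.prodCongr σ) (x i)) = (τ.prodCongr τ) (dl A B x) := by
  rw [dl_apply, dl_apply]
  have h1 : (fun j => ((σ.prodCongr σ) (x j)).1) = fun j => σ ((fun j => (x j).1) j) := rfl
  have h2 : ∀ i, (fun j => if j = i then ((σ.prodCongr σ) (x j)).2 else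
      ((σ.prodCongr σ) (x j)).1) = fun j => σ ((fun j => if j = i then (x j).2 else (x j).1) j) := by
    intro i
    funext j
    dsimp only
    split_ifs <;> rfl
  simp only [h2]
  rw [h1, hA, hB]
  simp only [hA]
  ext
  · rfl
  · simp

theorem Good_congr {θ : ℕ} : ∀ (n : ℕ) (E W E' W' : Type) [AddCommGroup E] [Module F E]
    [AddCommGroup W] [Module F W] [AddCommGroup E'] [Module F E']
    [AddCommGroup W'] [Module F W'] (σ : E ≃ₗ[F] E') (τ : W ≃ₗ[F] W') (G : ML F n E W)
    (G' : ML F n E' W') (_ : ∀ x, G' (fun i => σ (x i)) = τ (G x)) (p : Fin n → E)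
    (p' : Fin n → E') (_ : ∀ i, p' i = σ (p i))
    (k : Fin n → ℕ), Good θ n E W G p k → Good θ n E' W' G' p' k
  | 0, _, _, _, _, _, _, _, _, _, _, _, _, _, _, _, _, _, _, _, _, _, _ => trivial
  | n + 1, E, W, E', W', _, _, _, _, _, _, _, _, σ, τ, G, G', hG, p, p', hp, k, h => by
      obtain ⟨h1, Ξ, h2, h3, h4⟩ := h
      have happ : ∀ e x, app G' (σ e) (fun i => σ (x i)) = τ (app G e x) := by
        intro e x
        rw [app_apply, app_apply, ← hG]
        congr 1
        funext i
        refine Fin.cases ?_ (fun i => ?_) i <;> simp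
      have htail : Fin.tail p' = fun i => σ (Fin.tail p i) := by
        funext i
        exact hp i.succ
      have hL : ∀ x, Lm G' p' 0 (σ x) = τ (Lm G p 0 x) := by
        intro x
        rw [Lm_zero, Lm_zero, htail, happ]
      have hker : LinearMap.ker (Lm G' p' 0) = (LinearMap.ker (Lm G p 0)).map (σ : E →ₗ[F] E') := by
        ext y
        simp only [LinearMap.mem_ker, Submodule.mem_map]
        constructor
        · intro hy
          refine ⟨σ.symm y, ?_, by simp⟩
          have := hL (σ.symm y)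
          simp only [LinearEquiv.apply_symm_apply] at this
          rw [hy] at this
          simpa using this.symm
        · rintro ⟨x, hx, rfl⟩
          have := hL x
          rw [hx] at this
          simpa using this
      refine ⟨by rw [rk_equiv σ τ _ _ hL]; exact h1, Ξ.map (σ : E →ₗ[F] E'), ?_, ?_, ?_⟩
      · rw [hker]
        exact Submodule.map_mono h2
      · rw [hker, LinearEquiv.finrank_map_eq, LinearEquiv.finrank_map_eq]
        exact h3
      · rintro _ ⟨ξ, hξ, rfl⟩
        refine Good_congr n _ _ _ _ (σ.prodCongr σ) (τ.prodCongr τ) _ _ ?_ _ _ ?_ _ (h4 ξ hξ)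
        · apply dl_congr
          · intro x
            rw [hp 0, happ]
          · intro x
            exact happ ξ x
        · intro i
          simp only [hat, Fin.tail, hp]
          ext <;> simp

/-- middle swap -/
def msw (F : Type) [Field F] (E : Type) [AddCommGroup E] [Module F E] :
    ((E × E) × (E × E)) ≃ₗ[F] ((E × E) × (E × E)) :=
  LinearEquiv.prodProdProdComm F E E E E

theorem msw_apply {E : Type} [AddCommGroup E] [Module F E] (a b c d : E) :
    msw F E ((a, b), (c, d)) = ((a, c), (b, d)) := rfl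

theorem dl_swap : ∀ {n : ℕ} {E W : Type} [AddCommGroup E] [Module F E]
    [AddCommGroup W] [Module F W] (A B C D : ML F n E W) (x : Fin n → (E × E) × (E × E)),
    dl (dl A C) (dl B D) (fun i => msw F E (x i)) = msw F W (dl (dl A B) (dl C D) x)
  | 0, E, W, _, _, _, _, A, B, C, D, x => by
      simp only [dl_apply, Finset.univ_eq_empty, Finset.sum_empty, zero_add, msw_apply]
      have : ∀ (y z : Fin 0 → E), y = z := fun y z => funext fun i => i.elim0
      rw [this (fun j => ((msw F E (x j)).1).1) (fun j => ((x j).1).1)]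
  | n + 1, E, W, _, _, _, _, A, B, C, D, x => by
      rw [apply_eq_app, apply_eq_app]
      rcases hx : x 0 with ⟨⟨e1, e2⟩, ⟨e3, e4⟩⟩
      have ht : (Fin.tail fun i => msw F E (x i)) = fun i => msw F E (Fin.tail x i) := rfl
      rw [ht, msw_apply, app_dl, app_dl, app_dl, app_dl, app_dl, app_dl, app_dl, app_dl,
        ← dl_add, ← dl_add]
      have := dl_swap (app A e1) (app A e2 + app B e1) (app A e3 + app C e1)
        (app A e4 + app B e3 + (app C e2 + app D e1)) (Fin.tail x)
      rw [← this]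
      congr 3
      abel

theorem Good_swap {θ n : ℕ} {E W : Type} [AddCommGroup E] [Module F E]
    [AddCommGroup W] [Module F W] (A B C D : ML F n E W) (p : Fin n → E) (k : Fin n → ℕ)
    (h : Good θ n _ _ (dl (dl A B) (dl C D)) (hat (hat p)) k) :
    Good θ n _ _ (dl (dl A C) (dl B D)) (hat (hat p)) k :=
  Good_congr n _ _ _ _ (msw F E) (msw F W) _ _ (fun x => dl_swap A B C D x) _ _
    (fun _ => rfl) k h

theorem fr_map {M N : Type} [AddCommGroup M] [Module F M] [AddCommGroup N] [Module F N]
    [FiniteDimensional F M] (f : M →ₗ[F] N) (S : Submodule F M) :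
    finrank F (S.map f) + finrank F (S ⊓ LinearMap.ker f : Submodule F M) = finrank F S := by
  have h3 := LinearMap.finrank_range_add_finrank_ker (f.domRestrict S)
  rw [LinearMap.range_domRestrict, LinearMap.ker_domRestrict] at h3
  have h4 : finrank F (Submodule.comap S.subtype (LinearMap.ker f)) = finrank F
      (S ⊓ LinearMap.ker f : Submodule F M) := by
    rw [← Submodule.finrank_map_subtype_eq, Submodule.map_comap_subtype]
  rw [h4] at h3
  exact h3

theorem fr_map_inj {M N : Type} [AddCommGroup M] [Module F M] [AddCommGroup N] [Module F N]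
    [FiniteDimensional F M] (f : M →ₗ[F] N) (hf : Function.Injective f) (S : Submodule F M) :
    finrank F (S.map f) = finrank F S := by
  have := fr_map f S
  rw [LinearMap.ker_eq_bot.mpr hf, inf_bot_eq, finrank_bot] at this
  exact this

/-- key rank inequality: `rk (L + εM) ≥ rk L + dim (im L + M T)` for `T ≤ ker L` -/
theorem rk_dlin_ge' {E W : Type} [AddCommGroup E] [Module F E] [FiniteDimensional F E]
    [AddCommGroup W] [Module F W] [FiniteDimensional F W] (L M : E →ₗ[F] W) (T : Submodule F E)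
    (hT : T ≤ LinearMap.ker L) :
    rk L + finrank F (LinearMap.range L ⊔ T.map M : Submodule F W) ≤ rk (dlin L M) := by
  have h1 : ((LinearMap.range (dlin L M)).map (LinearMap.fst F W W)) = LinearMap.range L := by
    ext w
    simp only [Submodule.mem_map, LinearMap.mem_range]
    constructor
    · rintro ⟨_, ⟨⟨x, y⟩, rfl⟩, rfl⟩
      exact ⟨x, rfl⟩
    · rintro ⟨x, rfl⟩
      exact ⟨dlin L M (x, 0), ⟨(x, 0), rfl⟩, rfl⟩
  have h2 : (LinearMap.range L ⊔ T.map M : Submodule F W).map (LinearMap.inr F W W) ≤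
      LinearMap.range (dlin L M) ⊓ LinearMap.ker (LinearMap.fst F W W) := by
    rw [Submodule.map_sup, sup_le_iff]
    constructor
    · rintro _ ⟨_, ⟨x, rfl⟩, rfl⟩
      refine ⟨⟨(0, x), ?_⟩, rfl⟩
      rw [dlin_apply]
      simp
    · rintro _ ⟨_, ⟨x, hx, rfl⟩, rfl⟩
      refine ⟨⟨(x, 0), ?_⟩, rfl⟩
      rw [dlin_apply]
      have : L x = 0 := hT hx
      simp [this]
  have h3 := fr_map (LinearMap.fst F W W) (LinearMap.range (dlin L M))
  have h5 := Submodule.finrank_mono h2
  rw [fr_map_inj _ LinearMap.inr_injective] at h5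
  rw [h1] at h3
  unfold rk
  omega

theorem rk_dlin_ge {E W : Type} [AddCommGroup E] [Module F E] [FiniteDimensional F E]
    [AddCommGroup W] [Module F W] [FiniteDimensional F W] (L M : E →ₗ[F] W) :
    2 * rk L ≤ rk (dlin L M) := by
  have := rk_dlin_ge' L M ⊥ bot_le
  rw [Submodule.map_bot, sup_bot_eq] at this
  unfold rk at *
  omega

/-- rank of `L + εM`: `rk (L + ε M) = 2 rk L + rank (M : ker L → coker L)`, as an upper bound -/
theorem rk_dlin_le {E W : Type} [AddCommGroup E] [Module F E] [FiniteDimensional F E]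
    [AddCommGroup W] [Module F W] [FiniteDimensional F W] (L M : E →ₗ[F] W) :
    rk (dlin L M) ≤ rk L + finrank F (LinearMap.range L ⊔ (LinearMap.ker L).map M :
      Submodule F W) := by
  have h1 : ((LinearMap.range (dlin L M)).map (LinearMap.fst F W W)) ≤ LinearMap.range L := by
    rintro _ ⟨_, ⟨⟨x, y⟩, rfl⟩, rfl⟩
    exact ⟨x, rfl⟩
  have h2 : LinearMap.range (dlin L M) ⊓ LinearMap.ker (LinearMap.fst F W W) ≤
      (LinearMap.range L ⊔ (LinearMap.ker L).map M : Submodule F W).map
        (LinearMap.inr F W W) := by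
    rintro _ ⟨⟨⟨x, y⟩, rfl⟩, hz⟩
    rw [dlin_apply] at hz ⊢
    have hx : L x = 0 := hz
    rw [hx]
    refine ⟨L y + M x, ?_, rfl⟩
    exact Submodule.add_mem_sup ⟨y, rfl⟩ ⟨x, hx, rfl⟩
  have h3 := fr_map (LinearMap.fst F W W) (LinearMap.range (dlin L M))
  have h5 := Submodule.finrank_mono h2
  rw [fr_map_inj _ LinearMap.inr_injective] at h5
  have h6 := Submodule.finrank_mono h1
  unfold rk
  omega

theorem rk_dlin_zero {E W : Type} [AddCommGroup E] [Module F E] [FiniteDimensional F E]
    [AddCommGroup W] [Module F W] [FiniteDimensional F W] (L : E →ₗ[F] W) :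
    rk (dlin L 0) = 2 * rk L := by
  have h1 := rk_dlin_le L (0 : E →ₗ[F] W)
  have h2 := rk_dlin_ge L (0 : E →ₗ[F] W)
  rw [Submodule.map_zero, sup_bot_eq] at h1
  unfold rk at *
  omega

theorem kap_zero_succ {n : ℕ} {E W : Type} [AddCommGroup E] [Module F E]
    [AddCommGroup W] [Module F W] (G : ML F (n + 1) E W) (p : Fin (n + 1) → E) (i : Fin n) :
    kap G p i.succ = kap (app G (p 0)) (Fin.tail p) i := by
  unfold kap
  rw [Lm_succ]

/-- good points: all section ranks are at most `k i + θ` -/
theorem Good_all {θ : ℕ} : ∀ (n : ℕ) (E W : Type) [AddCommGroup E] [Module F E]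
    [FiniteDimensional F E] [AddCommGroup W] [Module F W] [FiniteDimensional F W]
    (G : ML F n E W) (p : Fin n → E) (k : Fin n → ℕ),
    Good θ n E W G p k → ∀ i, kap G p i ≤ k i + θ
  | 0, _, _, _, _, _, _, _, _, _, _, _, _, i => i.elim0
  | n + 1, E, W, _, _, _, _, _, _, G, p, k, h, i => by
      obtain ⟨h1, Ξ, h2, h3, h4⟩ := h
      refine Fin.cases h1 (fun i => ?_) i
      have h5 := Good_all n _ _ _ _ _ (h4 0 Ξ.zero_mem) i
      unfold kap at h5
      rw [Lm_dl_hat, map_zero, Lm_zero_map, rk_dlin_zero] at h5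
      rw [kap_zero_succ]
      unfold kap
      omega

end

end Run7.h130
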