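import Pool.Agent.Run7.h130.Iface
import Pool.Agent.Run7.h130.GoodB

/-!
# Additivity: `S_additivity`
-/

set_option autoImplicit false

namespace Run7.h130

open Module

section

variable {F : Type} [Field F]

theorem fr_prod {M N : Type} [AddCommGroup M] [Module F M] [AddCommGroup N] [Module F N]
    [FiniteDimensional F M] [FiniteDimensional F N] (S : Submodule F M) (T : Submodule F N) :
    finrank F (S.prod T) = finrank F S + finrank F T := by
  have h := fr_map (LinearMap.fst F M N) (S.prod T)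
  have h1 : (S.prod T).map (LinearMap.fst F M N) = S := by
    ext x
    simp only [Submodule.mem_map, Submodule.mem_prod, LinearMap.fst_apply]
    constructor
    · rintro ⟨y, ⟨h, _⟩, rfl⟩
      exact h
    · intro h
      exact ⟨(x, 0), ⟨h, T.zero_mem⟩, rfl⟩
  have h2 : (S.prod T) ⊓ LinearMap.ker (LinearMap.fst F M N) = T.map (LinearMap.inr F M N) := by
    ext ⟨x, y⟩
    simp only [Submodule.mem_inf, Submodule.mem_map, Submodule.mem_prod, LinearMap.mem_ker,
      LinearMap.fst_apply, LinearMap.inr_apply, Prod.mk.injEq]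
    constructor
    · rintro ⟨⟨_, h⟩, h'⟩
      exact ⟨y, h, h'.symm, rfl⟩
    · rintro ⟨y', h, h', rfl⟩
      subst h'
      exact ⟨⟨S.zero_mem, h⟩, rfl⟩
  rw [h1, h2, fr_map_inj _ LinearMap.inr_injective] at h
  exact h.symm

variable {E W : Type} [AddCommGroup E] [Module F E] [AddCommGroup W] [Module F W]

/-- difference of first coordinates -/
def dfst (F E : Type) [Field F] [AddCommGroup E] [Module F E] : ((E × E) × (E × E)) →ₗ[F] E :=
  LinearMap.fst F E E ∘ₗ LinearMap.fst F (E × E) (E × E) -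
    LinearMap.fst F E E ∘ₗ LinearMap.snd F (E × E) (E × E)

/-- `((x, y₁), (_, y₂)) ↦ (x, y₁ + y₂)` -/
def sumsnd (F E : Type) [Field F] [AddCommGroup E] [Module F E] :
    ((E × E) × (E × E)) →ₗ[F] (E × E) :=
  LinearMap.prod (LinearMap.fst F E E ∘ₗ LinearMap.fst F (E × E) (E × E))
    (LinearMap.snd F E E ∘ₗ LinearMap.fst F (E × E) (E × E) +
      LinearMap.snd F E E ∘ₗ LinearMap.snd F (E × E) (E × E))

/-- the fibre sum -/
def fsum (Ξ1 Ξ2 : Submodule F (E × E)) : Submodule F (E × E) :=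
  ((Ξ1.prod Ξ2) ⊓ LinearMap.ker (dfst F E)).map (sumsnd F E)

theorem mem_fsum {Ξ1 Ξ2 : Submodule F (E × E)} {z : E × E} (hz : z ∈ fsum Ξ1 Ξ2) :
    ∃ x y1 y2, z = (x, y1 + y2) ∧ (x, y1) ∈ Ξ1 ∧ (x, y2) ∈ Ξ2 := by
  obtain ⟨⟨⟨x, y1⟩, ⟨x', y2⟩⟩, ⟨⟨h1, h2⟩, h3⟩, rfl⟩ := hz
  have h4 : x = x' := by
    have : x - x' = 0 := h3
    exact sub_eq_zero.mp this
  subst h4
  exact ⟨x, y1, y2, rfl, h1, h2⟩

theorem dim_fsum [FiniteDimensional F E] (U : Submodule F E) (Ξ1 Ξ2 : Submodule F (E × E))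
    (h1 : ∀ z ∈ Ξ1, z.1 ∈ U) (h2 : ∀ z ∈ Ξ2, z.1 ∈ U) (h3 : ∀ y, ((0 : E), y) ∈ Ξ1 → y ∈ U) :
    finrank F Ξ1 + finrank F Ξ2 ≤ finrank F (fsum Ξ1 Ξ2) + 2 * finrank F U := by
  have a1 := fr_prod Ξ1 Ξ2
  have a2 := fr_map (dfst F E) (Ξ1.prod Ξ2)
  have a3 : (Ξ1.prod Ξ2).map (dfst F E) ≤ U := by
    rintro _ ⟨⟨⟨x, y1⟩, ⟨x', y2⟩⟩, ⟨h4, h5⟩, rfl⟩
    exact U.sub_mem (h1 _ h4) (h2 _ h5)
  have a4 := Submodule.finrank_mono a3
  set P := (Ξ1.prod Ξ2) ⊓ LinearMap.ker (dfst F E) with hP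
  have a5 := fr_map (sumsnd F E) P
  set Q := P ⊓ LinearMap.ker (sumsnd F E) with hQ
  have a6 := fr_map (LinearMap.snd F E E ∘ₗ LinearMap.fst F (E × E) (E × E)) Q
  have a7 : Q.map (LinearMap.snd F E E ∘ₗ LinearMap.fst F (E × E) (E × E)) ≤ U := by
    rintro _ ⟨⟨⟨x, y1⟩, ⟨x', y2⟩⟩, ⟨⟨⟨h4, h5⟩, h6⟩, h7⟩, rfl⟩
    have h8 : ((x, y1 + y2) : E × E) = 0 := h7
    rw [Prod.mk_eq_zero] at h8
    obtain ⟨rfl, h9⟩ := h8
    exact h3 _ h4
  have a8 : Q ⊓ LinearMap.ker (LinearMap.snd F E E ∘ₗ LinearMap.fst F (E × E) (E × E)) = ⊥ := by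
    rw [Submodule.eq_bot_iff]
    rintro ⟨⟨x, y1⟩, ⟨x', y2⟩⟩ ⟨⟨⟨⟨h4, h5⟩, h6⟩, h7⟩, h10⟩
    have h8 : ((x, y1 + y2) : E × E) = 0 := h7
    rw [Prod.mk_eq_zero] at h8
    obtain ⟨rfl, h9⟩ := h8
    have h11 : (0 : E) - x' = 0 := h6
    have h12 : y1 = 0 := h10
    subst h12
    rw [zero_add] at h9
    rw [zero_sub, neg_eq_zero] at h11
    subst h9
    subst h11
    rfl
  have a9 := Submodule.finrank_mono a7
  rw [a8, finrank_bot] at a6
  have a10 : finrank F (fsum Ξ1 Ξ2) = finrank F (P.map (sumsnd F E)) := rfl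
  omega

theorem rk_dlin_add [FiniteDimensional F E] [FiniteDimensional F W] (L M1 M2 : E →ₗ[F] W) :
    rk (dlin L (M1 + M2)) + 2 * rk L ≤ rk (dlin L M1) + rk (dlin L M2) := by
  have h1 := rk_dlin_le L (M1 + M2)
  have h2 := rk_dlin_ge' L M1 (LinearMap.ker L) le_rfl
  have h3 := rk_dlin_ge' L M2 (LinearMap.ker L) le_rfl
  have h4 : (LinearMap.range L ⊔ (LinearMap.ker L).map (M1 + M2) : Submodule F W) ≤
      (LinearMap.range L ⊔ (LinearMap.ker L).map M1) ⊔
        (LinearMap.range L ⊔ (LinearMap.ker L).map M2) := by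
    rw [sup_le_iff]
    constructor
    · exact le_sup_left.trans le_sup_left
    · rintro _ ⟨x, hx, rfl⟩
      rw [LinearMap.add_apply]
      refine Submodule.add_mem _ ?_ ?_
      · exact (le_sup_right.trans le_sup_left : (LinearMap.ker L).map M1 ≤ _) ⟨x, hx, rfl⟩
      · exact (le_sup_right.trans le_sup_right : (LinearMap.ker L).map M2 ≤ _) ⟨x, hx, rfl⟩
  have h5 := Submodule.finrank_mono h4
  have h6 := Submodule.finrank_sup_add_finrank_inf_eq
    (LinearMap.range L ⊔ (LinearMap.ker L).map M1 : Submodule F W)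
    (LinearMap.range L ⊔ (LinearMap.ker L).map M2 : Submodule F W)
  have h7 : LinearMap.range L ≤ (LinearMap.range L ⊔ (LinearMap.ker L).map M1 : Submodule F W) ⊓
    (LinearMap.range L ⊔ (LinearMap.ker L).map M2 : Submodule F W) :=
    le_inf le_sup_left le_sup_left
  have h8 := Submodule.finrank_mono h7
  unfold rk at *
  omega

theorem add_aux : ∀ (n : ℕ) (E W : Type) [AddCommGroup E] [Module F E]
    [FiniteDimensional F E] [AddCommGroup W] [Module F W] [FiniteDimensional F W]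
    (θ : ℕ) (h h1 h2 : ML F n E W) (p : Fin n → E) (k : Fin n → ℕ),
    (∀ i, k i ≤ 2 * kap h p i) →
    Good θ n (E × E) (W × W) (dl h h1) (hat p) k →
    Good θ n (E × E) (W × W) (dl h h2) (hat p) k →
    Good (4 * θ) n (E × E) (W × W) (dl h (h1 + h2)) (hat p) k
  | 0, _, _, _, _, _, _, _, _, _, _, _, _, _, _, _, _, _ => trivial
  | n + 1, E, W, _, _, _, _, _, _, θ, h, h1, h2, p, k, hk, g1, g2 => by
      obtain ⟨r1, Ξ1, a1, b1, c1⟩ := g1
      obtain ⟨r2, Ξ2, a2, b2, c2⟩ := g2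
      rw [Lm_dl_hat] at r1 r2 a1 a2 b1 b2
      set L := Lm h p 0 with hL
      set M1 := Lm h1 p 0 with hM1
      set M2 := Lm h2 p 0 with hM2
      have hk0 : k 0 ≤ 2 * rk L := hk 0
      have e1 := rk_dlin_add L M1 M2
      have e2 := rk_add_ker (dlin L M1)
      have e3 := rk_add_ker (dlin L M2)
      have e4 := rk_add_ker (dlin L (M1 + M2))
      have e5 := rk_add_ker L
      have e6 := rk_dlin_ge L (M1 + M2)
      rw [Module.finrank_prod] at e2 e3 e4
      have e7 := dim_fsum (LinearMap.ker L) Ξ1 Ξ2 (by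
          rintro ⟨x, y⟩ hz
          have := a1 hz
          rw [LinearMap.mem_ker, dlin_apply, Prod.mk_eq_zero] at this
          exact this.1) (by
          rintro ⟨x, y⟩ hz
          have := a2 hz
          rw [LinearMap.mem_ker, dlin_apply, Prod.mk_eq_zero] at this
          exact this.1) (by
          intro y hz
          have := a1 hz
          rw [LinearMap.mem_ker, dlin_apply, Prod.mk_eq_zero, map_zero, map_zero, add_zero] at this
          exact this.2)
      refine ⟨?_, fsum Ξ1 Ξ2, ?_, ?_, ?_⟩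
      · rw [Lm_dl_hat, Lm_add]
        change rk (dlin L (M1 + M2)) ≤ _
        omega
      · rw [Lm_dl_hat, Lm_add]
        intro z hz
        obtain ⟨x, y1, y2, rfl, hz1, hz2⟩ := mem_fsum hz
        have f1 := a1 hz1
        have f2 := a2 hz2
        rw [LinearMap.mem_ker, dlin_apply, Prod.mk_eq_zero] at f1 f2 ⊢
        refine ⟨f1.1, ?_⟩
        rw [map_add, LinearMap.add_apply]
        calc L y1 + L y2 + (M1 x + M2 x) = (L y1 + M1 x) + (L y2 + M2 x) := by abel
          _ = 0 := by rw [f1.2, f2.2, add_zero]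
      · rw [Lm_dl_hat, Lm_add]
        change finrank F (LinearMap.ker (dlin L (M1 + M2))) ≤ _
        omega
      · intro z hz
        obtain ⟨x, y1, y2, rfl, hz1, hz2⟩ := mem_fsum hz
        have f1 := c1 _ hz1
        have f2 := c2 _ hz2
        rw [hat_zero', app_dl, app_dl, map_zero, zero_add, tail_hat] at f1 f2 ⊢
        have f3 := Good_swap _ _ _ _ _ _ f1
        have f4 := Good_swap _ _ _ _ _ _ f2
        have f5 := add_aux n (E × E) (W × W) θ _ _ _ _ _ ?_ f3 f4
        · rw [← dl_add] at f5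
          have f6 := Good_swap _ _ _ _ _ _ f5
          convert f6 using 2
          · simp
          · rw [map_add, map_add, LinearMap.add_apply]
            congr 1
            abel
        · intro i
          have := hk i.succ
          unfold kap
          rw [Lm_dl_hat]
          have h9 := rk_dlin_ge (Lm (app h (p 0)) (Fin.tail p) i) (Lm (app h x) (Fin.tail p) i)
          rw [kap_zero_succ] at this
          unfold kap at this
          omega

theorem additivity : S_additivity := by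
  intro F _ n E W _ _ _ _ _ _ θ h h1 h2 p k
  exact add_aux n E W θ h h1 h2 p k

end

end Run7.h130
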