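import Pool.Agent.Run7.h130.Iface
import Pool.Agent.Run7.h130.GoodB

/-!
# Piece `alg`: the last coefficient is multilinear and equal to `f` up to cheap terms
(helper550)
-/

set_option autoImplicit false
set_option linter.unusedSectionVars false
set_option linter.unusedVariables false

namespace Run7.h130

open Module

namespace Alg

section Sys

variable {F : Type} [Field F] {ι V : Type} [DecidableEq ι]

/-- systems of relations between functions of the parameters: `S s N φ ψ` is read
`φ` and `ψ` are multilinear in `s`, and `φ - ψ` is a sum of `N` cheap terms. -/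
abbrev Rl (ι V X : Type) : Type := Finset ι → ℕ → ((ι → V) → X) → ((ι → V) → X) → Prop

structure Ax {X : Type} [AddCommGroup X] (S : Rl ι V X) : Prop where
  zero : ∀ s, S s 0 0 0
  add : ∀ (s : Finset ι) (N M : ℕ) (φ ψ φ' ψ' : (ι → V) → X), S s N φ ψ → S s M φ' ψ' →
    S s (N + M) (φ + φ') (ψ + ψ')
  neg : ∀ (s : Finset ι) (N : ℕ) (φ ψ : (ι → V) → X), S s N φ ψ → S s N (-φ) (-ψ)
  mono : ∀ (s : Finset ι) (N M : ℕ) (φ ψ : (ι → V) → X), N ≤ M → S s N φ ψ → S s M φ ψ

theorem Ax.zero' {X : Type} [AddCommGroup X] {S : Rl ι V X} (h : Ax S) (s : Finset ι) (N : ℕ) :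
    S s N 0 0 := h.mono s 0 N _ _ (Nat.zero_le _) (h.zero s)

theorem Ax.sum {X : Type} [AddCommGroup X] {S : Rl ι V X} (h : Ax S) {α : Type}
    (s : Finset ι) (N : ℕ) (φ ψ : α → (ι → V) → X) (T : Finset α)
    (hT : ∀ i ∈ T, S s N (φ i) (ψ i)) : S s (T.card * N) (∑ i ∈ T, φ i) (∑ i ∈ T, ψ i) := by
  classical
  induction T using Finset.induction_on with
  | empty => simpa using h.zero s
  | insert a T ha ih =>
    rw [Finset.sum_insert ha, Finset.sum_insert ha, Finset.card_insert_of_notMem ha,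
      show (T.card + 1) * N = N + T.card * N by ring]
    exact h.add _ _ _ _ _ _ _ (hT a (Finset.mem_insert_self _ _))
      (ih fun i hi => hT i (Finset.mem_insert_of_mem hi))

/-- the doubled system -/
def dbl {X : Type} (j : ι) (S : Rl ι V X) : Rl ι V (X × X) := fun s N φ ψ =>
  S s N (fun θ => (φ θ).1) (fun θ => (ψ θ).1) ∧
    S (insert j s) N (fun θ => (φ θ).2) (fun θ => (ψ θ).2)

theorem Ax.dbl {X : Type} [AddCommGroup X] {S : Rl ι V X} (h : Ax S) (j : ι) :
    Ax (dbl j S) where
  zero s := ⟨h.zero _, h.zero _⟩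
  add s N M φ ψ φ' ψ' h1 h2 := ⟨h.add _ _ _ _ _ _ _ h1.1 h2.1, h.add _ _ _ _ _ _ _ h1.2 h2.2⟩
  neg s N φ ψ h1 := ⟨h.neg _ _ _ _ h1.1, h.neg _ _ _ _ h1.2⟩
  mono s N M φ ψ hN h1 := ⟨h.mono _ _ _ _ _ hN h1.1, h.mono _ _ _ _ _ hN h1.2⟩

/-- admissible families of index sets -/
def Adm {m : ℕ} (J : Finset ι) (σ : Fin m → Finset ι) : Prop :=
  (∀ i, Disjoint (σ i) J) ∧ ∀ i k, i ≠ k → Disjoint (σ i) (σ k)

theorem Adm_cons {m : ℕ} {J s : Finset ι} {σ : Fin m → Finset ι} (hs : Disjoint s J)
    (h1 : ∀ i, Disjoint s (σ i)) (h : Adm J σ) : Adm J (Fin.cons s σ : Fin (m + 1) → Finset ι) := by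
  refine ⟨fun i => Fin.cases hs (fun i => h.1 i) i, fun i k => ?_⟩
  refine Fin.cases ?_ (fun i => ?_) i
  · refine Fin.cases (fun h0 => absurd rfl h0) (fun k _ => h1 k) k
  · refine Fin.cases (fun _ => (h1 i).symm) (fun k hik => h.2 i k ?_) k
    intro h0
    exact hik (by rw [h0])

theorem Adm_ins {m : ℕ} {J : Finset ι} {j : ι} (hj : j ∉ J) {σ : Fin m → Finset ι}
    (h : Adm (insert j J) σ) (i : Fin m) :
    Adm J (fun k => if k = i then insert j (σ k) else σ k) := by
  have hjs : ∀ k, j ∉ σ k := fun k hk =>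
    (Finset.disjoint_left.1 (h.1 k) hk) (Finset.mem_insert_self _ _)
  have hJ : ∀ k, Disjoint (σ k) J := fun k =>
    Finset.disjoint_of_subset_right (Finset.subset_insert _ _) (h.1 k)
  refine ⟨fun k => ?_, fun k l hkl => ?_⟩
  · dsimp only
    split_ifs
    · exact Finset.disjoint_insert_left.2 ⟨hj, hJ k⟩
    · exact hJ k
  · dsimp only
    split_ifs with h1 h2 h2
    · exact absurd (h1.trans h2.symm) hkl
    · exact Finset.disjoint_insert_left.2 ⟨hjs l, h.2 k l hkl⟩
    · exact Finset.disjoint_insert_right.2 ⟨hjs k, h.2 k l hkl⟩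
    · exact h.2 k l hkl

theorem U_cons {m : ℕ} (s : Finset ι) (σ : Fin m → Finset ι) :
    Finset.univ.biUnion (Fin.cons s σ : Fin (m + 1) → Finset ι) = s ∪ Finset.univ.biUnion σ := by
  ext x
  simp [Fin.exists_fin_succ]

theorem U_ins {m : ℕ} (j : ι) (σ : Fin m → Finset ι) (i : Fin m) :
    Finset.univ.biUnion (fun k => if k = i then insert j (σ k) else σ k) =
      insert j (Finset.univ.biUnion σ) := by
  ext x
  simp only [Finset.mem_biUnion, Finset.mem_univ, true_and, Finset.mem_insert]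
  constructor
  · rintro ⟨k, hk⟩
    split_ifs at hk
    · rcases Finset.mem_insert.1 hk with h | h
      · exact Or.inl h
      · exact Or.inr ⟨k, h⟩
    · exact Or.inr ⟨k, hk⟩
  · rintro (rfl | ⟨k, hk⟩)
    · exact ⟨i, by simp⟩
    · refine ⟨k, ?_⟩
      split_ifs
      · exact Finset.mem_insert_of_mem hk
      · exact hk

theorem U_upd {m : ℕ} (s : Finset ι) (i : Fin m) :
    Finset.univ.biUnion (Function.update (fun _ => (∅ : Finset ι)) i s) = s := by
  ext x
  simp only [Finset.mem_biUnion, Finset.mem_univ, true_and]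
  constructor
  · rintro ⟨k, hk⟩
    rcases eq_or_ne k i with rfl | h
    · simpa using hk
    · simp [h] at hk
  · intro hx
    exact ⟨i, by simpa using hx⟩

variable {E W : Type} [AddCommGroup E] [Module F E] [AddCommGroup W] [Module F W]

/-- related multilinear maps -/
def GR {m : ℕ} (SE : Rl ι V E) (SW : Rl ι V W) (J : Finset ι) (c N₀ : ℕ)
    (G G' : (ι → V) → ML F m E W) : Prop :=
  ∀ N, N₀ ≤ N → ∀ σ : Fin m → Finset ι, Adm J σ → ∀ y y' : Fin m → (ι → V) → E,
    (∀ i, SE (σ i) N (y i) (y' i)) →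
    SW (Finset.univ.biUnion σ) (c * N) (fun θ => G θ (fun i => y i θ))
      (fun θ => G' θ (fun i => y' i θ))

theorem cons_fun {m : ℕ} (a : (ι → V) → E) (b : Fin m → (ι → V) → E) (θ : ι → V) :
    (fun i => (Fin.cons a b : Fin (m + 1) → (ι → V) → E) i θ) =
      (Fin.cons (a θ) (fun i => b i θ) : Fin (m + 1) → E) := by
  funext i
  refine Fin.cases rfl (fun i => rfl) i

theorem GR_step {m : ℕ} {SE : Rl ι V E} {SW : Rl ι V W} (hE : Ax SE) (hW : Ax SW)
    {J : Finset ι} {j : ι} (hj : j ∉ J) {c N₀ N₁ : ℕ} {G G' : (ι → V) → ML F (m + 1) E W}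
    (hG : GR SE SW J c N₀ G G') {p0 : E} (hp : SE ∅ 0 (fun _ => p0) (fun _ => p0))
    {t0 t0' : (ι → V) → E} (ht : SE {j} N₁ t0 t0') :
    GR (dbl j SE) (dbl j SW) (insert j J) ((m + 1) * c) (max N₀ N₁)
      (fun θ => dl (app (G θ) p0) (app (G θ) (t0 θ)))
      (fun θ => dl (app (G' θ) p0) (app (G' θ) (t0' θ))) := by
  intro N hN σ hσ y y' hy
  have hN0 : N₀ ≤ N := le_trans (le_max_left _ _) hN
  have hN1 : N₁ ≤ N := le_trans (le_max_right _ _) hN
  have hσ' : Adm J σ := ⟨fun i => Finset.disjoint_of_subset_right (Finset.subset_insert _ _) (hσ.1 i),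
    hσ.2⟩
  have hjs : ∀ k, j ∉ σ k := fun k hk =>
    (Finset.disjoint_left.1 (hσ.1 k) hk) (Finset.mem_insert_self _ _)
  have hp' : SE ∅ N (fun _ => p0) (fun _ => p0) := hE.mono _ _ _ _ _ (Nat.zero_le _) hp
  constructor
  · have h := hG N hN0 (Fin.cons ∅ σ) (Adm_cons (Finset.disjoint_empty_left _)
      (fun _ => Finset.disjoint_empty_left _) hσ')
      (Fin.cons (fun _ => p0) (fun i θ => (y i θ).1)) (Fin.cons (fun _ => p0) (fun i θ => (y' i θ).1))
      (fun i => Fin.cases hp' (fun i => (hy i).1) i)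
    rw [U_cons, Finset.empty_union] at h
    simp only [cons_fun] at h
    refine hW.mono _ _ _ _ _ ?_ h
    exact Nat.mul_le_mul_right _ (Nat.le_mul_of_pos_left _ (Nat.succ_pos _))
  · have h1 : ∀ i : Fin m, SW (insert j (Finset.univ.biUnion σ)) (c * N)
        (fun θ => G θ (Fin.cons p0 (fun k => if k = i then (y k θ).2 else (y k θ).1)))
        (fun θ => G' θ (Fin.cons p0 (fun k => if k = i then (y' k θ).2 else (y' k θ).1))) := by
      intro i
      have h := hG N hN0 (Fin.cons ∅ (fun k => if k = i then insert j (σ k) else σ k))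
        (Adm_cons (Finset.disjoint_empty_left _) (fun _ => Finset.disjoint_empty_left _)
          (Adm_ins hj hσ i))
        (Fin.cons (fun _ => p0) (fun k θ => if k = i then (y k θ).2 else (y k θ).1))
        (Fin.cons (fun _ => p0) (fun k θ => if k = i then (y' k θ).2 else (y' k θ).1))
        (fun k => Fin.cases hp' (fun k => ?_) k)
      · simp only [Fin.cons_succ]
        split_ifs with hk
        · exact (hy k).2
        · exact (hy k).1
      · rw [U_cons, Finset.empty_union, U_ins] at h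
        simp only [cons_fun] at h
        exact h
    have h2 : SW (insert j (Finset.univ.biUnion σ)) (c * N)
        (fun θ => G θ (Fin.cons (t0 θ) (fun k => (y k θ).1)))
        (fun θ => G' θ (Fin.cons (t0' θ) (fun k => (y' k θ).1))) := by
      have h := hG N hN0 (Fin.cons {j} σ) (Adm_cons (Finset.disjoint_singleton_left.2 hj)
        (fun i => Finset.disjoint_singleton_left.2 (hjs i)) hσ')
        (Fin.cons t0 (fun i θ => (y i θ).1)) (Fin.cons t0' (fun i θ => (y' i θ).1))
        (fun i => Fin.cases (hE.mono _ _ _ _ _ hN1 ht) (fun i => (hy i).1) i)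
      rw [U_cons, ← Finset.insert_eq] at h
      simp only [cons_fun] at h
      exact h
    have h3 := hW.sum (insert j (Finset.univ.biUnion σ)) (c * N) _ _ Finset.univ
      (fun i _ => h1 i)
    have h4 := hW.add _ _ _ _ _ _ _ h3 h2
    rw [Finset.card_univ, Fintype.card_fin, show m * (c * N) + c * N = (m + 1) * c * N by ring] at h4
    convert h4 using 1
    · funext θ
      simp only [dl_apply, app_apply, Pi.add_apply, Finset.sum_apply]
    · funext θ
      simp only [dl_apply, app_apply, Pi.add_apply, Finset.sum_apply]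

theorem M_self {m : ℕ} {SE : Rl ι V E} {SW : Rl ι V W}
    {J : Finset ι} {j : ι} (hj : j ∉ J) {c : ℕ} {G : (ι → V) → ML F (m + 1) E W}
    (hG : GR SE SW J c 0 G G) {p : Fin (m + 1) → E}
    (hp : ∀ i, SE ∅ 0 (fun _ => p i) (fun _ => p i))
    {t0 : (ι → V) → E} (ht : SE {j} 0 t0 t0) (i : Fin m) {s : Finset ι}
    (hs : Disjoint s (insert j J)) (v : (ι → V) → E) (hv : SE s 0 v v) :
    SW (insert j s) 0 (fun θ => Lm (app (G θ) (t0 θ)) (Fin.tail p) i (v θ))
      (fun θ => Lm (app (G θ) (t0 θ)) (Fin.tail p) i (v θ)) := by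
  have hjs : j ∉ s := fun hk => (Finset.disjoint_left.1 hs hk) (Finset.mem_insert_self _ _)
  have hsJ : Disjoint s J := Finset.disjoint_of_subset_right (Finset.subset_insert _ _) hs
  have hadm : Adm J (Function.update (fun _ : Fin m => (∅ : Finset ι)) i s) := by
    refine ⟨fun k => ?_, fun k l hkl => ?_⟩
    · rcases eq_or_ne k i with rfl | h
      · simpa using hsJ
      · simp [h]
    · rcases eq_or_ne k i with rfl | h
      · simp [hkl.symm]
      · simp [h]
  have h := hG 0 le_rfl (Fin.cons {j} (Function.update (fun _ => ∅) i s))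
    (Adm_cons (Finset.disjoint_singleton_left.2 hj) (fun k => ?_) hadm)
    (Fin.cons t0 (Function.update (fun k _ => Fin.tail p k) i v))
    (Fin.cons t0 (Function.update (fun k _ => Fin.tail p k) i v))
    (fun k => Fin.cases ht (fun k => ?_) k)
  · simp only [Fin.cons_succ]
    rcases eq_or_ne k i with rfl | h
    · simpa using hv
    · simp only [Function.update_of_ne h]
      exact hp k.succ
  · rcases eq_or_ne k i with rfl | h
    · simpa using hjs
    · simp [h]
  · rw [U_cons, U_upd, ← Finset.insert_eq, Nat.mul_zero] at h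
    simp only [cons_fun] at h
    convert h using 1 <;>
    · funext θ
      rw [Lm_apply, app_apply]
      congr 2
      funext k
      rcases eq_or_ne k i with rfl | hk
      · simp
      · simp [hk]

/-- related generalised inverses -/
def RR (SE : Rl ι V E) (SW : Rl ι V W) (J : Finset ι) (N : ℕ) (R : (ι → V) → (W →ₗ[F] E)) : Prop :=
  ∀ s : Finset ι, Disjoint s J → ∀ y : (ι → V) → W, SW s 0 y y →
    SE s 0 (fun θ => R θ (y θ)) (fun θ => R θ (y θ)) ∧
    (s.Nonempty → SE s N (fun θ => R θ (y θ)) 0)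

theorem Ax.add0 {X : Type} [AddCommGroup X] {S : Rl ι V X} (h : Ax S) (s : Finset ι) (N M : ℕ)
    (φ φ' : (ι → V) → X) (h1 : S s N φ 0) (h2 : S s M φ' 0) : S s (N + M) (φ + φ') 0 := by
  have := h.add _ _ _ _ _ _ _ h1 h2
  simpa using this

theorem Ax.neg0 {X : Type} [AddCommGroup X] {S : Rl ι V X} (h : Ax S) (s : Finset ι) (N : ℕ)
    (φ : (ι → V) → X) (h1 : S s N φ 0) : S s N (-φ) 0 := by
  have := h.neg _ _ _ _ h1
  simpa using this

theorem RR_step {m : ℕ} {SE : Rl ι V E} {SW : Rl ι V W} (hE : Ax SE)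
    {J : Finset ι} {j : ι} (hj : j ∉ J) {c : ℕ} {G : (ι → V) → ML F (m + 1) E W}
    (hG : GR SE SW J c 0 G G) {p : Fin (m + 1) → E}
    (hp : ∀ i, SE ∅ 0 (fun _ => p i) (fun _ => p i))
    {t0 : (ι → V) → E} (ht : SE {j} 0 t0 t0) (i : Fin m) {N : ℕ}
    {R : (ι → V) → (W →ₗ[F] E)} (hR : RR SE SW J N R) :
    RR (dbl j SE) (dbl j SW) (insert j J) (2 * N)
      (fun θ => Rnext (R θ) (Lm (app (G θ) (t0 θ)) (Fin.tail p) i)) := by
  intro s hs y hy
  have hsJ : Disjoint s J := Finset.disjoint_of_subset_right (Finset.subset_insert _ _) hs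
  have hsJ' : Disjoint (insert j s) J := Finset.disjoint_insert_left.2 ⟨hj, hsJ⟩
  obtain ⟨hy1, hy2⟩ := hy
  have h1 := hR s hsJ _ hy1
  have h2 := hR _ hsJ' _ hy2
  have h3 := M_self hj hG hp ht i hs _ h1.1
  have h4 := hR _ hsJ' _ h3
  have hval : ∀ θ, Rnext (R θ) (Lm (app (G θ) (t0 θ)) (Fin.tail p) i) (y θ) =
      (R θ (y θ).1, R θ (y θ).2 + -(R θ (Lm (app (G θ) (t0 θ)) (Fin.tail p) i (R θ (y θ).1)))) := by
    intro θ
    rcases y θ with ⟨a, b⟩
    rw [Rnext, dlin_apply]
    rfl
  refine ⟨⟨?_, ?_⟩, fun hne => ⟨?_, ?_⟩⟩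
  · simp only [hval]
    exact h1.1
  · simp only [hval]
    exact hE.add _ 0 0 _ _ _ _ h2.1 (hE.neg _ _ _ _ h4.1)
  · simp only [hval]
    exact hE.mono _ _ _ _ _ (by omega) (h1.2 hne)
  · simp only [hval]
    rw [two_mul]
    exact hE.add0 _ _ _ _ _ (h2.2 (Finset.insert_nonempty _ _))
      (hE.neg0 _ _ _ (h4.2 (Finset.insert_nonempty _ _)))

end Sys

/-- the constant -/
def Cf : ℕ → ℕ → ℕ
  | 0, c => c
  | m + 1, c => 2 * Cf m ((m + 1) * c)

theorem main {F : Type} [Field F] {ι V W₀ : Type} [DecidableEq ι]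
    [AddCommGroup W₀] [Module F W₀] (S0 : Rl ι V W₀) : ∀ (m c : ℕ) (E W : Type)
    [AddCommGroup E] [Module F E] [AddCommGroup W] [Module F W] (SE : Rl ι V E) (SW : Rl ι V W)
    (_ : Ax SE) (_ : Ax SW) (J : Finset ι) (idx : Fin m → ι) (_ : Function.Injective idx)
    (_ : ∀ i, idx i ∉ J) (G G' : (ι → V) → ML F m E W) (p : Fin m → E)
    (R : Fin m → (ι → V) → (W →ₗ[F] E)) (t t' : Fin m → (ι → V) → E) (lam : W →ₗ[F] W₀) (N : ℕ)
    (_ : GR SE SW J c 0 G G) (_ : GR SE SW J c N G G')
    (_ : ∀ i, SE ∅ 0 (fun _ => p i) (fun _ => p i))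
    (_ : ∀ i, RR SE SW J N (R i))
    (_ : ∀ i, SE {idx i} 0 (t i) (t i)) (_ : ∀ i, SE {idx i} N (t i) (t' i))
    (_ : ∀ (s : Finset ι) (M : ℕ) (φ ψ : (ι → V) → W), Disjoint s J → SW s M φ ψ →
      S0 (s ∪ J) M (fun θ => lam (φ θ)) (fun θ => lam (ψ θ))),
    S0 (Finset.univ.image idx ∪ J) (Cf m c * N)
      (fun θ => lastE m E W (G θ) p (fun i => R i θ) (fun i => t i θ) lam)
      (fun θ => lam (G' θ (fun i => t' i θ))) := by
  intro m
  induction m with
  | zero =>
    intro c E W _ _ _ _ SE SW hE hW J idx hinj hJ G G' p R t t' lam N hGs hG hp hR hts ht hlam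
    have h := hG N le_rfl (fun i => i.elim0) ⟨fun i => i.elim0, fun i => i.elim0⟩
      (fun i => i.elim0) (fun i => i.elim0) (fun i => i.elim0)
    have h1 := hlam _ _ _ _ (by simp) h
    have e0 : (Finset.univ.image idx ∪ J : Finset ι) =
        (Finset.univ.biUnion (fun i : Fin 0 => (i.elim0 : Finset ι))) ∪ J := by
      congr 1
    have e1 : (fun θ => lastE 0 E W (G θ) p (fun i => R i θ) (fun i => t i θ) lam) =
        (fun θ => lam ((G θ) fun i : Fin 0 => (i.elim0 : (ι → V) → E) θ)) := by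
      funext θ
      show lam (G θ p) = _
      congr 2
      funext i
      exact i.elim0
    have e2 : (fun θ => lam ((G' θ) fun i => t' i θ)) =
        (fun θ => lam ((G' θ) fun i : Fin 0 => (i.elim0 : (ι → V) → E) θ)) := by
      funext θ
      congr 2
      funext i
      exact i.elim0
    rw [e0, e1, e2]
    exact h1
  | succ m ih =>
    intro c E W _ _ _ _ SE SW hE hW J idx hinj hJ G G' p R t t' lam N hGs hG hp hR hts ht hlam
    have hj : idx 0 ∉ J := hJ 0
    have key := ih ((m + 1) * c) (E × E) (W × W) (dbl (idx 0) SE) (dbl (idx 0) SW)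
      (hE.dbl _) (hW.dbl _) (insert (idx 0) J) (fun i => idx i.succ)
      (fun a b hab => Fin.succ_injective _ (hinj hab))
      (fun i hi => by
        rcases Finset.mem_insert.1 hi with h | h
        · exact absurd (hinj h) (Fin.succ_ne_zero i)
        · exact hJ _ h)
      (fun θ => dl (app (G θ) (p 0)) (app (G θ) (t 0 θ)))
      (fun θ => dl (app (G' θ) (p 0)) (app (G' θ) (t' 0 θ)))
      (hat (Fin.tail p))
      (fun i θ => Rnext (R i.succ θ) (Lm (app (G θ) (t 0 θ)) (Fin.tail p) i))
      (fun i θ => (t i.succ θ, -(R i.succ θ (Lm (app (G θ) (t 0 θ)) (Fin.tail p) i (t i.succ θ)))))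
      (fun i θ => (t' i.succ θ, 0)) (lam ∘ₗ LinearMap.snd F W W) (2 * N)
      (by simpa using GR_step hE hW hj hGs (hp 0) (hts 0))
      (fun M hM => (GR_step hE hW hj hG (hp 0) (ht 0)) M (by simp; omega))
      (fun i => ⟨hp i.succ, hE.zero' _ _⟩)
      (fun i => RR_step hE hj hGs hp (hts 0) i (hR i.succ))
      (fun i => ?_) (fun i => ?_) ?_
    · have e1 : Finset.univ.image idx ∪ J =
          Finset.univ.image (fun i : Fin m => idx i.succ) ∪ insert (idx 0) J := by
        ext x
        simp [Fin.exists_fin_succ, or_comm, or_left_comm, eq_comm]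
      rw [e1, show Cf (m + 1) c * N = Cf m ((m + 1) * c) * (2 * N) by rw [Cf]; ring]
      have e2 : (fun θ => lam ((G' θ) fun i => t' i θ)) = fun θ =>
          (lam ∘ₗ LinearMap.snd F W W) ((dl ((app (G' θ)) (p 0)) ((app (G' θ)) (t' 0 θ)))
            fun i => (t' i.succ θ, 0)) := by
        funext θ
        simp only [LinearMap.comp_apply, LinearMap.snd_apply, dl_apply]
        rw [Finset.sum_eq_zero, zero_add, app_apply]
        · congr 2
          funext i
          refine Fin.cases rfl (fun i => rfl) i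
        · intro i _
          exact MultilinearMap.map_coord_zero _ i (by simp)
      rw [e2]
      exact key
    · -- self relation of the new tangent vectors
      have hd : Disjoint ({idx i.succ} : Finset ι) (insert (idx 0) J) := by
        rw [Finset.disjoint_singleton_left]
        intro hi
        rcases Finset.mem_insert.1 hi with h | h
        · exact absurd (hinj h) (Fin.succ_ne_zero i)
        · exact hJ _ h
      have h1 := M_self hj hGs hp (hts 0) i hd _ (hts i.succ)
      have hd' : Disjoint (insert (idx 0) {idx i.succ} : Finset ι) J :=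
        Finset.disjoint_insert_left.2 ⟨hj, Finset.disjoint_singleton_left.2 (hJ _)⟩
      exact ⟨hts i.succ, hE.neg _ _ _ _ (hR i.succ _ hd' _ h1).1⟩
    · have hd : Disjoint ({idx i.succ} : Finset ι) (insert (idx 0) J) := by
        rw [Finset.disjoint_singleton_left]
        intro hi
        rcases Finset.mem_insert.1 hi with h | h
        · exact absurd (hinj h) (Fin.succ_ne_zero i)
        · exact hJ _ h
      have h1 := M_self hj hGs hp (hts 0) i hd _ (hts i.succ)
      have hd' : Disjoint (insert (idx 0) {idx i.succ} : Finset ι) J :=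
        Finset.disjoint_insert_left.2 ⟨hj, Finset.disjoint_singleton_left.2 (hJ _)⟩
      exact ⟨hE.mono _ _ _ _ _ (by omega) (ht i.succ),
        hE.mono _ _ _ _ _ (by omega) (hE.neg0 _ _ _ ((hR i.succ _ hd' _ h1).2
          (Finset.insert_nonempty _ _)))⟩
    · intro s M φ ψ hs h
      have hs1 : idx 0 ∉ s := fun hk => (Finset.disjoint_left.1 hs hk) (Finset.mem_insert_self _ _)
      have hsJ : Disjoint s J := Finset.disjoint_of_subset_right (Finset.subset_insert _ _) hs
      have h1 := hlam _ _ _ _ (Finset.disjoint_insert_left.2 ⟨hj, hsJ⟩) h.2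
      have e1 : s ∪ insert (idx 0) J = insert (idx 0) s ∪ J := by
        ext x
        simp [or_left_comm]
      rw [e1]
      exact h1

section Base

variable {F : Type} [Field F] {ι V X Y : Type} [DecidableEq ι] [AddCommGroup V] [Module F V]
  [AddCommGroup X] [Module F X] [AddCommGroup Y] [Module F Y]

theorem MD_zero (s : Finset ι) : MD F s (0 : (ι → V) → X) :=
  ⟨fun _ _ _ _ _ => by simp, fun _ _ _ _ _ => by simp, fun _ _ _ _ => rfl⟩

theorem MD_add {s : Finset ι} {φ ψ : (ι → V) → X} (h1 : MD F s φ) (h2 : MD F s ψ) :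
    MD F s (φ + ψ) := by
  refine ⟨fun i hi x v w => ?_, fun i hi x c v => ?_, fun i hi x v => ?_⟩
  · simp only [Pi.add_apply, h1.1 i hi, h2.1 i hi]
    abel
  · simp only [Pi.add_apply, h1.2.1 i hi, h2.2.1 i hi, smul_add]
  · simp only [Pi.add_apply, h1.2.2 i hi, h2.2.2 i hi]

theorem MD_comp {s : Finset ι} {φ : (ι → V) → X} (h1 : MD F s φ) (L : X →ₗ[F] Y) :
    MD F s (fun θ => L (φ θ)) := by
  refine ⟨fun i hi x v w => ?_, fun i hi x c v => ?_, fun i hi x v => ?_⟩
  · simp only [h1.1 i hi, map_add]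
  · simp only [h1.2.1 i hi, map_smul]
  · simp only [h1.2.2 i hi]

theorem MD_neg {s : Finset ι} {φ : (ι → V) → X} (h1 : MD F s φ) : MD F s (-φ) :=
  MD_comp h1 (-LinearMap.id)

theorem MD_sub {s : Finset ι} {φ ψ : (ι → V) → X} (h1 : MD F s φ) (h2 : MD F s ψ) :
    MD F s (φ - ψ) := by
  rw [sub_eq_add_neg]
  exact MD_add h1 (MD_neg h2)

theorem MD_const (c : X) : MD F (∅ : Finset ι) (fun _ : ι → V => c) :=
  ⟨fun i hi => absurd hi (Finset.notMem_empty i), fun i hi => absurd hi (Finset.notMem_empty i),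
    fun _ _ _ _ => rfl⟩

theorem MD_proj (i : ι) : MD F ({i} : Finset ι) (fun θ : ι → V => θ i) := by
  refine ⟨fun k hk x v w => ?_, fun k hk x c v => ?_, fun k hk x v => ?_⟩
  · rw [Finset.mem_singleton] at hk
    subst hk
    simp
  · rw [Finset.mem_singleton] at hk
    subst hk
    simp
  · rw [Finset.mem_singleton] at hk
    simp [Function.update_of_ne (Ne.symm hk)]

theorem MD_ml {m : ℕ} (f : ML F m X Y) {σ : Fin m → Finset ι}
    (hσ : ∀ i k, i ≠ k → Disjoint (σ i) (σ k)) {y : Fin m → (ι → V) → X}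
    (hy : ∀ i, MD F (σ i) (y i)) :
    MD F (Finset.univ.biUnion σ) (fun θ => f (fun i => y i θ)) := by
  have key : ∀ i k, i ∈ σ k → ∀ (x : ι → V) (v : V),
      (fun l => y l (Function.update x i v)) =
        Function.update (fun l => y l x) k (y k (Function.update x i v)) := by
    intro i k hik x v
    funext l
    rcases eq_or_ne l k with rfl | h
    · simp
    · rw [Function.update_of_ne h]
      exact (hy l).2.2 i (fun hil => (Finset.disjoint_left.1 (hσ l k h) hil) hik) x v
  refine ⟨fun i hi x v w => ?_, fun i hi x c v => ?_, fun i hi x v => ?_⟩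
  · obtain ⟨k, -, hk⟩ := Finset.mem_biUnion.1 hi
    simp only [key i k hk, (hy k).1 i hk, f.map_update_add]
  · obtain ⟨k, -, hk⟩ := Finset.mem_biUnion.1 hi
    simp only [key i k hk, (hy k).2.1 i hk, f.map_update_smul]
  · have e : (fun k => y k (Function.update x i v)) = fun k => y k x := by
      funext k
      exact (hy k).2.2 i (fun hk => hi (Finset.mem_biUnion.2 ⟨k, Finset.mem_univ _, hk⟩)) x v
    simp only [e]

/-- sum of at most `N` cheap terms -/
def Chp (F : Type) [Field F] {ι V X : Type} [DecidableEq ι] [AddCommGroup V] [Module F V]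
    [AddCommGroup X] [Module F X] (s : Finset ι) (N : ℕ) (φ : (ι → V) → X) : Prop :=
  ∃ r ≤ N, ∃ (I : Fin r → Finset ι) (a : Fin r → (ι → V) → F) (h : Fin r → (ι → V) → X),
    (∀ l, (I l).Nonempty) ∧ (∀ l, I l ⊆ s) ∧ (∀ l, MD F (I l) (a l)) ∧
    (∀ l, MD F (s \ I l) (h l)) ∧ ∀ x, φ x = ∑ l, a l x • h l x

theorem Chp_zero (s : Finset ι) (N : ℕ) : Chp F s N (0 : (ι → V) → X) :=
  ⟨0, Nat.zero_le _, fun i => i.elim0, fun i => i.elim0, fun i => i.elim0, fun i => i.elim0,
    fun i => i.elim0, fun i => i.elim0, fun i => i.elim0, fun x => by simp⟩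

theorem Chp_mono {s : Finset ι} {N M : ℕ} (h : N ≤ M) {φ : (ι → V) → X} (h1 : Chp F s N φ) :
    Chp F s M φ := by
  obtain ⟨r, hr, h1⟩ := h1
  exact ⟨r, hr.trans h, h1⟩

theorem Chp_neg {s : Finset ι} {N : ℕ} {φ : (ι → V) → X} (h1 : Chp F s N φ) :
    Chp F s N (-φ) := by
  obtain ⟨r, hr, I, a, h, hI, hs, ha, hh, hφ⟩ := h1
  refine ⟨r, hr, I, fun l => -(a l), h, hI, hs, fun l => MD_neg (ha l), hh, fun x => ?_⟩
  simp only [Pi.neg_apply, hφ, neg_smul, Finset.sum_neg_distrib]

theorem Chp_add {s : Finset ι} {N M : ℕ} {φ ψ : (ι → V) → X} (h1 : Chp F s N φ)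
    (h2 : Chp F s M ψ) : Chp F s (N + M) (φ + ψ) := by
  obtain ⟨r, hr, I, a, h, hI, hs, ha, hh, hφ⟩ := h1
  obtain ⟨r', hr', I', a', h', hI', hs', ha', hh', hφ'⟩ := h2
  refine ⟨r + r', add_le_add hr hr', Fin.append I I', Fin.append a a', Fin.append h h',
    fun l => ?_, fun l => ?_, fun l => ?_, fun l => ?_, fun x => ?_⟩
  · refine Fin.addCases (fun l => ?_) (fun l => ?_) l
    · simpa using hI l
    · simpa using hI' l
  · refine Fin.addCases (fun l => ?_) (fun l => ?_) l
    · simpa using hs l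
    · simpa using hs' l
  · refine Fin.addCases (fun l => ?_) (fun l => ?_) l
    · simpa using ha l
    · simpa using ha' l
  · refine Fin.addCases (fun l => ?_) (fun l => ?_) l
    · simpa using hh l
    · simpa using hh' l
  · rw [Fin.sum_univ_add]
    simp only [Fin.append_left, Fin.append_right, Pi.add_apply, hφ, hφ']

/-- a multilinear map applied to cheap data in slot `k` -/
theorem Chp_ml {m : ℕ} (f : ML F m X Y) {σ : Fin m → Finset ι}
    (hσ : ∀ i k, i ≠ k → Disjoint (σ i) (σ k)) {y : Fin m → (ι → V) → X}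
    (hy : ∀ i, MD F (σ i) (y i)) (k : Fin m) {z : (ι → V) → X} {N : ℕ}
    (hz : Chp F (σ k) N z) :
    Chp F (Finset.univ.biUnion σ) N (fun θ => f (Function.update (fun i => y i θ) k (z θ))) := by
  obtain ⟨r, hr, I, a, h, hI, hs, ha, hh, hφ⟩ := hz
  refine ⟨r, hr, I, a, fun l θ => f (Function.update (fun i => y i θ) k (h l θ)), hI,
    fun l => (hs l).trans (Finset.subset_biUnion_of_mem σ (Finset.mem_univ k)), ha,
    fun l => ?_, fun x => ?_⟩
  · have h1 := MD_ml f (σ := Function.update σ k (σ k \ I l)) (y := Function.update y k (h l))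
      (fun i j hij => ?_) (fun i => ?_)
    · have e1 : Finset.univ.biUnion (Function.update σ k (σ k \ I l)) =
          Finset.univ.biUnion σ \ I l := by
        ext x
        simp only [Finset.mem_biUnion, Finset.mem_univ, true_and, Finset.mem_sdiff]
        constructor
        · rintro ⟨i, hi⟩
          rcases eq_or_ne i k with rfl | hik
          · rw [Function.update_self, Finset.mem_sdiff] at hi
            exact ⟨⟨_, hi.1⟩, hi.2⟩
          · rw [Function.update_of_ne hik] at hi
            exact ⟨⟨i, hi⟩, fun hx => (Finset.disjoint_left.1 (hσ i k hik) hi) (hs l hx)⟩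
        · rintro ⟨⟨i, hi⟩, hx⟩
          rcases eq_or_ne i k with rfl | hik
          · exact ⟨i, by rw [Function.update_self, Finset.mem_sdiff]; exact ⟨hi, hx⟩⟩
          · exact ⟨i, by rw [Function.update_of_ne hik]; exact hi⟩
      rw [e1] at h1
      convert h1 using 3 with θ
      funext i
      rcases eq_or_ne i k with rfl | hik
      · simp
      · simp [hik]
    · have h2 : ∀ i, Function.update σ k (σ k \ I l) i ⊆ σ i := by
        intro i
        rcases eq_or_ne i k with rfl | hik
        · rw [Function.update_self]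
          exact Finset.sdiff_subset
        · rw [Function.update_of_ne hik]
      exact Finset.disjoint_of_subset_left (h2 i) (Finset.disjoint_of_subset_right (h2 j)
        (hσ i j hij))
    · rcases eq_or_ne i k with rfl | hik
      · simpa using hh l
      · simpa [hik] using hy i
  · simp only [hφ, MultilinearMap.map_update_sum, f.map_update_smul]

/-- the base system -/
def Sb (F : Type) [Field F] {ι V : Type} [DecidableEq ι] [AddCommGroup V] [Module F V]
    (X : Type) [AddCommGroup X] [Module F X] : Rl ι V X := fun s N φ ψ =>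
  MD F s φ ∧ MD F s ψ ∧ Chp F s N (φ - ψ)

theorem Sb_self {s : Finset ι} {N : ℕ} {φ : (ι → V) → X} (h : MD F s φ) :
    Sb F X s N φ φ := ⟨h, h, by rw [sub_self]; exact Chp_zero _ _⟩

theorem Sb_ax : Ax (Sb F X : Rl ι V X) where
  zero s := Sb_self (MD_zero s)
  add s N M φ ψ φ' ψ' h1 h2 := ⟨MD_add h1.1 h2.1, MD_add h1.2.1 h2.2.1, by
    rw [add_sub_add_comm]
    exact Chp_add h1.2.2 h2.2.2⟩
  neg s N φ ψ h1 := ⟨MD_neg h1.1, MD_neg h1.2.1, by
    rw [show -φ - -ψ = -(φ - ψ) by abel]
    exact Chp_neg h1.2.2⟩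
  mono s N M φ ψ hN h1 := ⟨h1.1, h1.2.1, Chp_mono hN h1.2.2⟩

theorem Sb_GR {m : ℕ} (f : ML F m X Y) :
    GR (Sb F X : Rl ι V X) (Sb F Y) ∅ m 0 (fun _ => f) (fun _ => f) := by
  intro N _ σ hσ y y' hy
  refine ⟨MD_ml f hσ.2 fun i => (hy i).1, MD_ml f hσ.2 fun i => (hy i).2.1, ?_⟩
  have key : ∀ T : Finset (Fin m), Chp F (Finset.univ.biUnion σ) (T.card * N)
      (fun θ => f (fun i => y i θ) - f (fun i => if i ∈ T then y' i θ else y i θ)) := by
    intro T
    induction T using Finset.induction_on with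
    | empty =>
      convert Chp_zero (F := F) (Finset.univ.biUnion σ) ((∅ : Finset (Fin m)).card * N) using 1
      funext θ
      simp
    | insert k T hk ih =>
      rw [Finset.card_insert_of_notMem hk, show (T.card + 1) * N = T.card * N + N by ring]
      have h1 := Chp_ml f hσ.2 (y := fun i => if i ∈ T then y' i else y i) (fun i => by
        split_ifs
        · exact (hy i).2.1
        · exact (hy i).1) k (hy k).2.2
      convert Chp_add ih h1 using 1
      funext θ
      have e1 : (fun i => if i ∈ insert k T then y' i θ else y i θ) =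
          Function.update (fun i => if i ∈ T then y' i θ else y i θ) k (y' k θ) := by
        funext i
        rcases eq_or_ne i k with rfl | hik
        · simp
        · simp [hik]
      have e2 : (fun i => if i ∈ T then y' i θ else y i θ) =
          Function.update (fun i => if i ∈ T then y' i θ else y i θ) k (y k θ) := by
        funext i
        rcases eq_or_ne i k with rfl | hik
        · simp [hk]
        · simp [hik]
      have e3 : (fun i => (if i ∈ T then y' i else y i) θ) =
          (fun i => if i ∈ T then y' i θ else y i θ) := by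
        funext i
        split_ifs <;> rfl
      simp only [Pi.add_apply, Pi.sub_apply]
      rw [e3, e1, MultilinearMap.map_update_sub, ← e2]
      abel
  have h := key Finset.univ
  rw [Finset.card_univ, Fintype.card_fin] at h
  convert h using 1
  funext θ
  simp

theorem Sb_RR (R : X →ₗ[F] Y) (κ : ℕ) (hR : finrank F (LinearMap.range R) ≤ κ)
    [FiniteDimensional F Y] :
    RR (Sb F Y : Rl ι V Y) (Sb F X) ∅ κ (fun _ => R) := by
  intro s _ y hy
  have h1 : MD F s (fun θ => R (y θ)) := MD_comp hy.1 R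
  refine ⟨Sb_self h1, fun hs => ⟨h1, MD_zero _, ?_⟩⟩
  rw [sub_zero]
  set b := Module.finBasis F (LinearMap.range R)
  refine ⟨_, hR, fun _ => s, fun l θ => b.coord l (R.rangeRestrict (y θ)),
    fun l _ => (b l : Y), fun _ => hs, fun _ => Finset.Subset.refl _, fun l => ?_, fun l => ?_,
    fun x => ?_⟩
  · exact MD_comp hy.1 (b.coord l ∘ₗ R.rangeRestrict)
  · rw [Finset.sdiff_self]
    exact MD_const _
  · have h2 := b.sum_repr (R.rangeRestrict (y x))
    have h3 := congrArg (Submodule.subtype _) h2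
    rw [map_sum] at h3
    simp only [map_smul] at h3
    exact h3.symm

end Base

end Alg

theorem alg : S_alg := by
  intro n
  refine ⟨Alg.Cf n n, ?_⟩
  intro F _ V W _ _ _ _ _ _ f p R κ hR
  have key := Alg.main (F := F) (ι := Fin n) (V := V) (Alg.Sb F W) n n V W (Alg.Sb F V)
    (Alg.Sb F W) Alg.Sb_ax Alg.Sb_ax ∅ id Function.injective_id (by simp) (fun _ => f)
    (fun _ => f) p (fun i _ => R i) (fun i θ => θ i) (fun i θ => θ i) LinearMap.id κ
    (Alg.Sb_GR f) (fun N _ => Alg.Sb_GR f N (Nat.zero_le _))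
    (fun i => Alg.Sb_self (Alg.MD_const _)) (fun i => Alg.Sb_RR (R i) κ (hR i))
    (fun i => Alg.Sb_self (Alg.MD_proj i)) (fun i => Alg.Sb_self (Alg.MD_proj i))
    (fun s M φ ψ _ h => by rw [Finset.union_empty]; exact h)
  have e1 : (Finset.univ.image id ∪ ∅ : Finset (Fin n)) = Finset.univ := by simp
  rw [e1] at key
  obtain ⟨h1, -, r, hr, I, a, h, hI, -, ha, hh, hφ⟩ := key
  refine ⟨{ toFun := fun t => lastE n V W f p R t LinearMap.id
            map_update_add' := ?_
            map_update_smul' := ?_ }, fun t => rfl, r, hr, I, fun l => -(a l), h, hI,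
            fun l => Alg.MD_neg (ha l), fun l => ?_, fun x => ?_⟩
  · intro inst x i v w
    have := h1.1 i (Finset.mem_univ _) x v w
    rw [Subsingleton.elim inst (instDecidableEqFin n)]
    exact this
  · intro inst x i c v
    have := h1.2.1 i (Finset.mem_univ _) x c v
    rw [Subsingleton.elim inst (instDecidableEqFin n)]
    exact this
  · rw [Finset.compl_eq_univ_sdiff]
    exact hh l
  · have := hφ x
    simp only [Pi.neg_apply, neg_smul, Finset.sum_neg_distrib, ← this]
    simp [Pi.sub_apply]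

end Run7.h130
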