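import Pool.Agent.Run7.h130.Iface

/-! # Character sums count zeros -/

set_option autoImplicit false

namespace Run7.h130

open Module

open Classical in
/-- the inner sum -/
theorem char_inner {F : Type} [Field F] [Fintype F] {n : ℕ} (ψ : AddChar F ℂ) (hψ : ψ ≠ 1)
    (g : Module.Dual F (Fin n → F)) :
    ∑ y : Fin n → F, ψ (g y) = if g = 0 then (Fintype.card F : ℂ) ^ n else 0 := by
  split_ifs with hg
  · subst hg
    simp
  · obtain ⟨y0, hy0⟩ : ∃ y, g y ≠ 0 := by
      by_contra hcon
      push Not at hcon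
      exact hg (LinearMap.ext hcon)
    obtain ⟨a, ha⟩ : ∃ a, ψ a ≠ 1 := by
      by_contra hcon
      push Not at hcon
      apply hψ
      ext a
      rw [hcon a]
      rfl
    -- shift by z with g z = a
    set z : Fin n → F := (a * (g y0)⁻¹) • y0 with hz
    have hgz : g z = a := by
      rw [hz, map_smul, smul_eq_mul, mul_assoc, inv_mul_cancel₀ hy0, mul_one]
    have h1 : ∑ y : Fin n → F, ψ (g y) = ∑ y : Fin n → F, ψ (g (y + z)) :=
      (Equiv.sum_comp (Equiv.addRight z) fun y => ψ (g y)).symm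
    have h2 : ∑ y : Fin n → F, ψ (g (y + z)) = ψ a * ∑ y : Fin n → F, ψ (g y) := by
      rw [Finset.mul_sum]
      refine Finset.sum_congr rfl fun y _ => ?_
      rw [map_add, hgz, AddChar.map_add_eq_mul, mul_comm]
    rw [h2] at h1
    have h3 : (1 - ψ a) * ∑ y : Fin n → F, ψ (g y) = 0 := by
      rw [sub_mul, one_mul, ← h1, sub_self]
    rcases mul_eq_zero.1 h3 with h | h
    · exact absurd (sub_eq_zero.1 h).symm ha
    · exact h

theorem char : S_char := by
  intro F _ _ e n T f hf ψ hψ
  classical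
  have h1 : ∑ x : Fin (e + 1) × Fin n → F, ψ (T (fun i j => x (i, j))) =
      ∑ x : Fin (e + 1) → Fin n → F, ψ (T x) := by
    rw [← Equiv.sum_comp (Equiv.curry (Fin (e + 1)) (Fin n) F)]
    rfl
  have h2 : ∑ x : Fin (e + 1) → Fin n → F, ψ (T x) =
      ∑ p : (Fin n → F) × (Fin e → Fin n → F), ψ (f p.2 p.1) := by
    rw [← Equiv.sum_comp (Fin.snocEquiv (fun _ => Fin n → F))]
    refine Finset.sum_congr rfl fun p _ => ?_
    rw [hf]
    rfl
  rw [h1, h2, Fintype.sum_prod_type_right]
  simp only [char_inner ψ hψ]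
  rw [Finset.sum_ite, Finset.sum_const_zero, add_zero, Finset.sum_const, nsmul_eq_mul]
  congr 2
  rw [Zc, Nat.card_eq_fintype_card, Fintype.card_subtype]

end Run7.h130
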