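import Pool.Agent.Run7.h130.Iface

/-!
# Positive correlation (P9a) and zero counts under field extension (P9b)
-/

set_option autoImplicit false

namespace Run7.h130

open Module

namespace CorrAux

variable {ι A : Type} [Fintype ι] [DecidableEq ι] [AddCommGroup A] [Finite A]

/-- the number of `x ∈ S` with `x + z ∈ T` -/
noncomputable def cnt (S T : Set (ι → A)) (z : ι → A) : ℕ :=
  Nat.card {x : ι → A // x ∈ S ∧ x + z ∈ T}

theorem cnt_step (S T : Set (ι → A)) (hS : MultiSub S) (hT : MultiSub T) (z : ι → A) (i : ι) :
    cnt S T z ≤ cnt S T (Function.update z i 0) := by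
  classical
  unfold cnt
  -- choice of a base point on each line in direction `i`
  let P : (ι → A) → A → Prop := fun x a =>
    Function.update x i a ∈ S ∧ Function.update x i a + z ∈ T
  let a0 : (ι → A) → A := fun x => Classical.epsilon (P x)
  have hP : ∀ x y : ι → A, (∀ j, j ≠ i → x j = y j) → P x = P y := by
    intro x y h
    have h1 : ∀ a, Function.update x i a = Function.update y i a := by
      intro a
      funext j
      by_cases hj : j = i
      · subst hj; simp
      · simp [hj, h j hj]
    funext a
    simp only [P, h1]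
  have hup : ∀ (x : ι → A) (a : A), Function.update x i a + z =
      Function.update (x + z) i (a + z i) := by
    intro x a
    funext j
    by_cases hj : j = i
    · subst hj; simp
    · simp [hj]
  have hup0 : ∀ (x : ι → A) (a : A), Function.update x i a + Function.update z i 0 =
      Function.update (x + z) i a := by
    intro x a
    funext j
    by_cases hj : j = i
    · subst hj; simp
    · simp [hj]
  have hspec : ∀ x : ι → A, x ∈ S → x + z ∈ T → P x (a0 x) := by
    intro x hx hxz
    apply Classical.epsilon_spec (p := P x)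
    exact ⟨x i, by simpa [P] using ⟨hx, hxz⟩⟩
  have hmem : ∀ x : ι → A, x ∈ S → x + z ∈ T →
      Function.update x i (x i - a0 x) ∈ S ∧
      Function.update x i (x i - a0 x) + Function.update z i 0 ∈ T := by
    intro x hx hxz
    obtain ⟨h1, h2⟩ := hspec x hx hxz
    refine ⟨hS x i (x i) (a0 x) (by simpa using hx) h1, ?_⟩
    rw [hup0]
    have h3 := hT (x + z) i (x i + z i) (a0 x + z i) (by
      have : Function.update (x + z) i (x i + z i) = x + z := by
        rw [← Pi.add_apply, Function.update_eq_self]
      rw [this]; exact hxz) (by rw [← hup]; exact h2)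
    have h4 : x i + z i - (a0 x + z i) = x i - a0 x := by abel
    rwa [h4] at h3
  let φ : {x : ι → A // x ∈ S ∧ x + z ∈ T} →
      {x : ι → A // x ∈ S ∧ x + Function.update z i 0 ∈ T} := fun x =>
    ⟨Function.update x.1 i (x.1 i - a0 x.1), hmem x.1 x.2.1 x.2.2⟩
  apply Nat.card_le_card_of_injective φ
  intro x y hxy
  have h1 : Function.update x.1 i (x.1 i - a0 x.1) = Function.update y.1 i (y.1 i - a0 y.1) :=
    congrArg Subtype.val hxy
  have h2 : ∀ j, j ≠ i → x.1 j = y.1 j := by
    intro j hj
    have := congrFun h1 j
    simpa [hj] using this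
  have h3 : a0 x.1 = a0 y.1 := by
    simp only [a0]
    rw [hP x.1 y.1 h2]
  have h4 := congrFun h1 i
  simp only [Function.update_self, h3, sub_left_inj] at h4
  apply Subtype.ext
  funext j
  by_cases hj : j = i
  · subst hj; exact h4
  · exact h2 j hj

theorem cnt_le (S T : Set (ι → A)) (hS : MultiSub S) (hT : MultiSub T) (z : ι → A) :
    cnt S T z ≤ cnt S T 0 := by
  classical
  have key : ∀ s : Finset ι, cnt S T z ≤ cnt S T (fun i => if i ∈ s then 0 else z i) := by
    intro s
    induction s using Finset.induction_on with
    | empty => simp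
    | insert a s ha ih =>
      refine ih.trans ?_
      have h1 := cnt_step S T hS hT (fun i => if i ∈ s then 0 else z i) a
      have h2 : Function.update (fun i => if i ∈ s then 0 else z i) a 0 =
          fun i => if i ∈ insert a s then 0 else z i := by
        funext j
        by_cases hj : j = a
        · subst hj; simp
        · simp [hj]
      rwa [h2] at h1
  have h := key Finset.univ
  have h0 : (fun i : ι => if i ∈ (Finset.univ : Finset ι) then 0 else z i) = 0 := by
    funext i; simp
  rwa [h0] at h

end CorrAux

open CorrAux in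
theorem corr : S_corr := by
  intro ι A _ _ _ _ S T hS hT
  classical
  have : Fintype A := Fintype.ofFinite A
  have e : (S × T) ≃ (Σ z : ι → A, {x : ι → A // x ∈ S ∧ x + z ∈ T}) :=
    { toFun := fun p => ⟨p.2.1 - p.1.1, p.1.1, p.1.2, by simp⟩
      invFun := fun p => (⟨p.2.1, p.2.2.1⟩, ⟨p.2.1 + p.1, p.2.2.2⟩)
      left_inv := by
        rintro ⟨⟨x, hx⟩, ⟨y, hy⟩⟩
        simp
      right_inv := by
        rintro ⟨z, x, hx, hy⟩
        simp only [Sigma.mk.injEq]
        constructor
        · abel
        · have hz : x + z - x = z := by abel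
          have : ∀ z' : ι → A, z' = z → ∀ (h' : x ∈ S ∧ x + z' ∈ T),
            HEq (⟨x, h'⟩ : {x : ι → A // x ∈ S ∧ x + z' ∈ T})
              (⟨x, hx, hy⟩ : {x : ι → A // x ∈ S ∧ x + z ∈ T}) := by
            rintro z' rfl h'
            rfl
          exact this _ hz _ }
  have h1 : Nat.card S * Nat.card T = ∑ z : ι → A, cnt S T z := by
    rw [← Nat.card_prod, Nat.card_congr e, Nat.card_sigma]
    rfl
  rw [h1]
  have h2 : ∑ z : ι → A, cnt S T z ≤ ∑ _z : ι → A, cnt S T 0 :=
    Finset.sum_le_sum fun z _ => cnt_le S T hS hT z
  refine h2.trans ?_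
  rw [Finset.sum_const, Finset.card_univ, smul_eq_mul, Fintype.card_fun, mul_comm]
  apply le_of_eq
  rw [Nat.card_eq_fintype_card (α := A)]
  congr 1
  unfold cnt
  apply Nat.card_congr
  exact Equiv.subtypeEquivRight (by intro x; simp)

end Run7.h130
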