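import Pool.Agent.Run7.h130.Iface
import Pool.Agent.Run7.h130.GoodB

/-!
# Piece `count` : counting tangent vectors with vanishing residual (`S_count`)
-/

set_option autoImplicit false

namespace Run7.h130

open Module

section CountAux

variable {F : Type} [Field F] {E W : Type} [AddCommGroup E] [Module F E]
  [AddCommGroup W] [Module F W]

/-- `t ↦ (t, -R M t)` on `{t ∈ T : M t ∈ H}` -/
def Tn (T : Submodule F E) (H : Submodule F W) (R : W →ₗ[F] E) (M : E →ₗ[F] W) :
    Submodule F (E × E) :=
  (T ⊓ H.comap M).map (LinearMap.prod LinearMap.id (-(R ∘ₗ M)))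

theorem mem_Tn {T : Submodule F E} {H : Submodule F W} {R : W →ₗ[F] E} {M : E →ₗ[F] W}
    {z : E × E} : z ∈ Tn T H R M ↔ z.1 ∈ T ∧ M z.1 ∈ H ∧ z.2 = -(R (M z.1)) := by
  unfold Tn
  simp only [Submodule.mem_map, Submodule.mem_inf, Submodule.mem_comap, LinearMap.prod_apply,
    Function.prod_apply, LinearMap.id_apply, LinearMap.neg_apply, LinearMap.comp_apply]
  constructor
  · rintro ⟨y, ⟨h1, h2⟩, rfl⟩
    exact ⟨h1, h2, rfl⟩
  · rintro ⟨h1, h2, h3⟩
    refine ⟨z.1, ⟨h1, h2⟩, ?_⟩
    ext
    · rfl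
    · exact h3.symm

theorem finrank_Tn [FiniteDimensional F E] (T : Submodule F E) (H : Submodule F W)
    (R : W →ₗ[F] E) (M : E →ₗ[F] W) :
    finrank F (Tn T H R M) = finrank F (T ⊓ H.comap M : Submodule F E) := by
  unfold Tn
  apply fr_map_inj
  intro x y h
  have := congrArg Prod.fst h
  simpa using this

/-- codimension bound for `{t ∈ T : M t ∈ H}` -/
theorem codim_T [FiniteDimensional F E] [FiniteDimensional F W] (L M : E →ₗ[F] W)
    (T : Submodule F E) (hT : T ≤ LinearMap.ker L) (H : Submodule F W)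
    (hH : H ≤ LinearMap.range L) {k θ : ℕ} (h1 : rk (dlin L M) ≤ 2 * k + θ)
    (h2 : k ≤ finrank F H) :
    finrank F T ≤ finrank F (T ⊓ H.comap M : Submodule F E) + θ := by
  -- map `T` to `W ⧸ H`
  have h3 := fr_map (H.mkQ ∘ₗ M) T
  have h4 : LinearMap.ker (H.mkQ ∘ₗ M) = H.comap M := by
    rw [LinearMap.ker_comp, Submodule.ker_mkQ]
  rw [h4] at h3
  have h5 : T.map (H.mkQ ∘ₗ M) = (LinearMap.range L ⊔ T.map M : Submodule F W).map H.mkQ ⊓
      T.map (H.mkQ ∘ₗ M) := by
    rw [eq_comm, inf_eq_right, Submodule.map_comp]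
    exact Submodule.map_mono le_sup_right
  have h6 : finrank F (T.map (H.mkQ ∘ₗ M)) ≤
      finrank F ((LinearMap.range L ⊔ T.map M : Submodule F W).map H.mkQ) := by
    apply Submodule.finrank_mono
    rw [h5]
    exact inf_le_left
  have h7 := fr_map H.mkQ (LinearMap.range L ⊔ T.map M : Submodule F W)
  have h8 : (LinearMap.range L ⊔ T.map M : Submodule F W) ⊓ LinearMap.ker H.mkQ = H := by
    rw [Submodule.ker_mkQ, inf_eq_right]
    exact hH.trans le_sup_left
  rw [h8] at h7
  have h9 := rk_dlin_ge' L M T hT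
  have h10 : finrank F H ≤ rk L := Submodule.finrank_mono hH
  omega

theorem ker_LR_le (L : E →ₗ[F] W) (R : W →ₗ[F] E) :
    LinearMap.ker (L ∘ₗ R - LinearMap.id) ≤ LinearMap.range L := by
  intro w hw
  rw [LinearMap.mem_ker, LinearMap.sub_apply, sub_eq_zero] at hw
  exact ⟨R w, hw⟩

/-- the fixed space of `L' R'` has at least twice the dimension -/
theorem finrank_Rnext [FiniteDimensional F W] (L : E →ₗ[F] W) (R : W →ₗ[F] E)
    (M : E →ₗ[F] W) :
    2 * finrank F (LinearMap.ker (L ∘ₗ R - LinearMap.id)) ≤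
      finrank F (LinearMap.ker (dlin L M ∘ₗ Rnext R M - LinearMap.id)) := by
  set H := LinearMap.ker (L ∘ₗ R - LinearMap.id) with hHdef
  have hH : ∀ w ∈ H, L (R w) = w := by
    intro w hw
    rw [hHdef, LinearMap.mem_ker, LinearMap.sub_apply, sub_eq_zero] at hw
    exact hw
  have h1 : (H.prod H).map (LinearMap.prod (LinearMap.fst F W W)
      (LinearMap.snd F W W + (M ∘ₗ R) ∘ₗ LinearMap.fst F W W)) ≤
      LinearMap.ker (dlin L M ∘ₗ Rnext R M - LinearMap.id) := by
    rintro _ ⟨⟨w1, w2⟩, ⟨hw1, hw2⟩, rfl⟩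
    rw [LinearMap.mem_ker, LinearMap.sub_apply, sub_eq_zero]
    have e1 := hH w1 hw1
    have e2 := hH w2 hw2
    simp only [LinearMap.prod_apply, Function.prod_apply, LinearMap.fst_apply, LinearMap.add_apply,
      LinearMap.snd_apply, LinearMap.comp_apply, Rnext, dlin_apply, LinearMap.neg_apply,
      LinearMap.id_apply]
    ext
    · exact e1
    · simp only [map_add, map_neg, e2]
      abel
  have h2 := Submodule.finrank_mono h1
  rw [fr_map_inj] at h2
  · have h3 : finrank F (↥H × ↥H) ≤ finrank F (H.prod H : Submodule F (W × W)) := by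
      refine LinearMap.finrank_le_finrank_of_injective
        (f := (LinearMap.prodMap H.subtype H.subtype).codRestrict (H.prod H)
          (fun x => ⟨x.1.2, x.2.2⟩)) ?_
      rintro ⟨a, b⟩ ⟨c, d⟩ h
      have h' := congrArg Subtype.val h
      have e1 := congrArg Prod.fst h'
      have e2 := congrArg Prod.snd h'
      exact Prod.ext (Subtype.ext e1) (Subtype.ext e2)
    rw [finrank_prod] at h3
    omega
  · rintro ⟨a, b⟩ ⟨c, d⟩ h
    have e1 := congrArg Prod.fst h
    have e2 := congrArg Prod.snd h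
    simp only [LinearMap.prod_apply, Function.prod_apply, LinearMap.fst_apply, LinearMap.add_apply,
      LinearMap.snd_apply, LinearMap.comp_apply] at e1 e2
    subst e1
    simpa using e2

end CountAux

theorem lastE_cons {F : Type} [Field F] {W₀ : Type} [AddCommGroup W₀] [Module F W₀] {m : ℕ}
    {E W : Type} [AddCommGroup E] [Module F E] [AddCommGroup W] [Module F W]
    (G : ML F (m + 1) E W) (p : Fin (m + 1) → E) (R : Fin (m + 1) → (W →ₗ[F] E)) (t₀ : E)
    (t : Fin m → E) (lam : W →ₗ[F] W₀) :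
    lastE (m + 1) E W G p R (Fin.cons t₀ t) lam =
      lastE m (E × E) (W × W) (dl (app G (p 0)) (app G t₀)) (hat (Fin.tail p))
        (fun i => Rnext (R i.succ) (Lm (app G t₀) (Fin.tail p) i))
        (fun i => (t i, -(R i.succ (Lm (app G t₀) (Fin.tail p) i (t i)))))
        (lam ∘ₗ LinearMap.snd F W W) := rfl

theorem count : S_count := by
  intro n
  induction n with
  | zero =>
    refine ⟨0, ?_⟩
    intro F _ _ E W W₀ _ _ _ _ _ _ _ _ θ G p k R T lam hG hGp hk hT
    simp only [Finset.univ_eq_empty, Finset.prod_empty, Nat.zero_mul, pow_zero, mul_one]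
    have : Nonempty {t : Fin 0 → E // (∀ i, t i ∈ T i) ∧ lastE 0 E W G p R t lam = 0} :=
      ⟨⟨p, fun i => i.elim0, by
        show lam (G p) = 0
        rw [hGp, map_zero]⟩⟩
    exact Nat.card_pos
  | succ n ih =>
    obtain ⟨C, hC⟩ := ih
    refine ⟨1 + n + C, ?_⟩
    intro F _ _ E W W₀ _ _ _ _ _ _ _ _ θ G p k R T lam hG hGp hk hT
    classical
    have hFE : FiniteDimensional F E := Module.Finite.of_finite
    have hWfin : Finite W := Module.finite_of_finite F
    obtain ⟨h1, Ξ, h2, h3, h4⟩ := hG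
    set q := Nat.card F with hq
    have hq1 : 0 < q := Nat.card_pos
    -- abbreviations
    set M : E → Fin n → (E →ₗ[F] W) := fun t₀ i => Lm (app G t₀) (Fin.tail p) i with hM
    set H : Fin n → Submodule F W := fun i =>
      LinearMap.ker (Lm G p i.succ ∘ₗ R i.succ - LinearMap.id) with hH
    have hLs : ∀ i : Fin n, Lm (app G (p 0)) (Fin.tail p) i = Lm G p i.succ :=
      fun i => (Lm_succ G p i).symm
    -- the induction hypothesis at `t₀`
    have key : ∀ t₀ ∈ (T 0 ⊓ Ξ : Submodule F E),
        ∏ i : Fin n, Nat.card (T i.succ) ≤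
          Nat.card {t' : Fin n → E × E // (∀ i, t' i ∈ Tn (T i.succ) (H i) (R i.succ) (M t₀ i)) ∧
            lastE n (E × E) (W × W) (dl (app G (p 0)) (app G t₀)) (hat (Fin.tail p))
              (fun i => Rnext (R i.succ) (M t₀ i)) t' (lam ∘ₗ LinearMap.snd F W W) = 0} *
          q ^ ((n + C) * θ) := by
      rintro t₀ ⟨ht0, htΞ⟩
      have hgood := h4 t₀ htΞ
      have hzero : dl (app G (p 0)) (app G t₀) (hat (Fin.tail p)) = 0 := by
        rw [dl_hat]
        have e1 : app G (p 0) (Fin.tail p) = 0 := by rw [← apply_eq_app]; exact hGp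
        have e2 : app G t₀ (Fin.tail p) = 0 := by
          rw [← Lm_zero]
          exact hT 0 ht0
        rw [e1, e2]
        rfl
      have hLm : ∀ i, Lm (dl (app G (p 0)) (app G t₀)) (hat (Fin.tail p)) i =
          dlin (Lm G p i.succ) (M t₀ i) := by
        intro i
        rw [Lm_dl_hat, hLs]
      have hall := Good_all n _ _ _ _ _ hgood
      have hrk : ∀ i, rk (dlin (Lm G p i.succ) (M t₀ i)) ≤ 2 * k i.succ + θ := by
        intro i
        have := hall i
        unfold kap at this
        rw [hLm] at this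
        exact this
      have h5 := hC F (E × E) (W × W) W₀ θ (dl (app G (p 0)) (app G t₀)) (hat (Fin.tail p))
        (fun i => 2 * k i.succ) (fun i => Rnext (R i.succ) (M t₀ i))
        (fun i => Tn (T i.succ) (H i) (R i.succ) (M t₀ i)) (lam ∘ₗ LinearMap.snd F W W)
        hgood hzero ?_ ?_
      · have h6 : ∀ i : Fin n, Nat.card (T i.succ) ≤
            Nat.card (Tn (T i.succ) (H i) (R i.succ) (M t₀ i)) * q ^ θ := by
          intro i
          rw [Module.natCard_eq_pow_finrank (K := F) (V := T i.succ),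
            Module.natCard_eq_pow_finrank (K := F) (V := Tn (T i.succ) (H i) (R i.succ) (M t₀ i)),
            ← pow_add, finrank_Tn]
          apply Nat.pow_le_pow_right hq1
          exact codim_T (Lm G p i.succ) (M t₀ i) (T i.succ) (hT i.succ) (H i)
            (ker_LR_le _ _) (hrk i) (hk i.succ)
        calc ∏ i : Fin n, Nat.card (T i.succ)
            ≤ ∏ i : Fin n, (Nat.card (Tn (T i.succ) (H i) (R i.succ) (M t₀ i)) * q ^ θ) :=
              Finset.prod_le_prod' fun i _ => h6 i
          _ = (∏ i : Fin n, Nat.card (Tn (T i.succ) (H i) (R i.succ) (M t₀ i))) * q ^ (n * θ) := by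
              rw [Finset.prod_mul_distrib, Finset.prod_const, Finset.card_univ, Fintype.card_fin,
                ← pow_mul, mul_comm θ n]
          _ ≤ _ := by
              refine (Nat.mul_le_mul_right _ h5).trans (le_of_eq ?_)
              rw [mul_assoc, ← pow_add]
              congr 2
              ring
      · intro i
        show 2 * k i.succ ≤ _
        rw [hLm]
        refine le_trans ?_ (finrank_Rnext (Lm G p i.succ) (R i.succ) (M t₀ i))
        exact Nat.mul_le_mul_left 2 (hk i.succ)
      · rintro i ⟨x, y⟩ hz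
        rw [mem_Tn] at hz
        obtain ⟨hx, hMx, hy⟩ := hz
        simp only at hx hMx hy
        rw [hLm, LinearMap.mem_ker, dlin_apply]
        have e1 : Lm G p i.succ x = 0 := hT i.succ hx
        have e2 : Lm G p i.succ (R i.succ (M t₀ i x)) = M t₀ i x := by
          have := hMx
          simp only [hH, LinearMap.mem_ker, LinearMap.sub_apply, sub_eq_zero] at this
          exact this
        rw [e1, hy, map_neg, e2]
        simp
    -- the codimension of `T 0 ⊓ Ξ`
    have hcod : finrank F (T 0) ≤ finrank F (T 0 ⊓ Ξ : Submodule F E) + θ := by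
      have e1 := Submodule.finrank_sup_add_finrank_inf_eq (T 0) Ξ
      have e2 : finrank F (T 0 ⊔ Ξ : Submodule F E) ≤ finrank F (LinearMap.ker (Lm G p 0)) :=
        Submodule.finrank_mono (sup_le (hT 0) h2)
      omega
    have hT0 : Nat.card (T 0) ≤ Nat.card (T 0 ⊓ Ξ : Submodule F E) * q ^ θ := by
      rw [Module.natCard_eq_pow_finrank (K := F) (V := T 0),
        Module.natCard_eq_pow_finrank (K := F) (V := (T 0 ⊓ Ξ : Submodule F E)), ← pow_add]
      exact Nat.pow_le_pow_right hq1 hcod
    -- the injection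
    let X := {t : Fin (n + 1) → E // (∀ i, t i ∈ T i) ∧ lastE (n + 1) E W G p R t lam = 0}
    let Y : (T 0 ⊓ Ξ : Submodule F E) → Type := fun t₀ =>
      {t' : Fin n → E × E // (∀ i, t' i ∈ Tn (T i.succ) (H i) (R i.succ) (M t₀ i)) ∧
            lastE n (E × E) (W × W) (dl (app G (p 0)) (app G t₀)) (hat (Fin.tail p))
              (fun i => Rnext (R i.succ) (M t₀ i)) t' (lam ∘ₗ LinearMap.snd F W W) = 0}
    have hinj : Nat.card (Σ t₀, Y t₀) ≤ Nat.card X := by
      refine Nat.card_le_card_of_injective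
        (fun z => (⟨Fin.cons (z.1 : E) (fun i => (z.2.1 i).1), ?_, ?_⟩ : X)) ?_
      · intro i
        refine Fin.cases ?_ (fun i => ?_) i
        · exact z.1.2.1
        · exact (mem_Tn.mp (z.2.2.1 i)).1
      · rw [lastE_cons]
        have e : (fun i => ((z.2.1 i).1, -(R i.succ (Lm (app G (z.1 : E)) (Fin.tail p) i
            (z.2.1 i).1)))) = z.2.1 := by
          funext i
          refine Prod.ext rfl ?_
          exact (mem_Tn.mp (z.2.2.1 i)).2.2.symm
        rw [e]
        exact z.2.2.2
      · rintro ⟨t₀, t', ht'⟩ ⟨s₀, s', hs'⟩ h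
        have h' := congrArg Subtype.val h
        simp only at h'
        have e0 : t₀ = s₀ := Subtype.ext (by simpa using congrFun h' 0)
        subst e0
        have e1 : t' = s' := by
          funext i
          have e2 : (t' i).1 = (s' i).1 := by simpa using congrFun h' i.succ
          refine Prod.ext e2 ?_
          rw [(mem_Tn.mp (ht'.1 i)).2.2, (mem_Tn.mp (hs'.1 i)).2.2, e2]
        subst e1
        rfl
    rw [Fin.prod_univ_succ]
    let _ : Fintype (T 0 ⊓ Ξ : Submodule F E) := Fintype.ofFinite _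
    have hsig : Nat.card (Σ t₀, Y t₀) = ∑ t₀, Nat.card (Y t₀) := Nat.card_sigma
    calc Nat.card (T 0) * ∏ i : Fin n, Nat.card (T i.succ)
        ≤ (Nat.card (T 0 ⊓ Ξ : Submodule F E) * q ^ θ) * ∏ i : Fin n, Nat.card (T i.succ) :=
          Nat.mul_le_mul_right _ hT0
      _ = (∑ _t₀ : (T 0 ⊓ Ξ : Submodule F E), ∏ i : Fin n, Nat.card (T i.succ)) * q ^ θ := by
          rw [Finset.sum_const, Finset.card_univ, ← Nat.card_eq_fintype_card, smul_eq_mul]
          ring
      _ ≤ (∑ t₀ : (T 0 ⊓ Ξ : Submodule F E), Nat.card (Y t₀) * q ^ ((n + C) * θ)) * q ^ θ := by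
          apply Nat.mul_le_mul_right
          exact Finset.sum_le_sum fun t₀ _ => key t₀ t₀.2
      _ = Nat.card (Σ t₀, Y t₀) * q ^ ((1 + n + C) * θ) := by
          rw [← Finset.sum_mul, ← hsig, mul_assoc, ← pow_add]
          congr 2
          ring
      _ ≤ Nat.card X * q ^ ((1 + n + C) * θ) := Nat.mul_le_mul_right _ hinj

end Run7.h130
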