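import Pool.Agent.Run7.h130.CC

/-!
# The curve lemma: `S_curve`
-/

set_option autoImplicit false

namespace Run7.h130

open Module

theorem curve_arith {m A B D x y K0 ρ T C θ : ℕ} (hm : 1 ≤ m) (hB : 1 ≤ B)
    (hD : D = 2 * B * (m + A)) (h : D * x ≤ D * y + 2 * ((m - 1) * K0 + A * ρ + T * θ))
    (hK : K0 ≤ ρ) (hT : T ≤ C) : x ≤ y + (ρ + C * θ) / B := by
  rcases Nat.lt_or_ge x y with h1 | h1
  · exact (le_of_lt h1).trans (Nat.le_add_right _ _)
  obtain ⟨z, rfl⟩ : ∃ z, x = y + z := ⟨x - y, by omega⟩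
  have h2 : z ≤ (ρ + C * θ) / B := by
    rw [Nat.le_div_iff_mul_le (by omega)]
    have h3 : D * z ≤ 2 * ((m - 1) * K0 + A * ρ + T * θ) := by
      rw [Nat.mul_add] at h
      omega
    have h4 : (m - 1) * K0 ≤ m * ρ := Nat.mul_le_mul (by omega) hK
    have h5 : T * θ ≤ (m + A) * (C * θ) := by
      have : T * θ ≤ 1 * (C * θ) := by
        rw [one_mul]
        exact Nat.mul_le_mul_right _ hT
      exact this.trans (Nat.mul_le_mul_right _ (by omega))
    have h6 : (2 * (m + A)) * (z * B) ≤ (2 * (m + A)) * (ρ + C * θ) := by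
      calc (2 * (m + A)) * (z * B) = D * z := by rw [hD]; ring
        _ ≤ 2 * ((m - 1) * K0 + A * ρ + T * θ) := h3
        _ ≤ 2 * (m * ρ + A * ρ + (m + A) * (C * θ)) := by omega
        _ = (2 * (m + A)) * (ρ + C * θ) := by ring
    exact Nat.le_of_mul_le_mul_left h6 (by omega)
  exact Nat.add_le_add_left h2 y

theorem curve_aux (n : ℕ) : ∀ m A B : ℕ, 1 ≤ m → 1 ≤ B →
    ∃ (N C : ℕ) (Ns : Fin n → ℕ), (∀ i, 2 ≤ Ns i ∧ Ns i ≤ N) ∧
    ∀ (F : Type) [Field F] (E W : Type) [AddCommGroup E] [Module F E] [FiniteDimensional F E]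
      [AddCommGroup W] [Module F W] [FiniteDimensional F W] (c : ℕ → F),
      (∀ j < N, c j ≠ 0) → Set.InjOn c (Set.Iio N) →
      ∀ (g : ℕ → ML F n E W) (p : Fin n → E) (k : ℕ → Fin n → ℕ) (K : Fin n → ℕ) (ρ θ : ℕ),
        (∀ j < N, Good θ n E W (∑ a ∈ Finset.range (m + 1), c j ^ a • g a) p (k j)) →
        (∀ i, K i ≤ kap (g m) p i) → (∀ i, K i ≤ ρ) →
        (∀ i, ∑ j ∈ Finset.range (Ns i), k j i ≤ (Ns i - 1) * K i + A * ρ) →
        Good ((ρ + C * θ) / B) n (E × E) (W × W) (dl (g m) (g (m - 1))) (hat p)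
          (fun i => 2 * K i) := by
  induction n with
  | zero =>
    intro m A B _ _
    exact ⟨0, 0, fun i => i.elim0, fun i => i.elim0, fun F _ E W _ _ _ _ _ _ c _ _ g p k K ρ θ
      _ _ _ _ => trivial⟩
  | succ n ih =>
    intro m A B hm hB
    obtain ⟨D, hD⟩ : ∃ D, D = 2 * B * (m + A) := ⟨_, rfl⟩
    have hD1 : 1 ≤ D := by
      rw [hD]
      exact Nat.mul_pos (by omega) (by omega)
    obtain ⟨N', C', Ns', hNs', H⟩ := ih (m + D) A (2 * B) (by omega) (by omega)
    obtain ⟨N, hN⟩ : ∃ N, N = max (m + D + 1) N' := ⟨_, rfl⟩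
    obtain ⟨C, hC⟩ : ∃ C, C = max (2 * (m + D) + N) C' := ⟨_, rfl⟩
    have hN1 : m + D + 1 ≤ N := by rw [hN]; exact le_max_left _ _
    have hN2 : N' ≤ N := by rw [hN]; exact le_max_right _ _
    have hC1 : 2 * (m + D) + N ≤ C := by rw [hC]; exact le_max_left _ _
    have hC2 : C' ≤ C := by rw [hC]; exact le_max_right _ _
    refine ⟨N, C, Fin.cons (m + D) Ns', ?_, ?_⟩
    · intro i
      refine Fin.cases ?_ (fun i => ?_) i
      · rw [Fin.cons_zero]
        omega
      · rw [Fin.cons_succ]
        have := hNs' i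
        omega
    intro F _ E W _ _ _ _ _ _ c hc0 hc g p k K ρ θ hgood hK hKρ hsum
    have hLm : ∀ x : F, Lm (∑ a ∈ Finset.range (m + 1), x ^ a • g a) p 0 =
        ∑ a ∈ Finset.range (m + 1), x ^ a • Lm (g a) p 0 := by
      intro x
      rw [Lm_sum]
      rfl
    have hch : ∀ j, ∃ Ξ : Submodule F E, j < N →
        (rk (∑ a ∈ Finset.range (m + 1), c j ^ a • Lm (g a) p 0) ≤ k j 0 + θ ∧
        Ξ ≤ LinearMap.ker (∑ a ∈ Finset.range (m + 1), c j ^ a • Lm (g a) p 0) ∧
        finrank F (LinearMap.ker (∑ a ∈ Finset.range (m + 1), c j ^ a • Lm (g a) p 0)) ≤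
          finrank F Ξ + θ ∧
        ∀ ξ ∈ Ξ, Good θ n (E × E) (W × W)
          (dl (app (∑ a ∈ Finset.range (m + 1), c j ^ a • g a) (p 0))
            (app (∑ a ∈ Finset.range (m + 1), c j ^ a • g a) ξ)) (hat (Fin.tail p))
          (fun i => 2 * k j i.succ)) := by
      intro j
      by_cases hj : j < N
      · obtain ⟨h1, Ξ, h2, h3, h4⟩ := hgood j hj
        rw [hLm] at h1 h2 h3
        exact ⟨Ξ, fun _ => ⟨h1, h2, h3, h4⟩⟩
      · exact ⟨⊥, fun h => absurd h hj⟩
    choose Ξ hΞ using hch
    obtain ⟨Ξ', h1, h2, h3, h4⟩ := CC F E W m D N hm hD1 hN1 c hc (fun a => Lm (g a) p 0) Ξ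
      (fun j => k j 0) (K 0) (A * ρ) θ (fun j hj => (hΞ j hj).2.1) (fun j hj => (hΞ j hj).2.2.1)
      (fun j hj => (hΞ j hj).1) (by simpa using hsum 0) (hK 0)
    refine ⟨?_, Ξ', ?_, ?_, ?_⟩
    · rw [Lm_dl_hat]
      exact curve_arith hm hB hD h4 (hKρ 0) hC1
    · rw [Lm_dl_hat]
      exact h1
    · rw [Lm_dl_hat]
      exact curve_arith hm hB hD h3 (hKρ 0) hC1
    · intro z hz
      obtain ⟨ξ₀, hξ1, hξ2, hξ3⟩ := h2 z hz
      -- truncate the curve
      set ξ : ℕ → E := fun a => if a < D + 1 then ξ₀ a else 0 with hξ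
      set ζ : ℕ → E := fun a => if a = D then p 0 else 0 with hζ
      have hξS : ξ ∈ SS F E (D + 1) := by
        intro a ha
        rw [hξ]
        dsimp only
        rw [if_neg (by omega)]
      have hζS : ζ ∈ SS F E (D + 1) := by
        intro a ha
        rw [hζ]
        dsimp only
        rw [if_neg (by omega)]
      have hξe : ∀ x : F, evc (D + 1) x ξ = ∑ a ∈ Finset.range (D + 1), x ^ a • ξ₀ a := by
        intro x
        rw [evc_apply]
        apply Finset.sum_congr rfl
        intro a ha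
        rw [hξ]
        dsimp only
        rw [if_pos (Finset.mem_range.mp ha)]
      have hζe : ∀ x : F, evc (D + 1) x ζ = x ^ D • p 0 := by
        intro x
        rw [evc_apply, Finset.sum_eq_single D]
        · rw [hζ]
          dsimp only
          rw [if_pos rfl]
        · intro b _ hb
          rw [hζ]
          dsimp only
          rw [if_neg hb, smul_zero]
        · intro h
          exact absurd (Finset.mem_range.mpr (by omega)) h
      set L : ℕ → (E →ₗ[F] ML F n E W) := fun a => app (g a) with hL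
      set g' : ℕ → ML F n (E × E) (W × W) := fun b => dl (wc m L ζ b) (wc m L ξ b) with hg'
      have hsumL : ∀ x : F, (∑ a ∈ Finset.range (m + 1), x ^ a • L a) =
          app (∑ a ∈ Finset.range (m + 1), x ^ a • g a) := by
        intro x
        rw [map_sum]
        apply Finset.sum_congr rfl
        intro a _
        rw [map_smul]
      have hg'sum : ∀ x : F, ∑ b ∈ Finset.range (m + D + 1), x ^ b • g' b =
          dl (app (∑ a ∈ Finset.range (m + 1), x ^ a • g a) (x ^ D • p 0))
            (app (∑ a ∈ Finset.range (m + 1), x ^ a • g a)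
              (∑ a ∈ Finset.range (D + 1), x ^ a • ξ₀ a)) := by
        intro x
        rw [← hζe, ← hξe, ← hsumL, prod_eval m (D + 1) (D + 1) le_rfl L ζ hζS x,
          prod_eval m (D + 1) (D + 1) le_rfl L ξ hξS x, ← add_assoc, dl_sum]
        apply Finset.sum_congr rfl
        intro b _
        rw [dl_smul]
      have hfin := H F (E × E) (W × W) c (fun j hj => hc0 j (by omega))
        (hc.mono (Set.Iio_subset_Iio hN2)) g' (hat (Fin.tail p)) (fun j i => 2 * k j i.succ)
        (fun i => 2 * K i.succ) (2 * ρ) θ ?_ ?_ ?_ ?_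
      · have e1 : g' (m + D) = dl (app (g m) (p 0)) (app (g m) z.1) := by
          rw [hg']
          dsimp only
          rw [wc_top L ζ hζS, wc_top L ξ hξS]
          have : ζ D = p 0 := by simp [hζ]
          rw [this]
          have : ξ D = z.1 := by simp [hξ, hξ1]
          rw [this]
        have e2 : g' (m + D - 1) = dl (app (g (m - 1)) (p 0))
            (app (g m) z.2 + app (g (m - 1)) z.1) := by
          rw [hg']
          dsimp only
          rw [wc_top' hm hD1 L ζ hζS, wc_top' hm hD1 L ξ hξS]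
          have : ζ D = p 0 := by simp [hζ]
          rw [this]
          have : ζ (D - 1) = 0 := by
            rw [hζ]
            dsimp only
            rw [if_neg (by omega)]
          rw [this]
          have : ξ D = z.1 := by simp [hξ, hξ1]
          rw [this]
          have : ξ (D - 1) = z.2 := by
            rw [hξ]
            dsimp only
            rw [if_pos (by omega), hξ2]
          rw [this, map_zero, zero_add]
        rw [e1, e2] at hfin
        have hsw := Good_swap _ _ _ _ _ _ hfin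
        obtain ⟨z1, z2⟩ := z
        rw [hat_zero', app_dl, app_dl, map_zero, zero_add, tail_hat]
        refine Good_mono ?_ n _ _ _ _ _ _ (fun i => le_rfl) hsw
        rw [← Nat.mul_div_mul_left (ρ + C * θ) B (show 0 < 2 by norm_num)]
        apply Nat.div_le_div_right
        have : C' * θ ≤ C * θ := Nat.mul_le_mul_right _ hC2
        omega
      · intro j hj
        have hjN : j < N := by omega
        rw [hg'sum]
        have hcD : c j ^ D ≠ 0 := pow_ne_zero _ (hc0 j hjN)
        have e3 := (hΞ j hjN).2.2.2 ((c j ^ D)⁻¹ • ∑ a ∈ Finset.range (D + 1), c j ^ a • ξ₀ a)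
          ((Ξ j).smul_mem _ (hξ3 j hjN))
        have e4 := Good_smul (c j ^ D) hcD n _ _ _ _ _ e3
        rw [← dl_smul, ← map_smul, ← map_smul, smul_smul, mul_inv_cancel₀ hcD, one_smul] at e4
        exact e4
      · intro i
        have e5 := hK i.succ
        rw [kap_zero_succ] at e5
        have e6 : g' (m + D) = dl (app (g m) (p 0)) (app (g m) z.1) := by
          rw [hg']
          dsimp only
          rw [wc_top L ζ hζS, wc_top L ξ hξS]
          have : ζ D = p 0 := by simp [hζ]
          rw [this]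
          have : ξ D = z.1 := by simp [hξ, hξ1]
          rw [this]
        rw [e6]
        unfold kap at e5 ⊢
        rw [Lm_dl_hat]
        have e7 := rk_dlin_ge (Lm (app (g m) (p 0)) (Fin.tail p) i)
          (Lm (app (g m) z.1) (Fin.tail p) i)
        omega
      · intro i
        have := hKρ i.succ
        omega
      · intro i
        have e8 := hsum i.succ
        rw [Fin.cons_succ] at e8
        rw [← Finset.mul_sum]
        have e9 : (Ns' i - 1) * (2 * K i.succ) + A * (2 * ρ) =
          2 * ((Ns' i - 1) * K i.succ + A * ρ) := by ring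
        rw [e9]
        exact Nat.mul_le_mul_left _ e8

theorem curve : S_curve := curve_aux

end Run7.h130
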