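import Pool.Agent.Run7.h130.Iface

/-!
# Descent of the Schmidt rank along a finite extension (piece `descent`)
-/

set_option autoImplicit false

namespace Run7.h130

open Module MvPolynomial

section Coef

variable {F K σ : Type} [Field F] [Field K] [Algebra F K]

/-- apply an `F`-linear functional to the coefficients of a polynomial over `K` -/
noncomputable def coefMap (l : K →ₗ[F] F) (p : MvPolynomial σ K) : MvPolynomial σ F :=
  ∑ m ∈ p.support, monomial m (l (coeff m p))

theorem coeff_coefMap (l : K →ₗ[F] F) (p : MvPolynomial σ K) (m : σ →₀ ℕ) :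
    coeff m (coefMap l p) = l (coeff m p) := by
  classical
  unfold coefMap
  rw [coeff_sum]
  simp only [coeff_monomial]
  rw [Finset.sum_ite_eq' p.support m (fun x => l (coeff x p))]
  by_cases hm : m ∈ p.support
  · rw [if_pos hm]
  · rw [if_neg hm, notMem_support_iff.mp hm, map_zero]

theorem coefMap_sum (l : K →ₗ[F] F) {ι : Type} (s : Finset ι) (p : ι → MvPolynomial σ K) :
    coefMap l (∑ i ∈ s, p i) = ∑ i ∈ s, coefMap l (p i) := by
  ext m
  rw [coeff_coefMap, coeff_sum, coeff_sum, map_sum]
  exact Finset.sum_congr rfl fun i _ => (coeff_coefMap l (p i) m).symm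

theorem coefMap_map_mul (l : K →ₗ[F] F) (q : MvPolynomial σ F) (p : MvPolynomial σ K) :
    coefMap l (MvPolynomial.map (algebraMap F K) q * p) = q * coefMap l p := by
  classical
  ext m
  rw [coeff_coefMap, coeff_mul, coeff_mul, map_sum]
  refine Finset.sum_congr rfl fun x _ => ?_
  rw [coeff_map, coeff_coefMap, ← Algebra.smul_def, map_smul, smul_eq_mul]

theorem totalDegree_coefMap (l : K →ₗ[F] F) (p : MvPolynomial σ K) :
    (coefMap l p).totalDegree ≤ p.totalDegree := by
  unfold totalDegree
  refine Finset.sup_mono ?_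
  intro m hm
  rw [MvPolynomial.mem_support_iff] at hm ⊢
  intro h
  apply hm
  rw [coeff_coefMap, h, map_zero]

theorem coefMap_map (l : K →ₗ[F] F) (hl : l 1 = 1) (q : MvPolynomial σ F) :
    coefMap l (MvPolynomial.map (algebraMap F K) q) = q := by
  ext m
  rw [coeff_coefMap, coeff_map, Algebra.algebraMap_eq_smul_one, map_smul, hl, smul_eq_mul,
    mul_one]

/-- expansion of a polynomial over `K` in a basis of `K` over `F` -/
theorem expand_basis {ι : Type} [Fintype ι] (b : Basis ι F K) (p : MvPolynomial σ K) :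
    p = ∑ j, MvPolynomial.map (algebraMap F K) (coefMap (b.coord j) p) * C (b j) := by
  ext m
  rw [coeff_sum]
  conv_lhs => rw [← b.sum_repr (coeff m p)]
  refine Finset.sum_congr rfl fun j _ => ?_
  rw [mul_comm, coeff_C_mul, coeff_map, coeff_coefMap, Algebra.smul_def, Basis.coord_apply,
    mul_comm]

end Coef

theorem exists_retraction (F K : Type) [Field F] [Field K] [Algebra F K] :
    ∃ l : K →ₗ[F] F, l 1 = 1 := by
  obtain ⟨g, hg⟩ := LinearMap.exists_leftInverse_of_injective (Algebra.linearMap F K)
    (LinearMap.ker_eq_bot.mpr (algebraMap F K).injective)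
  refine ⟨g, ?_⟩
  have h := LinearMap.congr_fun hg (1 : F)
  simpa using h

theorem descent : S_descent := by
  intro F K _ _ _ _ d n k P hP
  obtain ⟨Q, R, hd, hs⟩ := hP
  obtain ⟨l, hl⟩ := exists_retraction F K
  let b := finBasis F K
  let e : Fin (finrank F K * k) ≃ Fin (finrank F K) × Fin k := finProdFinEquiv.symm
  refine ⟨fun x => coefMap (b.coord (e x).1) (Q (e x).2),
    fun x => coefMap l (C (b (e x).1) * R (e x).2), ?_, ?_⟩
  · intro x
    refine ⟨lt_of_le_of_lt (totalDegree_coefMap _ _) (hd _).1,
      lt_of_le_of_lt (totalDegree_coefMap _ _) (lt_of_le_of_lt (totalDegree_mul _ _) ?_)⟩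
    rw [totalDegree_C, zero_add]
    exact (hd _).2
  · rw [← coefMap_map l hl P, hs, coefMap_sum,
      Equiv.sum_comp e (fun y : Fin (finrank F K) × Fin k =>
        coefMap (b.coord y.1) (Q y.2) * coefMap l (C (b y.1) * R y.2)),
      Fintype.sum_prod_type_right]
    refine Finset.sum_congr rfl fun i _ => ?_
    conv_lhs => rw [expand_basis b (Q i)]
    rw [Finset.sum_mul, coefMap_sum]
    refine Finset.sum_congr rfl fun j _ => ?_
    rw [mul_assoc, coefMap_map_mul]

end Run7.h130
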