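import Pool.Agent.Run7.h130.Iface

/-! # Finite fields have extensions of every degree -/

set_option autoImplicit false

namespace Run7.h130

open Module

theorem ext : S_ext := by
  intro F _ _ l hl
  obtain ⟨p, hp⟩ := CharP.exists F
  have : Fact p.Prime := ⟨CharP.char_is_prime F p⟩
  have : NeZero l := ⟨by omega⟩
  exact ⟨FiniteField.Extension F p l, inferInstance, inferInstance, inferInstance,
    FiniteField.finrank_extension F p l⟩

end Run7.h130
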