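import Pool.Agent.Run7.h130.Iface

/-!
# `S_fewzeros`
-/

set_option autoImplicit false

namespace Run7.h130

open Module

theorem fewzeros : S_fewzeros := by
  intro F _ _ n
  induction n with
  | zero =>
    intro V W _ _ _ _ _ f hf
    have : Zc f = 0 := by
      unfold Zc
      rw [Nat.card_eq_zero]
      left
      refine ⟨fun x => hf ?_⟩
      ext y
      rw [Subsingleton.elim y x.1, x.2]
      rfl
    rw [this]
    simp
  | succ n ih =>
    intro V W _ _ _ _ _ f hf
    have := Fintype.ofFinite V
    classical
    have h1 : Zc f = ∑ u : V, Zc (app f u) := by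
      have e : {x : Fin (n + 1) → V // f x = 0} ≃ Σ u : V, {x : Fin n → V // app f u x = 0} :=
        { toFun := fun x => ⟨x.1 0, Fin.tail x.1, by
            rw [app_apply, Fin.cons_self_tail]; exact x.2⟩
          invFun := fun y => ⟨Fin.cons y.1 y.2.1, y.2.2⟩
          left_inv := fun x => Subtype.ext (Fin.cons_self_tail x.1)
          right_inv := fun y => by
            obtain ⟨u, x, hx⟩ := y
            rfl }
      unfold Zc
      rw [Nat.card_congr e, Nat.card_sigma]
    have h2 : ∀ u : V, Zc (app f u) * Nat.card F ≤ n * Nat.card V ^ n +
        (if u ∈ LinearMap.ker (app f) then Nat.card V ^ n * Nat.card F else 0) := by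
      intro u
      by_cases hu : u ∈ LinearMap.ker (app f)
      · rw [if_pos hu]
        have h3 : Zc (app f u) ≤ Nat.card V ^ n := by
          unfold Zc
          have := Finite.card_subtype_le (fun x : Fin n → V => app f u x = 0)
          rw [Nat.card_fun, Nat.card_eq_fintype_card (α := Fin n), Fintype.card_fin] at this
          exact this
        have := Nat.mul_le_mul_right (Nat.card F) h3
        omega
      · rw [if_neg hu]
        exact ih V W (app f u) hu
    have h4 : Nat.card (LinearMap.ker (app f)) * Nat.card F ≤ Nat.card V := by
      have hker : LinearMap.ker (app f) ≠ ⊤ := by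
        intro h
        apply hf
        ext x
        have h5 : app f (x 0) = 0 := by
          have : x 0 ∈ LinearMap.ker (app f) := by rw [h]; trivial
          exact this
        have h6 := congrArg (fun T : ML F n V W => T (Fin.tail x)) h5
        simp only [app_apply, Fin.cons_self_tail] at h6
        exact h6
      obtain ⟨v, -, hv⟩ := SetLike.exists_of_lt hker.lt_top
      rw [← Nat.card_prod]
      refine Nat.card_le_card_of_injective
        (fun z : LinearMap.ker (app f) × F => (z.1 : V) + z.2 • v) ?_
      rintro ⟨a, s⟩ ⟨b, t⟩ h
      simp only at h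
      have hst : s = t := by
        by_contra hst
        apply hv
        have h7 : (s - t) • v = (b : V) - a := by
          rw [sub_smul, sub_eq_sub_iff_add_eq_add, add_comm, h]
        have h8 : v = (s - t)⁻¹ • ((b : V) - a) := by
          rw [← h7, smul_smul, inv_mul_cancel₀ (sub_ne_zero.mpr hst), one_smul]
        rw [h8]
        exact Submodule.smul_mem _ _ (Submodule.sub_mem _ b.2 a.2)
      subst hst
      rw [add_left_inj] at h
      rw [Subtype.ext h]
    have h9 : ∑ u : V, (if u ∈ LinearMap.ker (app f) then Nat.card V ^ n * Nat.card F else 0) =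
        Nat.card (LinearMap.ker (app f)) * (Nat.card V ^ n * Nat.card F) := by
      rw [← Finset.sum_filter, Finset.sum_const, smul_eq_mul]
      congr 1
      rw [Nat.card_eq_fintype_card, Fintype.card_subtype]
    rw [h1, Finset.sum_mul]
    calc ∑ u : V, Zc (app f u) * Nat.card F ≤ ∑ u : V, (n * Nat.card V ^ n +
        (if u ∈ LinearMap.ker (app f) then Nat.card V ^ n * Nat.card F else 0)) :=
          Finset.sum_le_sum (fun u _ => h2 u)
      _ = Nat.card V * (n * Nat.card V ^ n) +
          Nat.card (LinearMap.ker (app f)) * (Nat.card V ^ n * Nat.card F) := by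
        rw [Finset.sum_add_distrib, h9, Finset.sum_const, smul_eq_mul, Finset.card_univ,
          Nat.card_eq_fintype_card (α := V)]
      _ = Nat.card V * (n * Nat.card V ^ n) +
          (Nat.card (LinearMap.ker (app f)) * Nat.card F) * Nat.card V ^ n := by ring
      _ ≤ Nat.card V * (n * Nat.card V ^ n) + Nat.card V * Nat.card V ^ n := by
        have := Nat.mul_le_mul_right (Nat.card V ^ n) h4
        omega
      _ = (n + 1) * Nat.card V ^ (n + 1) := by ring

end Run7.h130
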