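import Pool.Agent.Run7.h130.Iface

/-! Final assembly for MP_dc7dd9_co (piece `final` of helper130's project). -/

set_option autoImplicit false

namespace Run7.h130

open Module

/-- the multilinear map with values in the dual given by a multihomogeneous polynomial -/
lemma exists_curried (htens : S_tens) (F : Type) [Field F] (e n : ℕ)
    (P : MvPolynomial (Fin (e + 1) × Fin n) F)
    (hP : ∀ m ∈ P.support, ∀ i : Fin (e + 1), ∑ j : Fin n, m (i, j) = 1) :
    ∃ (T : ML F (e + 1) (Fin n → F) F) (f : ML F e (Fin n → F) (Module.Dual F (Fin n → F))),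
      (∀ x : Fin (e + 1) → Fin n → F, T x = MvPolynomial.eval (fun v => x v.1 v.2) P) ∧
      (∀ (x : Fin e → Fin n → F) (y : Fin n → F), f x y = T (Fin.snoc x y)) := by
  obtain ⟨T, hT⟩ := htens F (e + 1) n P hP
  exact ⟨T, MultilinearMap.curryRight (M := fun _ => Fin n → F) T, hT, fun x y => rfl⟩

lemma Zc_pos {F : Type} [Field F] {n : ℕ} {V W : Type} [AddCommGroup V] [Module F V] [Finite V]
    [AddCommGroup W] [Module F W] (hn : 1 ≤ n) (f : ML F n V W) : 1 ≤ Zc f := by
  unfold Zc
  have : Nonempty {x : Fin n → V // f x = 0} := by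
    refine ⟨⟨0, ?_⟩⟩
    exact f.map_coord_zero ⟨0, hn⟩ rfl
  exact Nat.one_le_iff_ne_zero.2 Nat.card_pos.ne'

theorem final : S_large → S_zeroK → S_tens → S_char → S_schmidt → S_descent → S_ext →
    S_fewzeros → S_final := by
  intro hlarge hzeroK htens hchar hschmidt hdescent hext hfew d hd
  obtain ⟨e, rfl⟩ : ∃ e, d = e + 1 := ⟨d - 1, by omega⟩
  have he : 1 ≤ e := by omega
  obtain ⟨q₀, C, hC⟩ := hlarge e
  obtain ⟨l, hl1, hlq, hle⟩ : ∃ l : ℕ, 1 ≤ l ∧ q₀ ≤ 2 ^ l ∧ e ^ 2 ≤ 2 ^ l := by
    refine ⟨q₀ + e ^ 2 + 1, by omega, ?_, ?_⟩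
    · exact (by omega : q₀ ≤ q₀ + e ^ 2 + 1).trans Nat.lt_two_pow_self.le
    · exact (by omega : e ^ 2 ≤ q₀ + e ^ 2 + 1).trans Nat.lt_two_pow_self.le
  have hlR : (0 : ℝ) < l := by exact_mod_cast hl1
  refine ⟨1 / (3 * (C + 1) * l ^ e), by positivity, ?_⟩
  intro F _ _ n P hP ψ hψ r hr
  set q : ℕ := Fintype.card F with hq
  have hq2 : 2 ≤ q := Fintype.one_lt_card
  have hqR : (1 : ℝ) < q := by exact_mod_cast hq2
  have hq0 : (0 : ℝ) < q := by linarith
  have hlogq : 0 < Real.log q := Real.log_pos hqR
  obtain ⟨T, f, hT, hf⟩ := exists_curried htens F e n P hP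
  -- the character sum
  have hsum : ∑ x : Fin (e + 1) × Fin n → F, ψ (MvPolynomial.eval x P) =
      (Zc f : ℂ) * (q : ℂ) ^ n := by
    rw [← hchar F e n T f hf ψ hψ]
    apply Finset.sum_congr rfl
    intro x _
    rw [hT]
  have hZ : 1 ≤ Zc f := Zc_pos he f
  have hZR : (0 : ℝ) < Zc f := by exact_mod_cast hZ
  have hnorm : ‖∑ x : Fin (e + 1) × Fin n → F, ψ (MvPolynomial.eval x P)‖ /
      (q : ℝ) ^ ((e + 1) * n) = Zc f / (q : ℝ) ^ (n * e) := by
    rw [hsum, norm_mul, norm_pow, Complex.norm_natCast, Complex.norm_natCast]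
    rw [show (e + 1) * n = n * e + n by ring, pow_add]
    field_simp
  rw [hnorm]
  set z : ℝ := Zc f / (q : ℝ) ^ (n * e) with hz
  have hz0 : 0 < z := by positivity
  have hzlog : Real.log z = Real.log (Zc f) - (n * e) * Real.log q := by
    rw [hz, Real.log_div (by positivity) (by positivity), Real.log_pow]
    push_cast
    ring
  -- the number of zeros is at most everything
  have hz1 : Real.log z ≤ 0 := by
    apply Real.log_nonpos hz0.le
    rw [hz, div_le_one (by positivity)]
    have h1 : Zc f ≤ Nat.card (Fin e → Fin n → F) := by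
      unfold Zc
      exact Nat.card_le_card_of_injective _ Subtype.val_injective
    have h2 : Nat.card (Fin e → Fin n → F) = q ^ (n * e) := by
      rw [Nat.card_fun, Nat.card_fun, Nat.card_eq_fintype_card, Nat.card_eq_fintype_card,
        Nat.card_eq_fintype_card, Fintype.card_fin, Fintype.card_fin, pow_mul]
    rw [h2] at h1
    exact_mod_cast h1
  set a : ℝ := -Real.logb q z with ha
  have ha0 : 0 ≤ a := by
    rw [ha, Real.logb, ← neg_div]
    exact div_nonneg (by linarith) hlogq.le
  have haz : Real.log z = -(a * Real.log q) := by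
    rw [ha, Real.logb]
    field_simp
  by_cases hP0 : P = 0
  · -- trivial case
    have hr0 : r = 0 := by
      by_contra hne
      apply hr
      refine ⟨0, Nat.pos_of_ne_zero hne, fun _ => 0, fun _ => 0, fun i => i.elim0, ?_⟩
      rw [hP0]
      simp
    rw [hr0]
    simpa using ha0
  · -- the extension
    obtain ⟨K, hK1, hK2, hK3, hKl⟩ := hext F l hl1
    have hfd : FiniteDimensional F K := Module.Finite.of_finite
    have hcardK : Nat.card K = q ^ l := by
      rw [Module.natCard_eq_pow_finrank (K := F) (V := K), hKl, Nat.card_eq_fintype_card]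
    set PK : MvPolynomial (Fin (e + 1) × Fin n) K := MvPolynomial.map (algebraMap F K) P with hPK
    have hPK1 : ∀ m ∈ PK.support, ∀ i : Fin (e + 1), ∑ j : Fin n, m (i, j) = 1 := by
      intro m hm
      exact hP m (MvPolynomial.support_map_subset _ _ hm)
    have hPK0 : PK ≠ 0 := by
      intro h
      apply hP0
      apply MvPolynomial.map_injective _ (algebraMap F K).injective
      rw [map_zero]
      exact h
    obtain ⟨TK, fK, hTK, hfK⟩ := exists_curried htens K e n PK hPK1
    have hfKP : ∀ (x : Fin e → Fin n → K) (y : Fin n → K), fK x y =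
        MvPolynomial.eval (fun v => (Fin.snoc x y : Fin (e + 1) → Fin n → K) v.1 v.2) PK := by
      intro x y
      rw [hfK, hTK]
    have hfK0 : fK ≠ 0 := by
      intro h
      have h1 : PRle 0 fK := by
        refine ⟨0, le_rfl, fun i => i.elim0, fun i => i.elim0, fun i => i.elim0, fun i => i.elim0,
          fun i => i.elim0, fun i => i.elim0, ?_⟩
        intro x
        rw [h]
        simp
      obtain ⟨Q, R, -, hQR⟩ := hschmidt K e n 0 he PK hPK1 fK hfKP h1
      apply hPK0
      rw [hQR]
      simp
    have hcomp : ∀ (x : Fin e → Fin n → F) (y : Fin n → F),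
        fK (fun i j => algebraMap F K (x i j)) (fun j => algebraMap F K (y j)) =
          algebraMap F K (f x y) := by
      intro x y
      rw [hfKP, hf, hT, hPK, MvPolynomial.eval_map, ← MvPolynomial.eval₂_id, MvPolynomial.hom_eval₂]
      have hv : (fun v : Fin (e + 1) × Fin n => (Fin.snoc (fun i j => algebraMap F K (x i j))
          (fun j => algebraMap F K (y j)) : Fin (e + 1) → Fin n → K) v.1 v.2) =
          (algebraMap F K) ∘ (fun v : Fin (e + 1) × Fin n =>
            (Fin.snoc x y : Fin (e + 1) → Fin n → F) v.1 v.2) := by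
        funext v
        obtain ⟨i, j⟩ := v
        simp only [Function.comp]
        refine Fin.lastCases ?_ (fun i => ?_) i
        · simp
        · simp
      rw [hv]
      rfl
    have hzK := hzeroK F K e n f fK hcomp
    have hfK := hfew K e (Fin n → K) (Module.Dual K (Fin n → K)) fK hfK0
    have hZK : 1 ≤ Zc fK := Zc_pos he fK
    have hZKR : (0 : ℝ) < Zc fK := by exact_mod_cast hZK
    -- translate into logarithms
    have hcV : Nat.card (Fin n → K) = (q ^ l) ^ n := by
      rw [Nat.card_fun, hcardK]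
      simp
    rw [hKl, hcardK] at hzK
    rw [hcV, hcardK] at hfK
    have hcF : Nat.card F = q := Nat.card_eq_fintype_card
    rw [hcF] at hzK
    have hk1 : (l : ℝ) ^ e * Real.log (Zc f) + (l * (n * e)) * Real.log q ≤
        Real.log (Zc fK) + (l : ℝ) ^ e * ((n * e) * Real.log q) := by
      have h1 : ((Zc f : ℝ) ^ (l ^ e) * (((q : ℝ) ^ l) ^ n) ^ e) ≤
          (Zc fK : ℝ) * (((q : ℝ) ^ n) ^ e) ^ (l ^ e) := by exact_mod_cast hzK
      have h2 := Real.log_le_log (by positivity) h1
      rw [Real.log_mul (by positivity) (by positivity), Real.log_mul (by positivity) (by positivity),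
        Real.log_pow, Real.log_pow, Real.log_pow, Real.log_pow, Real.log_pow, Real.log_pow,
        Real.log_pow] at h2
      push_cast at h2
      nlinarith
    have hk2 : Real.log (Zc fK) + l * Real.log q ≤ Real.log e + (l * (n * e)) * Real.log q := by
      have h1 : ((Zc fK : ℝ) * (q : ℝ) ^ l) ≤ (e : ℝ) * (((q : ℝ) ^ l) ^ n) ^ e := by
        exact_mod_cast hfK
      have he0 : (0 : ℝ) < e := by exact_mod_cast he
      have h2 := Real.log_le_log (by positivity) h1
      rw [Real.log_mul (by positivity) (by positivity), Real.log_mul (by positivity) (by positivity),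
        Real.log_pow, Real.log_pow, Real.log_pow, Real.log_pow] at h2
      nlinarith
    have hloge : Real.log e ≤ l * Real.log q / 2 := by
      have he0 : (0 : ℝ) < e := by exact_mod_cast he
      have h1 : (e : ℝ) ^ 2 ≤ (q : ℝ) ^ l := by
        calc (e : ℝ) ^ 2 ≤ 2 ^ l := by exact_mod_cast hle
          _ ≤ (q : ℝ) ^ l := pow_le_pow_left₀ (by norm_num) (by exact_mod_cast hq2) l
      have h2 := Real.log_le_log (by positivity) h1
      rw [Real.log_pow, Real.log_pow] at h2
      push_cast at h2
      linarith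
    set b : ℝ := a * (l : ℝ) ^ (e - 1) with hb
    have hble : b * l = a * (l : ℝ) ^ e := by
      rw [hb, mul_assoc, ← pow_succ, Nat.sub_add_cancel he]
    have hb0 : 0 ≤ b := by positivity
    have hb1 : 1 / 2 ≤ b := by
      have h1 : (l : ℝ) ^ e * Real.log z + l * Real.log q ≤ l * Real.log q / 2 := by
        rw [hzlog]
        nlinarith
      rw [haz] at h1
      have h2 : (l * Real.log q) * (1 / 2) ≤ (l * Real.log q) * b := by
        have h3 : (l * Real.log q) * b = (l : ℝ) ^ e * (a * Real.log q) := by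
          calc (l * Real.log q) * b = (b * l) * Real.log q := by ring
            _ = _ := by rw [hble]; ring
        rw [h3]
        linarith
      exact le_of_mul_le_mul_left h2 (by positivity)
    obtain ⟨R, hR1, hR2⟩ : ∃ R : ℕ, b ≤ R ∧ (R : ℝ) ≤ 3 * b := by
      refine ⟨⌈b⌉₊, Nat.le_ceil b, ?_⟩
      have := Nat.ceil_lt_add_one hb0
      linarith
    -- apply the main theorem over `K`
    have hmain : Nat.card (Fin n → K) ^ e ≤ Zc fK * Nat.card K ^ R := by
      rw [hcV, hcardK]
      have h1 : ((((q : ℝ) ^ l) ^ n) ^ e) ≤ (Zc fK : ℝ) * ((q : ℝ) ^ l) ^ R := by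
        rw [← Real.log_le_log_iff (by positivity) (by positivity),
          Real.log_mul (by positivity) (by positivity), Real.log_pow, Real.log_pow, Real.log_pow,
          Real.log_pow, Real.log_pow]
        have h2 : (l : ℝ) ^ e * Real.log z = -(b * l * Real.log q) := by
          rw [haz, hble]
          ring
        rw [hzlog] at h2
        have h3 : b * (l * Real.log q) ≤ R * (l * Real.log q) :=
          mul_le_mul_of_nonneg_right hR1 (by positivity)
        nlinarith
      exact_mod_cast h1
    have hqK : q₀ ≤ Nat.card K := by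
      rw [hcardK]
      exact hlq.trans (Nat.pow_le_pow_left hq2 l)
    have hpr := hC K (Fin n → K) (Module.Dual K (Fin n → K)) fK R hqK hmain
    have hsch := hschmidt K e n (C * R) he PK hPK1 fK hfKP hpr
    have hdes := hdescent F K (e + 1) n (C * R) P hsch
    rw [hKl] at hdes
    have hrle : r ≤ l * (C * R) := by
      by_contra hcon
      push Not at hcon
      obtain ⟨Q, R', h1, h2⟩ := hdes
      exact hr ⟨_, hcon, Q, R', h1, h2⟩
    have hrR : (r : ℝ) ≤ l * (C * R) := by exact_mod_cast hrle
    have h5 : (r : ℝ) ≤ 3 * (C + 1) * (l : ℝ) ^ e * a := by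
      have hC0 : (0 : ℝ) ≤ C := Nat.cast_nonneg C
      calc (r : ℝ) ≤ l * (C * R) := hrR
        _ ≤ l * (C * (3 * b)) := by gcongr
        _ = 3 * C * (b * l) := by ring
        _ = 3 * C * (a * (l : ℝ) ^ e) := by rw [hble]
        _ ≤ 3 * (C + 1) * (a * (l : ℝ) ^ e) := by gcongr; linarith
        _ = _ := by ring
    rw [one_div, inv_mul_le_iff₀ (by positivity)]
    exact h5

end Run7.h130
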