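import Pool.Agent.Run7.h130.Iface

/-!
# Basic facts on `MD` and `PRle`
-/

set_option autoImplicit false

namespace Run7.h130

open Module

section

variable {F : Type} [Field F] {ι V X : Type} [DecidableEq ι] [AddCommGroup V] [Module F V]
  [AddCommGroup X] [Module F X]

theorem MD_zero (s : Finset ι) : MD F s (fun _ : ι → V => (0 : X)) :=
  ⟨fun _ _ _ _ _ => by simp, fun _ _ _ _ _ => by simp, fun _ _ _ _ => rfl⟩

theorem MD_add {s : Finset ι} {φ χ : (ι → V) → X} (hφ : MD F s φ) (hχ : MD F s χ) :
    MD F s (fun x => φ x + χ x) := by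
  refine ⟨fun i hi x v w => ?_, fun i hi x c v => ?_, fun i hi x v => ?_⟩
  · dsimp only
    rw [hφ.1 i hi, hχ.1 i hi]
    abel
  · dsimp only
    rw [hφ.2.1 i hi, hχ.2.1 i hi, smul_add]
  · dsimp only
    rw [hφ.2.2 i hi, hχ.2.2 i hi]

/-- composition with a linear map on the target -/
theorem MD_comp {Y : Type} [AddCommGroup Y] [Module F Y] {s : Finset ι} {φ : (ι → V) → X}
    (hφ : MD F s φ) (L : X →ₗ[F] Y) : MD F s (fun x => L (φ x)) := by
  refine ⟨fun i hi x v w => ?_, fun i hi x c v => ?_, fun i hi x v => ?_⟩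
  · dsimp only
    rw [hφ.1 i hi, map_add]
  · dsimp only
    rw [hφ.2.1 i hi, map_smul]
  · dsimp only
    rw [hφ.2.2 i hi]

/-- precomposition with linear maps in every coordinate -/
theorem MD_precomp {V' : Type} [AddCommGroup V'] [Module F V'] {s : Finset ι} {φ : (ι → V) → X}
    (hφ : MD F s φ) (L : ι → (V' →ₗ[F] V)) : MD F s (fun x : ι → V' => φ (fun i => L i (x i))) := by
  have key : ∀ (x : ι → V') (i : ι) (v : V'), (fun j => L j (Function.update x i v j)) =
      Function.update (fun j => L j (x j)) i (L i v) := by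
    intro x i v
    funext j
    by_cases h : j = i
    · subst h
      simp
    · simp [h]
  refine ⟨fun i hi x v w => ?_, fun i hi x c v => ?_, fun i hi x v => ?_⟩
  · simp only [key]
    rw [map_add, hφ.1 i hi]
  · simp only [key]
    rw [map_smul, hφ.2.1 i hi]
  · simp only [key]
    rw [hφ.2.2 i hi]

end

section

variable {F : Type} [Field F] {n : ℕ} {V W : Type} [AddCommGroup V] [Module F V]
  [AddCommGroup W] [Module F W]

theorem PRle_mono {k k' : ℕ} (h : k ≤ k') {f : ML F n V W} (hf : PRle k f) : PRle k' f := by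
  obtain ⟨r, hr, rest⟩ := hf
  exact ⟨r, hr.trans h, rest⟩

theorem PRle_zero (k : ℕ) : PRle k (0 : ML F n V W) :=
  ⟨0, Nat.zero_le _, fun i => i.elim0, fun i => i.elim0, fun i => i.elim0, fun i => i.elim0,
    fun i => i.elim0, fun i => i.elim0, fun x => by simp⟩

theorem PRle_add {a b : ℕ} {f g : ML F n V W} (hf : PRle a f) (hg : PRle b g) :
    PRle (a + b) (f + g) := by
  obtain ⟨r, hr, I, u, h, h1, h2, h3, h4⟩ := hf
  obtain ⟨r', hr', I', u', h', h1', h2', h3', h4'⟩ := hg
  refine ⟨r + r', by omega, Fin.append I I', Fin.append u u', Fin.append h h', ?_, ?_, ?_, ?_⟩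
  · intro l
    refine Fin.addCases (fun i => ?_) (fun i => ?_) l
    · simpa using h1 i
    · simpa using h1' i
  · intro l
    refine Fin.addCases (fun i => ?_) (fun i => ?_) l
    · simpa using h2 i
    · simpa using h2' i
  · intro l
    refine Fin.addCases (fun i => ?_) (fun i => ?_) l
    · simpa using h3 i
    · simpa using h3' i
  · intro x
    rw [add_apply, h4, h4', Fin.sum_univ_add]
    simp

theorem PRle_congr {k : ℕ} {f g : ML F n V W} (h : f = g) (hf : PRle k f) : PRle k g := h ▸ hf

end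

/-- `S_large` from `S_typical` and `S_reduction` -/
theorem large (ht : S_typical) (hr : S_reduction) : S_large := by
  intro n
  obtain ⟨C1, hC1⟩ := hr n
  obtain ⟨q₀, hq₀⟩ := ht n 2 (2 * C1 + 1) (by omega)
  refine ⟨q₀, 4 * C1, ?_⟩
  intro F _ _ V W _ _ _ _ _ _ f R
  induction R using Nat.strong_induction_on generalizing f with
  | _ R ih =>
  intro hq hR
  rcases Nat.eq_zero_or_pos R with rfl | hRpos
  · have hf : f = 0 := by
      ext x
      by_contra hx
      have h1 : Nat.card {x : Fin n → V // f x = 0} < Nat.card (Fin n → V) :=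
        Finite.card_subtype_lt (x := x) hx
      rw [Nat.card_fun, Nat.card_eq_fintype_card (α := Fin n), Fintype.card_fin] at h1
      rw [pow_zero, mul_one] at hR
      unfold Zc at hR
      omega
    rw [hf]
    exact PRle_zero _
  · have hbad := hq₀ F V W f R hq hRpos hR
    have hZ : 0 < Zc f := by
      have h1 : 0 < Nat.card V ^ n := pow_pos Nat.card_pos _
      by_contra h
      have : Zc f = 0 := by omega
      rw [this, zero_mul] at hR
      omega
    -- a good zero
    obtain ⟨p, hp0, hp⟩ : ∃ p : Fin n → V, f p = 0 ∧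
        (Good (R / (2 * C1 + 1)) n V W f p (kap f p) ∧ ∀ i, kap f p i ≤ R + 1) := by
      by_contra hcon
      push Not at hcon
      have hsub : BadZ R (2 * C1 + 1) f = {x : Fin n → V | f x = 0} := by
        ext x
        constructor
        · rintro ⟨h1, _⟩
          exact h1
        · intro h1
          refine ⟨h1, ?_⟩
          rintro ⟨h2, h3⟩
          obtain ⟨i, hi⟩ := hcon x h1 h2
          have := h3 i
          omega
      rw [hsub] at hbad
      change 2 * Zc f ≤ Zc f at hbad
      omega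
    obtain ⟨g, hg1, hg2⟩ := hC1 F V W (R / (2 * C1 + 1)) (R + 1) f p hp0 hp.1 hp.2
    have h2R : 2 * (C1 * (R / (2 * C1 + 1))) ≤ R := by
      have h3 : (2 * C1 + 1) * (R / (2 * C1 + 1)) ≤ R := Nat.mul_div_le _ _
      calc 2 * (C1 * (R / (2 * C1 + 1))) = (2 * C1) * (R / (2 * C1 + 1)) := by ring
        _ ≤ (2 * C1 + 1) * (R / (2 * C1 + 1)) := Nat.mul_le_mul_right _ (by omega)
        _ ≤ R := h3
    have h4 := ih (C1 * (R / (2 * C1 + 1))) (by omega) g hq hg2
    have h5 := PRle_add hg1 h4
    rw [sub_add_cancel] at h5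
    refine PRle_mono ?_ h5
    set R' := C1 * (R / (2 * C1 + 1)) with hR'
    have h6 : C1 * (R + 1) ≤ C1 * (2 * R) := Nat.mul_le_mul_left _ (by omega)
    have h7 : 4 * C1 * R' ≤ 2 * C1 * R := by
      calc 4 * C1 * R' = 2 * C1 * (2 * R') := by ring
        _ ≤ 2 * C1 * R := Nat.mul_le_mul_left _ h2R
    calc C1 * (R + 1) + 4 * C1 * R' ≤ C1 * (2 * R) + 2 * C1 * R := by omega
      _ = 4 * C1 * R := by ring

end Run7.h130
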