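import Pool.Agent.Run7.h130.Iface

/-!
# Piece `pairs` : averaging over pairs in a finite vector space (`S_pairs`)
-/

set_option autoImplicit false

namespace Run7.h130

open Module Finset

theorem pairs : S_pairs := by
  intro F _ V _ _ _ n N Ns c kp G s' A ρ hs' hA hρ _hc hNs hsub hpen hGρ hG
  classical
  let _ : Fintype V := Fintype.ofFinite V
  set v := Fintype.card V with hv
  have hv0 : 0 < v := Fintype.card_pos
  have hcV : Nat.card V = v := Nat.card_eq_fintype_card
  -- complement of `G`
  set g := (univ.filter fun u : V => u ∉ G).card with hg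
  have hcG : Nat.card {u : V // u ∉ G} = g := by
    rw [Nat.card_eq_fintype_card, Fintype.card_subtype]
  rw [hcV, hcG] at hG
  -- every element is a sum of two elements of `G`
  have hsum2 : ∀ u : V, ∃ a ∈ G, ∃ b ∈ G, a + b = u := by
    intro u
    by_contra hno
    push Not at hno
    have h1 : (univ : Finset V) ⊆ (univ.filter fun a : V => a ∉ G) ∪
        (univ.filter fun a : V => u - a ∉ G) := by
      intro a _
      rw [mem_union, mem_filter, mem_filter]
      by_cases ha : a ∈ G
      · right
        refine ⟨mem_univ _, fun hb => ?_⟩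
        exact hno a ha (u - a) hb (by abel)
      · left
        exact ⟨mem_univ _, ha⟩
    have h2 : (univ.filter fun a : V => u - a ∉ G).card = g := by
      rw [hg]
      refine Finset.card_bij (fun a _ => u - a) ?_ ?_ ?_
      · intro a ha
        rw [mem_filter] at ha ⊢
        exact ⟨mem_univ _, ha.2⟩
      · intro a _ b _ h
        exact sub_right_injective h
      · intro b hb
        rw [mem_filter] at hb
        refine ⟨u - b, ?_, by abel⟩
        rw [mem_filter]
        refine ⟨mem_univ _, ?_⟩
        have : u - (u - b) = b := by abel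
        rw [this]
        exact hb.2
    have h3 := (Finset.card_le_card h1).trans (Finset.card_union_le _ _)
    rw [h2, ← hg, Finset.card_univ, ← hv] at h3
    have h4 : 4 * g ≤ v := by
      refine le_trans ?_ hG
      apply Nat.mul_le_mul_right
      have : 1 ≤ (N + 1) * s' := Nat.mul_pos (Nat.succ_pos _) hs'
      nlinarith
    omega
  have hkp2 : ∀ u i, kp u i ≤ 2 * ρ := by
    intro u i
    obtain ⟨a, ha, b, hb, rfl⟩ := hsum2 u
    have := hsub a b i
    have := hGρ a ha i
    have := hGρ b hb i
    omega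
  -- the defect
  set Y : Fin n → V × V → ℕ := fun i z =>
    ∑ j ∈ range (Ns i), kp (z.1 + c j • z.2) i - (Ns i - 1) * kp z.2 i with hY
  have hYadd : ∀ i z, Y i z + (Ns i - 1) * kp z.2 i = ∑ j ∈ range (Ns i), kp (z.1 + c j • z.2) i := by
    intro i z
    exact Nat.sub_add_cancel (hpen z.1 z.2 i)
  have hYsum : ∀ i, ∑ z : V × V, Y i z ≤ 2 * ρ * v ^ 2 := by
    intro i
    set S := ∑ u : V, kp u i with hS
    have e1 : ∑ z : V × V, ∑ j ∈ range (Ns i), kp (z.1 + c j • z.2) i = Ns i * (v * S) := by
      rw [Finset.sum_comm]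
      have : ∀ j ∈ range (Ns i), ∑ z : V × V, kp (z.1 + c j • z.2) i = v * S := by
        intro j _
        rw [Fintype.sum_prod_type_right]
        have : ∀ u₁ : V, ∑ u : V, kp (u + c j • u₁) i = S := by
          intro u₁
          exact Equiv.sum_comp (Equiv.addRight (c j • u₁)) (fun u => kp u i)
        simp only [this, Finset.sum_const, Finset.card_univ, smul_eq_mul, ← hv]
      rw [Finset.sum_congr rfl this, Finset.sum_const, card_range, smul_eq_mul]
    have e2 : ∑ z : V × V, (Ns i - 1) * kp z.2 i = (Ns i - 1) * (v * S) := by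
      rw [← Finset.mul_sum, Fintype.sum_prod_type]
      simp only [Finset.sum_const, Finset.card_univ, smul_eq_mul, ← hv, ← hS]
    have e3 : ∑ z : V × V, Y i z + (Ns i - 1) * (v * S) = Ns i * (v * S) := by
      rw [← e1, ← e2, ← Finset.sum_add_distrib]
      exact Finset.sum_congr rfl fun z _ => hYadd i z
    have e4 : ∑ z : V × V, Y i z = v * S := by
      have h2 : 1 ≤ Ns i := by have := (hNs i).1; omega
      obtain ⟨m, hm⟩ : ∃ m, Ns i = m + 1 := ⟨Ns i - 1, by omega⟩
      rw [hm] at e3
      simp only [Nat.add_sub_cancel] at e3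
      have : (m + 1) * (v * S) = m * (v * S) + v * S := by ring
      omega
    rw [e4]
    have e5 : S ≤ v * (2 * ρ) := by
      rw [hS]
      calc ∑ u : V, kp u i ≤ ∑ _u : V, 2 * ρ := Finset.sum_le_sum fun u _ => hkp2 u i
        _ = v * (2 * ρ) := by rw [Finset.sum_const, Finset.card_univ, smul_eq_mul]
    calc v * S ≤ v * (v * (2 * ρ)) := Nat.mul_le_mul_left _ e5
      _ = 2 * ρ * v ^ 2 := by ring
  -- the sets of bad pairs
  set Q : Fin n → ℕ := fun i => (univ.filter fun z : V × V => A * ρ < Y i z).card with hQ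
  have hQle : ∀ i, Q i * A ≤ 2 * v ^ 2 := by
    intro i
    have h1 : Q i * (A * ρ) ≤ ∑ z : V × V, Y i z := by
      calc Q i * (A * ρ) = ∑ _z ∈ (univ.filter fun z : V × V => A * ρ < Y i z), A * ρ := by
            rw [Finset.sum_const, smul_eq_mul]
        _ ≤ ∑ z ∈ (univ.filter fun z : V × V => A * ρ < Y i z), Y i z := by
            refine Finset.sum_le_sum fun z hz => ?_
            rw [mem_filter] at hz
            exact hz.2.le
        _ ≤ ∑ z : V × V, Y i z := Finset.sum_le_sum_of_subset (Finset.filter_subset _ _)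
    have h2 := h1.trans (hYsum i)
    have h3 : (Q i * A) * ρ ≤ (2 * v ^ 2) * ρ := by
      calc (Q i * A) * ρ = Q i * (A * ρ) := by ring
        _ ≤ 2 * ρ * v ^ 2 := h2
        _ = (2 * v ^ 2) * ρ := by ring
    exact Nat.le_of_mul_le_mul_right h3 hρ
  have hQsum : 4 * s' * ∑ i, Q i ≤ v ^ 2 := by
    rcases Nat.eq_zero_or_pos n with hn | hn
    · subst hn
      simp
    · have h1 : ∀ i, 4 * n * s' * Q i ≤ v ^ 2 := by
        intro i
        have h2 : (8 * n * s') * Q i ≤ A * Q i := Nat.mul_le_mul_right _ hA
        have h3 := hQle i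
        nlinarith
      have h4 : n * (4 * s' * ∑ i, Q i) ≤ n * v ^ 2 := by
        calc n * (4 * s' * ∑ i, Q i) = ∑ i, 4 * n * s' * Q i := by
              rw [← Finset.mul_sum]; ring
          _ ≤ ∑ _i : Fin n, v ^ 2 := Finset.sum_le_sum fun i _ => h1 i
          _ = n * v ^ 2 := by rw [Finset.sum_const, Finset.card_univ, Fintype.card_fin, smul_eq_mul]
      exact Nat.le_of_mul_le_mul_left h4 hn
  set P0 := (univ.filter fun z : V × V => z.2 ∉ G).card with hP0
  set P : ℕ → ℕ := fun j => (univ.filter fun z : V × V => z.1 + c j • z.2 ∉ G).card with hP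
  have hP0e : P0 = g * v := by
    rw [hP0]
    have : (univ.filter fun z : V × V => z.2 ∉ G) = (univ : Finset V) ×ˢ
        (univ.filter fun u : V => u ∉ G) := by
      ext z
      simp
    rw [this, Finset.card_product, Finset.card_univ, mul_comm]
  have hPe : ∀ j, P j = g * v := by
    intro j
    rw [← hP0e, hP0, hP]
    refine Finset.card_bij (fun z _ => ((z.2 : V), z.1 + c j • z.2)) ?_ ?_ ?_
    · intro z hz
      rw [mem_filter] at hz ⊢
      exact ⟨mem_univ _, hz.2⟩
    · rintro ⟨a, b⟩ _ ⟨a', b'⟩ _ h
      have e1 := congrArg Prod.fst h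
      have e2 := congrArg Prod.snd h
      simp only at e1 e2
      subst e1
      rw [add_left_inj] at e2
      rw [e2]
    · rintro ⟨a, b⟩ hb
      rw [mem_filter] at hb
      refine ⟨(b - c j • a, a), ?_, ?_⟩
      · rw [mem_filter]
        refine ⟨mem_univ _, ?_⟩
        simpa using hb.2
      · simp
  -- the predicate
  set good : V → V → Prop := fun u₁ u => u₁ ∈ G ∧ (∀ j < N, u + c j • u₁ ∈ G) ∧
    ∀ i, ∑ j ∈ range (Ns i), kp (u + c j • u₁) i ≤ (Ns i - 1) * kp u₁ i + A * ρ with hgood
  set bad := univ.filter fun z : V × V => ¬ good z.2 z.1 with hbad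
  have hbadle : bad.card ≤ (N + 1) * (g * v) + ∑ i, Q i := by
    have h1 : bad ⊆ (univ.filter fun z : V × V => z.2 ∉ G) ∪
        ((range N).biUnion fun j => univ.filter fun z : V × V => z.1 + c j • z.2 ∉ G) ∪
        ((univ : Finset (Fin n)).biUnion fun i => univ.filter fun z : V × V => A * ρ < Y i z) := by
      intro z hz
      rw [hbad, mem_filter] at hz
      simp only [mem_union, mem_biUnion, mem_filter, mem_univ, true_and, mem_range]
      by_contra hno
      push Not at hno
      obtain ⟨⟨h1, h2⟩, h3⟩ := hno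
      refine hz.2 ⟨h1, h2, fun i => ?_⟩
      rw [← hYadd i z, add_comm]
      exact Nat.add_le_add_left (h3 i) _
    refine (Finset.card_le_card h1).trans ?_
    refine (Finset.card_union_le _ _).trans ?_
    refine Nat.add_le_add ?_ Finset.card_biUnion_le
    refine (Finset.card_union_le _ _).trans ?_
    have h2 : ((range N).biUnion fun j => univ.filter fun z : V × V =>
        z.1 + c j • z.2 ∉ G).card ≤ N * (g * v) := by
      refine Finset.card_biUnion_le.trans (le_of_eq ?_)
      calc ∑ j ∈ range N, (univ.filter fun z : V × V => z.1 + c j • z.2 ∉ G).card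
          = ∑ _j ∈ range N, g * v := Finset.sum_congr rfl fun j _ => hPe j
        _ = N * (g * v) := by rw [Finset.sum_const, card_range, smul_eq_mul]
    have h3 : (univ.filter fun z : V × V => z.2 ∉ G).card = g * v := hP0e
    rw [h3]
    linarith [h2]
  have hbad4 : 4 * s' * bad.card ≤ 2 * v ^ 2 := by
    have h1 : 4 * s' * ((N + 1) * (g * v)) ≤ v ^ 2 := by
      calc 4 * s' * ((N + 1) * (g * v)) = (4 * (N + 1) * s' * g) * v := by ring
        _ ≤ v * v := Nat.mul_le_mul_right _ hG
        _ = v ^ 2 := by ring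
    calc 4 * s' * bad.card ≤ 4 * s' * ((N + 1) * (g * v) + ∑ i, Q i) :=
          Nat.mul_le_mul_left _ hbadle
      _ = 4 * s' * ((N + 1) * (g * v)) + 4 * s' * ∑ i, Q i := by ring
      _ ≤ 2 * v ^ 2 := by linarith
  -- the bad `u₁`
  set Bset := univ.filter fun u₁ : V => ¬ (v < 2 * (univ.filter fun u : V => good u₁ u).card)
    with hBset
  have hcards : Nat.card {u₁ : V // ¬ (Nat.card V < 2 * Nat.card {u : V // u₁ ∈ G ∧
        (∀ j < N, u + c j • u₁ ∈ G) ∧
        ∀ i, ∑ j ∈ Finset.range (Ns i), kp (u + c j • u₁) i ≤ (Ns i - 1) * kp u₁ i + A * ρ})} =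
      Bset.card := by
    rw [Nat.card_eq_fintype_card, Fintype.card_subtype, hBset]
    congr 1
    refine Finset.filter_congr fun u₁ _ => ?_
    rw [hcV, Nat.card_eq_fintype_card, Fintype.card_subtype]
  rw [hcards, hcV]
  have hB2 : Bset.card * v ≤ 2 * bad.card := by
    have h1 : bad.card = ∑ u₁ : V, (univ.filter fun u : V => ¬ good u₁ u).card := by
      rw [hbad]
      simp only [Finset.card_filter]
      rw [Fintype.sum_prod_type_right]
    rw [h1, Finset.mul_sum]
    calc Bset.card * v = ∑ _u₁ ∈ Bset, v := by rw [Finset.sum_const, smul_eq_mul]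
      _ ≤ ∑ u₁ ∈ Bset, 2 * (univ.filter fun u : V => ¬ good u₁ u).card := by
          refine Finset.sum_le_sum fun u₁ hu => ?_
          rw [hBset, mem_filter] at hu
          have h2 : (univ.filter fun u : V => good u₁ u).card +
              (univ.filter fun u : V => ¬ good u₁ u).card = v := by
            rw [hv, ← Finset.card_univ]
            convert Finset.card_filter_add_card_filter_not (s := (univ : Finset V)) (good u₁)
          have h3 := hu.2
          omega
      _ ≤ ∑ u₁ : V, 2 * (univ.filter fun u : V => ¬ good u₁ u).card :=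
          Finset.sum_le_sum_of_subset (Finset.subset_univ _)
  have hfin : (s' * Bset.card) * v ≤ v * v := by
    have : 2 * (s' * (Bset.card * v)) ≤ 2 * v ^ 2 := by
      calc 2 * (s' * (Bset.card * v)) ≤ 2 * (s' * (2 * bad.card)) :=
            Nat.mul_le_mul_left _ (Nat.mul_le_mul_left _ hB2)
        _ = 4 * s' * bad.card := by ring
        _ ≤ 2 * v ^ 2 := hbad4
    nlinarith
  exact Nat.le_of_mul_le_mul_right hfin hv0

end Run7.h130
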