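import Pool.Agent.Run7.h130.PRBasic
import Pool.Agent.Run7.h130.GoodB

/-!
# `S_reduction` from `S_count` and `S_alg`
-/

set_option autoImplicit false

namespace Run7.h130

open Module

section

variable {F : Type} [Field F] {V W : Type} [AddCommGroup V] [Module F V]
  [AddCommGroup W] [Module F W]

/-- a generalised inverse of small rank -/
theorem geninv [FiniteDimensional F V] (L : V →ₗ[F] W) :
    ∃ R : W →ₗ[F] V, (∀ x, L (R (L x)) = L x) ∧
      finrank F (LinearMap.range R) ≤ rk L := by
  obtain ⟨s, hs⟩ := LinearMap.exists_rightInverse_of_surjective L.rangeRestrict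
    (LinearMap.range_rangeRestrict L)
  obtain ⟨π, hπ⟩ := LinearMap.exists_leftInverse_of_injective (LinearMap.range L).subtype
    (LinearMap.range L).ker_subtype
  refine ⟨s ∘ₗ π, ?_, ?_⟩
  · intro x
    have h1 : π (L x) = L.rangeRestrict x := by
      have := LinearMap.congr_fun hπ (L.rangeRestrict x)
      simpa using this
    rw [LinearMap.comp_apply, h1]
    have h2 := LinearMap.congr_fun hs (L.rangeRestrict x)
    have h3 := congrArg Subtype.val h2
    simpa using h3
  · have h4 : LinearMap.range (s ∘ₗ π) ≤ LinearMap.range s := LinearMap.range_comp_le_range _ _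
    exact (Submodule.finrank_mono h4).trans (LinearMap.finrank_range_le s)

end

section

variable {F : Type} [Field F] {n : ℕ} {V W : Type} [AddCommGroup V] [Module F V]
  [AddCommGroup W] [Module F W]

theorem PRle_comp {k : ℕ} {f : ML F n V W} (hf : PRle k f) (L : Fin n → (V →ₗ[F] V)) :
    PRle k (f.compLinearMap L) := by
  obtain ⟨r, hr, I, a, h, h1, h2, h3, h4⟩ := hf
  refine ⟨r, hr, I, fun l x => a l (fun i => L i (x i)), fun l x => h l (fun i => L i (x i)),
    h1, fun l => MD_precomp (h2 l) L, fun l => MD_precomp (h3 l) L, fun x => ?_⟩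
  rw [MultilinearMap.compLinearMap_apply, h4]

/-- replacing the slot `s` by a map of small rank -/
theorem PRle_slot [FiniteDimensional F V] (h : ML F n V W) (s : Fin n) (P : V →ₗ[F] V) (κ : ℕ)
    (hP : finrank F (LinearMap.range P) ≤ κ) (g : ML F n V W)
    (hg : ∀ x, g x = h (Function.update x s (P (x s)))) : PRle κ g := by
  set b := Module.finBasis F (LinearMap.range P) with hb
  refine ⟨finrank F (LinearMap.range P), hP, fun _ => {s},
    fun l x => b.repr (P.rangeRestrict (x s)) l,
    fun l x => h (Function.update x s (b l : V)), fun l => ⟨s, by simp⟩, ?_, ?_, ?_⟩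
  · intro l
    refine ⟨?_, ?_, ?_⟩
    · intro i hi x v w
      rw [Finset.mem_singleton] at hi
      subst hi
      simp
    · intro i hi x c v
      rw [Finset.mem_singleton] at hi
      subst hi
      simp
    · intro i hi x v
      rw [Finset.mem_singleton] at hi
      dsimp only
      rw [Function.update_of_ne (Ne.symm hi)]
  · intro l
    refine ⟨?_, ?_, ?_⟩
    · intro i hi x v w
      rw [Finset.mem_compl, Finset.mem_singleton] at hi
      dsimp only
      rw [Function.update_comm hi, Function.update_comm hi, Function.update_comm hi,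
        h.map_update_add]
    · intro i hi x c v
      rw [Finset.mem_compl, Finset.mem_singleton] at hi
      dsimp only
      rw [Function.update_comm hi, Function.update_comm hi, h.map_update_smul]
    · intro i hi x v
      rw [Finset.mem_compl, Finset.mem_singleton, not_not] at hi
      subst hi
      dsimp only
      rw [Function.update_idem]
  · intro x
    rw [hg]
    have h1 : P (x s) = ∑ l, b.repr (P.rangeRestrict (x s)) l • (b l : V) := by
      have h2 := b.sum_repr (P.rangeRestrict (x s))
      have h3 := congrArg Subtype.val h2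
      rw [Submodule.coe_sum] at h3
      simp only [Submodule.coe_smul, LinearMap.codRestrict_apply] at h3
      exact h3.symm
    rw [h1, h.map_update_sum]
    apply Finset.sum_congr rfl
    intro l _
    rw [h.map_update_smul]

/-- the partially projected map -/
theorem PRle_proj [FiniteDimensional F V] (f : ML F n V W) (P : Fin n → (V →ₗ[F] V)) (κ : ℕ)
    (hP : ∀ i, finrank F (LinearMap.range (P i)) ≤ κ) (s : ℕ) (hs : s ≤ n) :
    PRle (s * κ) (f - f.compLinearMap
      (fun i => if (i : ℕ) < s then LinearMap.id - P i else LinearMap.id)) := by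
  induction s with
  | zero =>
    have : f - f.compLinearMap
      (fun i => if (i : ℕ) < 0 then LinearMap.id - P i else LinearMap.id) = 0 := by
      ext x
      simp
    rw [this]
    exact PRle_zero _
  | succ s ih =>
    have h1 := ih (by omega)
    obtain ⟨j, hj⟩ : ∃ j : Fin n, (j : ℕ) = s := ⟨⟨s, by omega⟩, rfl⟩
    have h2 : PRle κ (f.compLinearMap
        (fun i => if (i : ℕ) < s then LinearMap.id - P i else LinearMap.id) -
        f.compLinearMap
        (fun i => if (i : ℕ) < s + 1 then LinearMap.id - P i else LinearMap.id)) := by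
      refine PRle_slot (f.compLinearMap
        (fun i => if (i : ℕ) < s then LinearMap.id - P i else LinearMap.id)) j
        (P j) κ (hP _) _ ?_
      intro x
      have h3 : f.compLinearMap
        (fun i => if (i : ℕ) < s + 1 then LinearMap.id - P i else LinearMap.id) x =
        f.compLinearMap
        (fun i => if (i : ℕ) < s then LinearMap.id - P i else LinearMap.id)
          (Function.update x j (x j - P j (x j))) := by
        rw [MultilinearMap.compLinearMap_apply, MultilinearMap.compLinearMap_apply]
        congr 1
        funext i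
        by_cases hi : i = j
        · subst hi
          simp [hj]
        · have hi' : (i : ℕ) ≠ s := fun h => hi (Fin.ext (h.trans hj.symm))
          rw [Function.update_of_ne hi]
          by_cases h4 : (i : ℕ) < s
          · rw [if_pos (by omega), if_pos h4]
          · rw [if_neg (by omega), if_neg h4]
      rw [sub_apply, h3, MultilinearMap.map_update_sub, Function.update_eq_self, sub_sub_cancel]
    have h5 := PRle_add h1 h2
    rw [sub_add_sub_cancel] at h5
    refine PRle_mono ?_ h5
    rw [Nat.add_mul, one_mul]

end

theorem reduction (hc : S_count) (ha : S_alg) : S_reduction := by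
  intro n
  obtain ⟨C1, hC1⟩ := hc n
  obtain ⟨C2, hC2⟩ := ha n
  refine ⟨n + C2 + C1, ?_⟩
  intro F _ _ V W _ _ _ _ _ _ θ κ f p hfp hgood hκ
  have hfd : FiniteDimensional F V := Module.Finite.of_finite
  choose R hR1 hR2 using fun i : Fin n => geninv (Lm f p i)
  obtain ⟨g, hg1, hg2⟩ := hC2 F V W f p R κ (fun i => (hR2 i).trans (hκ i))
  have hcount := hC1 F V W W θ f p (kap f p) R (fun i => LinearMap.ker (Lm f p i)) LinearMap.id
    hgood hfp (by
      intro i
      apply Submodule.finrank_mono
      rintro _ ⟨x, rfl⟩
      rw [LinearMap.mem_ker, LinearMap.sub_apply, LinearMap.comp_apply, hR1]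
      simp) (fun i => le_rfl)
  set π : Fin n → (V →ₗ[F] V) := fun i => LinearMap.id - R i ∘ₗ Lm f p i with hπ
  have hπT : ∀ i x, π i x ∈ LinearMap.ker (Lm f p i) := by
    intro i x
    rw [LinearMap.mem_ker, hπ]
    simp [hR1]
  have hπid : ∀ i x, x ∈ LinearMap.ker (Lm f p i) → π i x = x := by
    intro i x hx
    rw [LinearMap.mem_ker] at hx
    simp [hπ, hx]
  refine ⟨g.compLinearMap π, ?_, ?_⟩
  · have h1 := PRle_proj f (fun i => R i ∘ₗ Lm f p i) κ (fun i =>
      (Submodule.finrank_mono (LinearMap.range_comp_le_range _ _)).trans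
        ((hR2 i).trans (hκ i))) n le_rfl
    have h2 : (fun i : Fin n => if (i : ℕ) < n then LinearMap.id - R i ∘ₗ Lm f p i
        else LinearMap.id) = π := by
      funext i
      rw [if_pos i.2]
    rw [h2] at h1
    have h3 := PRle_comp hg2 π
    have h4 := PRle_add h1 h3
    have h5 : f - f.compLinearMap π + (f - g).compLinearMap π = f - g.compLinearMap π := by
      ext x
      simp
    rw [h5] at h4
    refine PRle_mono ?_ h4
    rw [Nat.add_mul, Nat.add_mul]
    omega
  · have hcardV : ∀ i, Nat.card V ≤ Nat.card (LinearMap.ker (Lm f p i)) *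
        Nat.card (LinearMap.ker (π i)) := by
      intro i
      rw [← Nat.card_prod]
      refine Nat.card_le_card_of_injective (fun x : V =>
        ((⟨π i x, hπT i x⟩ : LinearMap.ker (Lm f p i)), (⟨x - π i x, by
          rw [LinearMap.mem_ker, map_sub, hπid i _ (hπT i x), sub_self]⟩ :
          LinearMap.ker (π i)))) ?_
      intro x y hxy
      simp only [Prod.mk.injEq, Subtype.mk.injEq] at hxy
      rw [hxy.1] at hxy
      exact sub_left_injective hxy.2
    have hinj : Nat.card {t : Fin n → V // (∀ i, t i ∈ LinearMap.ker (Lm f p i)) ∧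
          lastE n V W f p R t LinearMap.id = 0} * ∏ i, Nat.card (LinearMap.ker (π i)) ≤
        Zc (g.compLinearMap π) := by
      rw [← Nat.card_pi, ← Nat.card_prod]
      unfold Zc
      refine Nat.card_le_card_of_injective (fun tz => ⟨fun i => tz.1.1 i + (tz.2 i : V), ?_⟩) ?_
      · rw [MultilinearMap.compLinearMap_apply]
        have : (fun i => π i (tz.1.1 i + (tz.2 i : V))) = tz.1.1 := by
          funext i
          rw [map_add, hπid i _ (tz.1.2.1 i), LinearMap.mem_ker.mp (tz.2 i).2, add_zero]
        rw [this, hg1]
        exact tz.1.2.2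
      · rintro ⟨⟨t, ht1, ht2⟩, z⟩ ⟨⟨t', ht1', ht2'⟩, z'⟩ h
        simp only [Subtype.mk.injEq] at h
        have h6 : t = t' := by
          funext i
          have h7 := congrArg (π i) (congrFun h i)
          rw [map_add, map_add, hπid i _ (ht1 i), hπid i _ (ht1' i),
            LinearMap.mem_ker.mp (z i).2, LinearMap.mem_ker.mp (z' i).2, add_zero,
            add_zero] at h7
          exact h7
        subst h6
        have h8 : z = z' := by
          funext i
          have h7 := congrFun h i
          exact Subtype.ext (add_left_cancel h7)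
        rw [h8]
    have hq : 1 ≤ Nat.card F := Nat.card_pos
    calc Nat.card V ^ n = ∏ _i : Fin n, Nat.card V := by simp
      _ ≤ ∏ i, (Nat.card (LinearMap.ker (Lm f p i)) * Nat.card (LinearMap.ker (π i))) :=
        Finset.prod_le_prod' (fun i _ => hcardV i)
      _ = (∏ i, Nat.card (LinearMap.ker (Lm f p i))) * ∏ i, Nat.card (LinearMap.ker (π i)) :=
        Finset.prod_mul_distrib
      _ ≤ (Nat.card {t : Fin n → V // (∀ i, t i ∈ LinearMap.ker (Lm f p i)) ∧
          lastE n V W f p R t LinearMap.id = 0} * Nat.card F ^ (C1 * θ)) *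
          ∏ i, Nat.card (LinearMap.ker (π i)) := Nat.mul_le_mul_right _ hcount
      _ = (Nat.card {t : Fin n → V // (∀ i, t i ∈ LinearMap.ker (Lm f p i)) ∧
          lastE n V W f p R t LinearMap.id = 0} * ∏ i, Nat.card (LinearMap.ker (π i))) *
          Nat.card F ^ (C1 * θ) := by ring
      _ ≤ Zc (g.compLinearMap π) * Nat.card F ^ (C1 * θ) := Nat.mul_le_mul_right _ hinj
      _ ≤ Zc (g.compLinearMap π) * Nat.card F ^ ((n + C2 + C1) * θ) := by
        apply Nat.mul_le_mul_left
        apply Nat.pow_le_pow_right hq
        apply Nat.mul_le_mul_right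
        omega

end Run7.h130
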