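import Pool.Agent.Run7.h130.Iface

/-! # A multihomogeneous polynomial is a multilinear form -/

set_option autoImplicit false

namespace Run7.h130

open Module

theorem tens_prod {F : Type} [Field F] {n : ℕ} (a : Fin n → ℕ) (ha : ∑ j, a j = 1)
    (x : Fin n → F) : ∏ j, x j ^ a j = ∑ j, (a j : F) * x j := by
  classical
  obtain ⟨j0, hj0⟩ : ∃ j, a j ≠ 0 := by
    by_contra hcon
    push Not at hcon
    simp [hcon] at ha
  have h1 := Finset.add_sum_erase Finset.univ a (Finset.mem_univ j0)
  rw [ha] at h1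
  have h2 : a j0 = 1 := by omega
  have h3 : ∑ x ∈ Finset.univ.erase j0, a x = 0 := by omega
  have h4 : ∀ j, j ≠ j0 → a j = 0 := by
    intro j hj
    exact (Finset.sum_eq_zero_iff.1 h3) j (Finset.mem_erase.2 ⟨hj, Finset.mem_univ _⟩)
  rw [Finset.prod_eq_single j0, Finset.sum_eq_single j0]
  · rw [h2]; simp
  · intro j _ hj
    rw [h4 j hj]; simp
  · simp
  · intro j _ hj
    rw [h4 j hj]; simp
  · simp

theorem tens : S_tens := by
  intro F _ e n P hP
  classical
  let φ : (Fin e × Fin n →₀ ℕ) → Fin e → ((Fin n → F) →ₗ[F] F) := fun m i =>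
    ∑ j : Fin n, (m (i, j) : F) • LinearMap.proj j
  refine ⟨∑ m ∈ P.support, P.coeff m •
    (MultilinearMap.mkPiAlgebra F (Fin e) F).compLinearMap (φ m), fun x => ?_⟩
  rw [MvPolynomial.eval_eq', sum_apply]
  refine Finset.sum_congr rfl fun m hm => ?_
  rw [smul_apply, MultilinearMap.compLinearMap_apply, MultilinearMap.mkPiAlgebra_apply,
    smul_eq_mul]
  congr 1
  rw [Fintype.prod_prod_type]
  refine Finset.prod_congr rfl fun i _ => ?_
  rw [tens_prod (fun j => m (i, j)) (hP m hm i)]
  simp [φ, LinearMap.sum_apply]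

end Run7.h130
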