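import Pool.Agent.Run7.h130.Iface
import Pool.Agent.Run7.h130.GoodB

/-!
# Typical zeros are good (piece `typical`)
-/

set_option autoImplicit false

namespace Run7.h130

open Module

section Counting

variable {V : Type} [Finite V] {n : ℕ}

theorem sigma_sub_ext {α β : Type} {P : α → β → Prop} (a a' : α) (b : {b : β // P a b})
    (c : {b : β // P a' b}) (h : a = a') (h' : b.1 = c.1) :
    (⟨a, b⟩ : Σ a : α, {b : β // P a b}) = ⟨a', c⟩ := by
  subst h
  obtain ⟨b, hb⟩ := b
  obtain ⟨c, hc⟩ := c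
  simp only at h'
  subst h'
  rfl

theorem card_insertNth [Fintype V] (i : Fin (n + 1)) (P : (Fin (n + 1) → V) → Prop) :
    Nat.card {p : Fin (n + 1) → V // P p} =
      ∑ p' : Fin n → V, Nat.card {x : V // P (Fin.insertNth (α := fun _ => V) i x p')} := by
  rw [← Nat.card_sigma]
  refine Nat.card_congr ?_
  refine
    { toFun := fun p => ⟨fun j => p.1 (i.succAbove j), ⟨p.1 i, ?_⟩⟩
      invFun := fun s => ⟨Fin.insertNth (α := fun _ => V) i s.2.1 s.1, s.2.2⟩
      left_inv := ?_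
      right_inv := ?_ }
  · have : Fin.insertNth (α := fun _ => V) i (p.1 i) (fun j => p.1 (i.succAbove j)) = p.1 :=
      Fin.insertNth_self_removeNth i p.1
    rw [this]
    exact p.2
  · rintro ⟨p, hp⟩
    apply Subtype.ext
    exact Fin.insertNth_self_removeNth i p
  · rintro ⟨p', x, hx⟩
    have h1 : (fun j => Fin.insertNth (α := fun _ => V) i x p' (i.succAbove j)) = p' := by
      funext j
      exact Fin.insertNth_apply_succAbove (α := fun _ => V) i x p' j
    have h2 : Fin.insertNth (α := fun _ => V) i x p' i = x :=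
      Fin.insertNth_apply_same (α := fun _ => V) i x p'
    exact sigma_sub_ext (P := fun (p' : Fin n → V) (x : V) =>
      P (Fin.insertNth (α := fun _ => V) i x p')) _ _ _ _ h1 h2

theorem card_cons_left [Fintype V] (P : (Fin (n + 1) → V) → Prop) :
    Nat.card {p : Fin (n + 1) → V // P p} =
      ∑ p' : Fin n → V, Nat.card {x : V // P (Fin.cons x p')} := by
  rw [card_insertNth 0 P]
  simp only [Fin.insertNth_zero']

theorem card_cons_right [Fintype V] (P : (Fin (n + 1) → V) → Prop) :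
    Nat.card {p : Fin (n + 1) → V // P p} =
      ∑ x : V, Nat.card {p' : Fin n → V // P (Fin.cons x p')} := by
  rw [← Nat.card_sigma]
  refine Nat.card_congr ?_
  refine
    { toFun := fun p => ⟨p.1 0, ⟨Fin.tail p.1, ?_⟩⟩
      invFun := fun s => ⟨Fin.cons s.1 s.2.1, s.2.2⟩
      left_inv := ?_
      right_inv := ?_ }
  · rw [Fin.cons_self_tail]
    exact p.2
  · rintro ⟨p, hp⟩
    apply Subtype.ext
    exact Fin.cons_self_tail p
  · rintro ⟨x, p', hx⟩
    exact sigma_sub_ext (P := fun (x : V) (p' : Fin n → V) => P (Fin.cons x p')) _ _ _ _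
      (Fin.cons_zero (α := fun _ => V) x p') (Fin.tail_cons (α := fun _ => V) x p')

end Counting

section Ker

variable {F : Type} [Field F] {V W : Type} [AddCommGroup V] [Module F V] [Finite V]
  [AddCommGroup W] [Module F W]

theorem fd_of_finite (F : Type) [Field F] (V : Type) [AddCommGroup V] [Module F V] [Finite V] :
    FiniteDimensional F V := Module.Finite.of_finite

theorem card_ker (L : V →ₗ[F] W) :
    Nat.card (LinearMap.ker L) * Nat.card F ^ rk L = Nat.card V := by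
  have := fd_of_finite F V
  have h1 := LinearMap.finrank_range_add_finrank_ker L
  rw [Module.natCard_eq_pow_finrank (K := F) (V := LinearMap.ker L),
    Module.natCard_eq_pow_finrank (K := F) (V := V), ← pow_add, ← h1]
  unfold rk
  rw [add_comm]

theorem big_kap [Finite F] {n : ℕ} (f : ML F (n + 1) V W) (i : Fin (n + 1)) (r : ℕ) :
    Nat.card {p : Fin (n + 1) → V // f p = 0 ∧ r ≤ kap f p i} * Nat.card F ^ r ≤
      Nat.card V ^ (n + 1) := by
  classical
  have := Fintype.ofFinite V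
  rw [card_insertNth i, Finset.sum_mul]
  have h : ∀ p' : Fin n → V, Nat.card {x : V // f (Fin.insertNth (α := fun _ => V) i x p') = 0 ∧
      r ≤ kap f (Fin.insertNth (α := fun _ => V) i x p') i} * Nat.card F ^ r ≤ Nat.card V := by
    intro p'
    set L : V →ₗ[F] W := Lm f (Fin.insertNth (α := fun _ => V) i 0 p') i with hL
    have hL' : ∀ x, Lm f (Fin.insertNth (α := fun _ => V) i x p') i = L := by
      intro x
      rw [hL]
      ext y
      rw [Lm_apply, Lm_apply]
      congr 1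
      simp
    have hf : ∀ x, f (Fin.insertNth (α := fun _ => V) i x p') = L x := by
      intro x
      rw [hL, Lm_apply]
      congr 1
      simp
    by_cases hr : r ≤ rk L
    · have h1 : Nat.card {x : V // f (Fin.insertNth (α := fun _ => V) i x p') = 0 ∧
          r ≤ kap f (Fin.insertNth (α := fun _ => V) i x p') i} ≤ Nat.card (LinearMap.ker L) := by
        apply Nat.card_le_card_of_injective
          (fun x : {x : V // f (Fin.insertNth (α := fun _ => V) i x p') = 0 ∧
            r ≤ kap f (Fin.insertNth (α := fun _ => V) i x p') i} =>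
            (⟨x.1, by have := x.2.1; rw [hf] at this; exact this⟩ : LinearMap.ker L))
        intro x y hxy
        apply Subtype.ext
        simpa using hxy
      have h2 : Nat.card F ^ r ≤ Nat.card F ^ rk L := Nat.pow_le_pow_right Nat.card_pos hr
      calc _ ≤ Nat.card (LinearMap.ker L) * Nat.card F ^ rk L := Nat.mul_le_mul h1 h2
        _ = Nat.card V := card_ker L
    · have h1 : Nat.card {x : V // f (Fin.insertNth (α := fun _ => V) i x p') = 0 ∧
          r ≤ kap f (Fin.insertNth (α := fun _ => V) i x p') i} = 0 := by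
        rw [Nat.card_eq_zero]
        left
        constructor
        rintro ⟨x, hx1, hx2⟩
        unfold kap at hx2
        rw [hL'] at hx2
        exact hr hx2
      rw [h1]
      simp
  calc _ ≤ ∑ _p' : Fin n → V, Nat.card V := Finset.sum_le_sum fun p' _ => h p'
    _ = Nat.card V ^ (n + 1) := by
      rw [Finset.sum_const, Finset.card_univ, smul_eq_mul, Fintype.card_fun, Fintype.card_fin,
        Nat.card_eq_fintype_card, pow_succ]

end Ker

section Setup

variable {F : Type} [Field F] {V W : Type} [AddCommGroup V] [Module F V]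
  [AddCommGroup W] [Module F W] {n : ℕ}

/-- the subspace of `u` with `f (u, p') = 0` -/
noncomputable def KKf (f : ML F (n + 1) V W) (p' : Fin n → V) : Submodule F V :=
  LinearMap.ker (Lm f (Fin.cons 0 p') 0)

theorem mem_KKf (f : ML F (n + 1) V W) (p' : Fin n → V) (u : V) :
    u ∈ KKf f p' ↔ f (Fin.cons u p') = 0 := by
  unfold KKf
  rw [LinearMap.mem_ker, Lm_zero, Fin.tail_cons, app_apply]

theorem KK_tail (f : ML F (n + 1) V W) (p : Fin (n + 1) → V) :
    KKf f (Fin.tail p) = LinearMap.ker (Lm f p 0) := by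
  ext u
  rw [mem_KKf, LinearMap.mem_ker, Lm_zero, app_apply]

/-- good pairs -/
def Gd (θ r : ℕ) (f : ML F (n + 1) V W) (p' : Fin n → V) (u : V) : Prop :=
  Good θ n V W (app f u) p' (kap (app f u) p') ∧ ∀ i, kap (app f u) p' i ≤ r

theorem rk_add_le [FiniteDimensional F W] (L M : V →ₗ[F] W) : rk (L + M) ≤ rk L + rk M := by
  unfold rk
  have h1 : LinearMap.range (L + M) ≤ LinearMap.range L ⊔ LinearMap.range M := by
    rintro _ ⟨x, rfl⟩
    exact Submodule.add_mem_sup ⟨x, rfl⟩ ⟨x, rfl⟩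
  have h2 := Submodule.finrank_mono h1
  have h3 := Submodule.finrank_sup_add_finrank_inf_eq (LinearMap.range L) (LinearMap.range M)
  omega

theorem kap_app_add [FiniteDimensional F W] (f : ML F (n + 1) V W) (p' : Fin n → V) (u v : V)
    (i : Fin n) : kap (app f (u + v)) p' i ≤ kap (app f u) p' i + kap (app f v) p' i := by
  unfold kap
  rw [map_add, Lm_add]
  exact rk_add_le _ _

theorem kap_app_pencil [FiniteDimensional F V] [FiniteDimensional F W] (h1 : S_pencil)
    (f : ML F (n + 1) V W) (p' : Fin n → V) (c : ℕ → F) (N : ℕ) (hc : Set.InjOn c (Set.Iio N))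
    (u u₁ : V) (i : Fin n) :
    (N - 1) * kap (app f u₁) p' i ≤ ∑ j ∈ Finset.range N, kap (app f (u + c j • u₁)) p' i := by
  have h := h1 F V W N c hc (Lm (app f u) p' i) (Lm (app f u₁) p' i)
  refine h.trans (le_of_eq ?_)
  apply Finset.sum_congr rfl
  intro j _
  unfold kap
  rw [map_add, map_smul, Lm_add, Lm_smul]

theorem exists_add {K : Type} [AddCommGroup K] [Finite K] (Y : K → Prop)
    (h : Nat.card K < 2 * Nat.card {u : K // Y u}) (ξ : K) :
    ∃ u u', Y u ∧ Y u' ∧ u + u' = ξ := by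
  by_contra hc
  push Not at hc
  have h2 : Nat.card ({u : K // Y u} ⊕ {u : K // Y u}) ≤ Nat.card K := by
    apply Nat.card_le_card_of_injective
      (fun s : {u : K // Y u} ⊕ {u : K // Y u} => Sum.elim (fun u => u.1) (fun u => ξ - u.1) s)
    rintro (⟨x, hx⟩ | ⟨x, hx⟩) (⟨y, hy⟩ | ⟨y, hy⟩) hxy
    · simp only [Sum.elim_inl] at hxy
      subst hxy
      rfl
    · simp only [Sum.elim_inl, Sum.elim_inr] at hxy
      exact absurd (by rw [hxy]; abel) (hc x y hx hy)
    · simp only [Sum.elim_inl, Sum.elim_inr] at hxy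
      exact absurd (by rw [← hxy]; abel) (hc x y hx hy)
    · simp only [Sum.elim_inr, sub_right_inj] at hxy
      subst hxy
      rfl
  rw [Nat.card_sum] at h2
  omega

/-- the exceptional `u₁` in `S_pairs` -/
def Exc (θ r N : ℕ) (Ns : Fin n → ℕ) (c : ℕ → F) (A ρ : ℕ) (f : ML F (n + 1) V W)
    (p' : Fin n → V) (u₁ : KKf f p') : Prop :=
  ¬ (Nat.card (KKf f p') < 2 * Nat.card {u : KKf f p' // u₁ ∈ {u : KKf f p' | Gd θ r f p' u} ∧
        (∀ j < N, u + c j • u₁ ∈ {u : KKf f p' | Gd θ r f p' u}) ∧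
        ∀ i, ∑ j ∈ Finset.range (Ns i), kap (app f (((u + c j • u₁ : KKf f p')) : V)) p' i ≤
          (Ns i - 1) * kap (app f (u₁ : V)) p' i + A * ρ})

/-- the exceptional `u₁`, as vectors of `V` -/
def ExcV (θ r N : ℕ) (Ns : Fin n → ℕ) (c : ℕ → F) (A ρ : ℕ) (f : ML F (n + 1) V W)
    (p' : Fin n → V) (u₁ : V) : Prop :=
  ∃ h : u₁ ∈ KKf f p', Exc θ r N Ns c A ρ f p' ⟨u₁, h⟩

/-- the geometric step -/
theorem good_of_not_exc [Finite V] [FiniteDimensional F W] (h3 : S_additivity)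
    (B A N C : ℕ) (Ns : Fin n → ℕ) (hB : 1 ≤ B)
    (hcurve : ∀ (F : Type) [Field F] (E W : Type) [AddCommGroup E] [Module F E]
      [FiniteDimensional F E] [AddCommGroup W] [Module F W] [FiniteDimensional F W] (c : ℕ → F),
      (∀ j < N, c j ≠ 0) → Set.InjOn c (Set.Iio N) →
      ∀ (g : ℕ → ML F n E W) (p : Fin n → E) (k : ℕ → Fin n → ℕ) (K : Fin n → ℕ) (ρ θ : ℕ),
        (∀ j < N, Good θ n E W (∑ a ∈ Finset.range (1 + 1), c j ^ a • g a) p (k j)) →
        (∀ i, K i ≤ kap (g 1) p i) → (∀ i, K i ≤ ρ) →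
        (∀ i, ∑ j ∈ Finset.range (Ns i), k j i ≤ (Ns i - 1) * K i + A * ρ) →
        Good ((ρ + C * θ) / (20 * B)) n (E × E) (W × W) (dl (g 1) (g (1 - 1))) (hat p)
          (fun i => 2 * K i))
    (c : ℕ → F) (hc0 : ∀ j < N, c j ≠ 0) (hc : Set.InjOn c (Set.Iio N))
    (f : ML F (n + 1) V W) (R : ℕ) (hR : 1 ≤ R) (p : Fin (n + 1) → V) (hp : f p = 0)
    (hne : ∀ h : p 0 ∈ KKf f (Fin.tail p),
      ¬ Exc ((R + 1) / (C + 1)) (R + 2) N Ns c A (R + 2) f (Fin.tail p) ⟨p 0, h⟩) :
    Good (R / B) (n + 1) V W f p (kap f p) := by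
  have hfd := fd_of_finite F V
  have hmem : p 0 ∈ KKf f (Fin.tail p) := by
    rw [mem_KKf, Fin.cons_self_tail]
    exact hp
  have hne' := hne hmem
  unfold Exc at hne'
  rw [not_not] at hne'
  refine ⟨Nat.le_add_right _ _, LinearMap.ker (Lm f p 0), le_rfl, Nat.le_add_right _ _, ?_⟩
  intro ξ hξ
  rw [← KK_tail] at hξ
  have hone : ∀ u : KKf f (Fin.tail p), (⟨p 0, hmem⟩ ∈ {u : KKf f (Fin.tail p) |
      Gd ((R + 1) / (C + 1)) (R + 2) f (Fin.tail p) u} ∧
        (∀ j < N, u + c j • ⟨p 0, hmem⟩ ∈ {u : KKf f (Fin.tail p) |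
          Gd ((R + 1) / (C + 1)) (R + 2) f (Fin.tail p) u}) ∧
        ∀ i, ∑ j ∈ Finset.range (Ns i), kap (app f (((u + c j • ⟨p 0, hmem⟩ :
          KKf f (Fin.tail p))) : V)) (Fin.tail p) i ≤
          (Ns i - 1) * kap (app f (p 0)) (Fin.tail p) i + A * (R + 2)) →
      Good ((R + 2 + C * ((R + 1) / (C + 1))) / (20 * B)) n (V × V) (W × W)
        (dl (app f (p 0)) (app f (u : V))) (hat (Fin.tail p))
        (fun i => 2 * kap (app f (p 0)) (Fin.tail p) i) := by
    rintro u ⟨hu1, hu2, hu3⟩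
    refine hcurve F V W c hc0 hc (fun a => if a = 0 then app f (u : V) else app f (p 0))
      (Fin.tail p) (fun j => kap (app f (((u + c j • ⟨p 0, hmem⟩ : KKf f (Fin.tail p))) : V))
        (Fin.tail p)) (kap (app f (p 0)) (Fin.tail p)) (R + 2) ((R + 1) / (C + 1))
      ?_ ?_ ?_ hu3
    · intro j hj
      have h := (hu2 j hj).1
      have he : ∑ a ∈ Finset.range (1 + 1), c j ^ a • (if a = 0 then app f (u : V) else
          app f (p 0)) = app f (((u + c j • ⟨p 0, hmem⟩ : KKf f (Fin.tail p))) : V) := by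
        rw [Finset.sum_range_succ, Finset.sum_range_one]
        simp
      rw [he]
      exact h
    · intro i
      exact le_rfl
    · intro i
      exact hu1.2 i
  obtain ⟨u, u', hu, hu', huu⟩ := exists_add _ hne' (⟨ξ, hξ⟩ : KKf f (Fin.tail p))
  have hg := h3 F n V W _ (app f (p 0)) (app f (u : V)) (app f (u' : V)) (Fin.tail p)
    (fun i => 2 * kap (app f (p 0)) (Fin.tail p) i) (fun i => le_rfl) (hone u hu) (hone u' hu')
  have he : app f (u : V) + app f (u' : V) = app f ξ := by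
    rw [← map_add]
    congr 1
    have := congrArg Subtype.val huu
    simpa using this
  rw [he] at hg
  refine Good_mono ?_ n _ _ _ _ _ _ ?_ hg
  · have e1 : C * ((R + 1) / (C + 1)) ≤ R + 1 := by
      have := Nat.div_mul_le_self (R + 1) (C + 1)
      nlinarith
    set x := (R + 2 + C * ((R + 1) / (C + 1))) / (20 * B) with hx
    have e2 : x * (20 * B) ≤ 5 * R := by
      have := Nat.div_mul_le_self (R + 2 + C * ((R + 1) / (C + 1))) (20 * B)
      rw [← hx] at this
      omega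
    rw [Nat.le_div_iff_mul_le (by omega)]
    nlinarith
  · intro i
    rw [kap_zero_succ]

end Setup

section Count2

variable {F : Type} [Field F] {V W : Type} [AddCommGroup V] [Module F V]
  [AddCommGroup W] [Module F W] {n : ℕ} [Finite V]

theorem zc_eq_sum_KK [Fintype V] (f : ML F (n + 1) V W) :
    Zc f = ∑ p' : Fin n → V, Nat.card (KKf f p') := by
  unfold Zc
  rw [card_cons_left]
  apply Finset.sum_congr rfl
  intro p' _
  exact Nat.card_congr (Equiv.subtypeEquivRight fun x => (mem_KKf f p' x).symm)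

theorem zc_eq_sum_app [Fintype V] (f : ML F (n + 1) V W) :
    Zc f = ∑ u : V, Zc (app f u) := by
  unfold Zc
  rw [card_cons_right]
  rfl

theorem X2_bound [Fintype V] (θ r D : ℕ) (f : ML F (n + 1) V W) :
    Nat.card {p : Fin (n + 1) → V // f p = 0 ∧ Nat.card (KKf f (Fin.tail p)) <
        D * Nat.card {u : KKf f (Fin.tail p) // ¬ Gd θ r f (Fin.tail p) u}} ≤
      D * Nat.card {p : Fin (n + 1) → V // f p = 0 ∧ ¬ Gd θ r f (Fin.tail p) (p 0)} := by
  rw [card_cons_left, card_cons_left, Finset.mul_sum]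
  apply Finset.sum_le_sum
  intro p' _
  simp only [Fin.tail_cons, Fin.cons_zero]
  have e : Nat.card {x : V // f (Fin.cons x p') = 0 ∧ ¬ Gd θ r f p' x} =
      Nat.card {u : KKf f p' // ¬ Gd θ r f p' u} := by
    refine Nat.card_congr
      { toFun := fun x => ⟨⟨x.1, (mem_KKf f p' x.1).2 x.2.1⟩, x.2.2⟩
        invFun := fun u => ⟨u.1.1, (mem_KKf f p' u.1.1).1 u.1.2, u.2⟩
        left_inv := fun x => rfl
        right_inv := fun u => rfl }
  rw [e]
  by_cases h : Nat.card (KKf f p') < D * Nat.card {u : KKf f p' // ¬ Gd θ r f p' u}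
  · refine le_trans ?_ h.le
    apply Nat.card_le_card_of_injective
      (fun x : {x : V // f (Fin.cons x p') = 0 ∧ Nat.card (KKf f p') <
        D * Nat.card {u : KKf f p' // ¬ Gd θ r f p' u}} =>
        (⟨x.1, (mem_KKf f p' x.1).2 x.2.1⟩ : KKf f p'))
    intro x y hxy
    apply Subtype.ext
    simpa using hxy
  · exact le_trans (le_of_eq (Nat.card_eq_zero.2 (Or.inl ⟨fun x => h x.2.2⟩))) (Nat.zero_le _)

theorem bad_sum [Fintype V] (θ r : ℕ) (f : ML F (n + 1) V W) :
    Nat.card {p : Fin (n + 1) → V // f p = 0 ∧ ¬ Gd θ r f (Fin.tail p) (p 0)} =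
      ∑ u : V, Nat.card {p' : Fin n → V // app f u p' = 0 ∧ ¬ Gd θ r f p' u} := by
  rw [card_cons_right]
  simp only [Fin.tail_cons, Fin.cons_zero, app_apply]

theorem X3_bound [Fintype V] [FiniteDimensional F W] (h1 : S_pencil) (h4 : S_pairs)
    (θ R N s' : ℕ) (hs' : 1 ≤ s') (Ns : Fin n → ℕ) (hNs : ∀ i, 2 ≤ Ns i ∧ Ns i ≤ N) (c : ℕ → F)
    (hc0 : ∀ j < N, c j ≠ 0) (hc : Set.InjOn c (Set.Iio N)) (f : ML F (n + 1) V W) :
    s' * Nat.card {p : Fin (n + 1) → V // f p = 0 ∧
        ¬ (Nat.card (KKf f (Fin.tail p)) <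
        4 * (N + 1) * s' * Nat.card {u : KKf f (Fin.tail p) // ¬ Gd θ (R + 2) f (Fin.tail p) u}) ∧
        ExcV θ (R + 2) N Ns c (8 * n * s') (R + 2) f (Fin.tail p) (p 0)} ≤ Zc f := by
  have hfd := fd_of_finite F V
  rw [card_cons_left, zc_eq_sum_KK, Finset.mul_sum]
  apply Finset.sum_le_sum
  intro p' _
  simp only [Fin.tail_cons, Fin.cons_zero]
  by_cases h : Nat.card (KKf f p') <
      4 * (N + 1) * s' * Nat.card {u : KKf f p' // ¬ Gd θ (R + 2) f p' u}
  · rw [Nat.card_eq_zero.2 (Or.inl ⟨fun x => x.2.2.1 h⟩)]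
    simp
  · have hp := h4 F (KKf f p') n N Ns c (fun u i => kap (app f (u : V)) p' i)
      {u : KKf f p' | Gd θ (R + 2) f p' u} s' (8 * n * s') (R + 2) hs' le_rfl (by omega) hc0 hNs
      (fun u v i => kap_app_add f p' u v i)
      (fun u u₁ i => kap_app_pencil h1 f p' c (Ns i)
        (hc.mono (Set.Iio_subset_Iio (hNs i).2)) u u₁ i)
      (fun u hu i => hu.2 i) (not_lt.1 h)
    refine le_trans (Nat.mul_le_mul_left _ ?_) hp
    apply Nat.card_le_card_of_injective
      (fun x : {x : V // f (Fin.cons x p') = 0 ∧ ¬ (Nat.card (KKf f p') <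
        4 * (N + 1) * s' * Nat.card {u : KKf f p' // ¬ Gd θ (R + 2) f p' u}) ∧
        ExcV θ (R + 2) N Ns c (8 * n * s') (R + 2) f p' x} =>
        (⟨⟨x.1, x.2.2.2.choose⟩, x.2.2.2.choose_spec⟩ : {u₁ : KKf f p' //
          Exc θ (R + 2) N Ns c (8 * n * s') (R + 2) f p' u₁}))
    intro x y hxy
    apply Subtype.ext
    simpa using hxy

theorem X1_bound [Finite F] (f : ML F (n + 1) V W) (R T : ℕ) (hT : 1 ≤ T)
    (hq : 4 * T * (n + 1) ≤ Nat.card F)
    (hZ : Nat.card V ^ (n + 1) ≤ Zc f * Nat.card F ^ R) :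
    4 * T * Nat.card {p : Fin (n + 1) → V // f p = 0 ∧ ∃ i, R + 2 ≤ kap f p i} ≤ Zc f := by
  set q := Nat.card F with hq'
  have hq0 : 0 < q := by
    have : 0 < 4 * T * (n + 1) := by positivity
    omega
  have hX : Nat.card {p : Fin (n + 1) → V // f p = 0 ∧ ∃ i, R + 2 ≤ kap f p i} ≤
      ∑ i : Fin (n + 1), Nat.card {p : Fin (n + 1) → V // f p = 0 ∧ R + 2 ≤ kap f p i} := by
    rw [← Nat.card_sigma]
    apply Nat.card_le_card_of_injective
      (fun p : {p : Fin (n + 1) → V // f p = 0 ∧ ∃ i, R + 2 ≤ kap f p i} =>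
        (⟨p.2.2.choose, ⟨p.1, p.2.1, p.2.2.choose_spec⟩⟩ :
          Σ i : Fin (n + 1), {p : Fin (n + 1) → V // f p = 0 ∧ R + 2 ≤ kap f p i}))
    intro x y hxy
    apply Subtype.ext
    have := congrArg (fun s : (Σ i : Fin (n + 1), {p : Fin (n + 1) → V //
      f p = 0 ∧ R + 2 ≤ kap f p i}) => s.2.1) hxy
    exact this
  set X := Nat.card {p : Fin (n + 1) → V // f p = 0 ∧ ∃ i, R + 2 ≤ kap f p i} with hXdef
  have h1 : X * q ^ (R + 2) ≤ (n + 1) * (Zc f * q ^ R) := by
    calc X * q ^ (R + 2) ≤ (∑ i : Fin (n + 1), Nat.card {p : Fin (n + 1) → V //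
          f p = 0 ∧ R + 2 ≤ kap f p i}) * q ^ (R + 2) := Nat.mul_le_mul_right _ hX
      _ = ∑ i : Fin (n + 1), Nat.card {p : Fin (n + 1) → V //
          f p = 0 ∧ R + 2 ≤ kap f p i} * q ^ (R + 2) := Finset.sum_mul _ _ _
      _ ≤ ∑ _i : Fin (n + 1), Zc f * q ^ R :=
          Finset.sum_le_sum fun i _ => (big_kap f i (R + 2)).trans hZ
      _ = (n + 1) * (Zc f * q ^ R) := by
          rw [Finset.sum_const, Finset.card_univ, Fintype.card_fin, smul_eq_mul]
  have h2 : X * q ^ 2 ≤ (n + 1) * Zc f := by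
    have hpos : 0 < q ^ R := Nat.pow_pos hq0
    have : X * q ^ 2 * q ^ R ≤ (n + 1) * Zc f * q ^ R := by
      calc X * q ^ 2 * q ^ R = X * q ^ (R + 2) := by ring
        _ ≤ _ := h1
        _ = _ := by ring
    exact Nat.le_of_mul_le_mul_right this hpos
  have h3 : (n + 1) * (4 * T * X) ≤ (n + 1) * Zc f := by
    calc (n + 1) * (4 * T * X) = X * (4 * T * (n + 1)) := by ring
      _ ≤ X * q := Nat.mul_le_mul_left _ hq
      _ ≤ X * q ^ 2 := Nat.mul_le_mul_left _ (by nlinarith)
      _ ≤ _ := h2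
  exact Nat.le_of_mul_le_mul_left h3 (by omega)

theorem X2_sum [Fintype V] [Finite F] (f : ML F (n + 1) V W) (R B1 t1 : ℕ)
    (hq : t1 ≤ Nat.card F)
    (hZ : Nat.card V ^ (n + 1) ≤ Zc f * Nat.card F ^ R)
    (hih : ∀ u : V, Nat.card V ^ n ≤ Zc (app f u) * Nat.card F ^ (R + 1) →
      t1 * Nat.card (BadZ (R + 1) B1 (app f u)) ≤ Zc (app f u)) :
    t1 * ∑ u : V, Nat.card (BadZ (R + 1) B1 (app f u)) ≤ 2 * Zc f := by
  set q := Nat.card F with hq'
  have hq0 : 0 < q := Nat.card_pos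
  have h1 : ∀ u : V, t1 * Nat.card (BadZ (R + 1) B1 (app f u)) * q ^ (R + 1) ≤
      Zc (app f u) * q ^ (R + 1) + t1 * Nat.card V ^ n := by
    intro u
    by_cases h : Nat.card V ^ n ≤ Zc (app f u) * q ^ (R + 1)
    · exact (Nat.mul_le_mul_right _ (hih u h)).trans (Nat.le_add_right _ _)
    · have h2 : Nat.card (BadZ (R + 1) B1 (app f u)) ≤ Zc (app f u) := by
        unfold Zc
        apply Nat.card_le_card_of_injective
          (fun p : (BadZ (R + 1) B1 (app f u)) =>
            (⟨p.1, p.2.1⟩ : {x : Fin n → V // app f u x = 0}))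
        intro x y hxy
        apply Subtype.ext
        simpa using hxy
      calc t1 * Nat.card (BadZ (R + 1) B1 (app f u)) * q ^ (R + 1)
          ≤ t1 * Zc (app f u) * q ^ (R + 1) :=
            Nat.mul_le_mul_right _ (Nat.mul_le_mul_left _ h2)
        _ = t1 * (Zc (app f u) * q ^ (R + 1)) := by ring
        _ ≤ t1 * Nat.card V ^ n := Nat.mul_le_mul_left _ (by omega)
        _ ≤ _ := Nat.le_add_left _ _
  have h2 : t1 * (∑ u : V, Nat.card (BadZ (R + 1) B1 (app f u))) * q ^ (R + 1) ≤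
      Zc f * q ^ (R + 1) + t1 * Nat.card V ^ (n + 1) := by
    rw [zc_eq_sum_app f, Finset.mul_sum, Finset.sum_mul, Finset.sum_mul]
    calc _ ≤ ∑ u : V, (Zc (app f u) * q ^ (R + 1) + t1 * Nat.card V ^ n) :=
          Finset.sum_le_sum fun u _ => h1 u
      _ = _ := by
        rw [Finset.sum_add_distrib, Finset.sum_const, Finset.card_univ, smul_eq_mul,
          Nat.card_eq_fintype_card]
        ring
  set S := ∑ u : V, Nat.card (BadZ (R + 1) B1 (app f u)) with hS
  have h3 : t1 * S * q ^ (R + 1) ≤ 2 * Zc f * q ^ (R + 1) := by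
    calc t1 * S * q ^ (R + 1) ≤ Zc f * q ^ (R + 1) + t1 * Nat.card V ^ (n + 1) := h2
      _ ≤ Zc f * q ^ (R + 1) + q * (Zc f * q ^ R) :=
          Nat.add_le_add_left (Nat.mul_le_mul hq hZ) _
      _ = 2 * Zc f * q ^ (R + 1) := by ring
  exact Nat.le_of_mul_le_mul_right h3 (Nat.pow_pos hq0)

end Count2

/-- existence of nodes -/
theorem exists_nodes (F : Type) [Field F] [Finite F] (N : ℕ) (h : N + 1 ≤ Nat.card F) :
    ∃ c : ℕ → F, (∀ j < N, c j ≠ 0) ∧ Set.InjOn c (Set.Iio N) := by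
  classical
  have := Fintype.ofFinite F
  have h1 : Fintype.card (Fin N) ≤ Fintype.card Fˣ := by
    rw [Fintype.card_fin, Fintype.card_units, ← Nat.card_eq_fintype_card]
    omega
  obtain ⟨e⟩ := Function.Embedding.nonempty_of_card_le h1
  refine ⟨fun j => if h : j < N then (e ⟨j, h⟩ : F) else 0, ?_, ?_⟩
  · intro j hj
    simp [hj]
  · intro i hi j hj hij
    have hi' : i < N := hi
    have hj' : j < N := hj
    simp only [hi', hj', dif_pos] at hij
    have := e.injective (Units.ext hij)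
    simpa using this

theorem typical (h1 : S_pencil) (h2 : S_curve) (h3 : S_additivity) (h4 : S_pairs) :
    S_typical := by
  intro n
  induction n with
  | zero =>
    intro t B hB
    refine ⟨0, ?_⟩
    intro F _ _ V W _ _ _ _ _ _ f R _ _ _
    have : Nat.card (BadZ R B f) = 0 := by
      rw [Nat.card_eq_zero]
      left
      refine ⟨fun p => p.2.2 ⟨trivial, fun i => i.elim0⟩⟩
    rw [this]
    simp
  | succ n ih =>
    intro t B hB
    set T := t + 1 with hT
    obtain ⟨N, C, Ns, hNs, hcurve⟩ := h2 n 1 (8 * n * (4 * T)) (20 * B) le_rfl (by omega)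
    set D := 4 * (N + 1) * (4 * T) with hD
    obtain ⟨q0, hq0⟩ := ih (4 * T * D) (C + 1) (by omega)
    refine ⟨q0 + (N + 1) + 4 * T * D + 4 * T * (n + 1), ?_⟩
    intro F _ _ V W _ _ _ _ _ _ f R hq hR hZ
    have := Fintype.ofFinite V
    obtain ⟨c, hc0, hc⟩ := exists_nodes F N (by omega)
    set θ := (R + 1) / (C + 1) with hθ
    set X1 : Set (Fin (n + 1) → V) := {p | f p = 0 ∧ ∃ i, R + 2 ≤ kap f p i} with hX1
    set X2 : Set (Fin (n + 1) → V) := {p | f p = 0 ∧ Nat.card (KKf f (Fin.tail p)) <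
        D * Nat.card {u : KKf f (Fin.tail p) // ¬ Gd θ (R + 2) f (Fin.tail p) u}} with hX2
    set X3 : Set (Fin (n + 1) → V) := {p | f p = 0 ∧
        ¬ (Nat.card (KKf f (Fin.tail p)) <
        D * Nat.card {u : KKf f (Fin.tail p) // ¬ Gd θ (R + 2) f (Fin.tail p) u}) ∧
        ExcV θ (R + 2) N Ns c (8 * n * (4 * T)) (R + 2) f (Fin.tail p) (p 0)} with hX3
    have hb1 : 4 * T * Nat.card X1 ≤ Zc f := X1_bound f R T (by omega) (by omega) hZ
    have hb3 : 4 * T * Nat.card X3 ≤ Zc f :=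
      X3_bound h1 h4 θ R N (4 * T) (by omega) Ns hNs c hc0 hc f
    have hb2 : 4 * T * Nat.card X2 ≤ 2 * Zc f := by
      have e1 : Nat.card X2 ≤ D * Nat.card {p : Fin (n + 1) → V // f p = 0 ∧
          ¬ Gd θ (R + 2) f (Fin.tail p) (p 0)} := X2_bound θ (R + 2) D f
      have e2 := bad_sum θ (R + 2) f
      have e3 : 4 * T * D * ∑ u : V, Nat.card (BadZ (R + 1) (C + 1) (app f u)) ≤ 2 * Zc f :=
        X2_sum f R (C + 1) (4 * T * D) (by omega) hZ
          (fun u hu => hq0 F V W (app f u) (R + 1) (by omega) (by omega) hu)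
      calc 4 * T * Nat.card X2 ≤ 4 * T * (D * Nat.card {p : Fin (n + 1) → V // f p = 0 ∧
          ¬ Gd θ (R + 2) f (Fin.tail p) (p 0)}) := Nat.mul_le_mul_left _ e1
        _ = 4 * T * D * ∑ u : V, Nat.card {p' : Fin n → V // app f u p' = 0 ∧
            ¬ Gd θ (R + 2) f p' u} := by rw [e2]; ring
        _ ≤ 2 * Zc f := e3
    have hsub : BadZ R B f ⊆ X1 ∪ (X2 ∪ X3) := by
      rintro p ⟨hp1, hp2⟩
      by_contra hcon
      rw [Set.mem_union, Set.mem_union, not_or, not_or] at hcon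
      obtain ⟨hc1, hc2, hc3⟩ := hcon
      apply hp2
      constructor
      · apply good_of_not_exc h3 B (8 * n * (4 * T)) N C Ns hB hcurve c hc0 hc f R hR p hp1
        intro h hexc
        exact hc3 ⟨hp1, fun h' => hc2 ⟨hp1, h'⟩, h, hexc⟩
      · intro i
        by_contra hi
        exact hc1 ⟨hp1, i, by omega⟩
    have hcard : Nat.card (BadZ R B f) ≤ Nat.card X1 + (Nat.card X2 + Nat.card X3) := by
      simp only [Nat.card_coe_set_eq]
      refine (Set.ncard_le_ncard hsub (Set.toFinite _)).trans ?_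
      refine (Set.ncard_union_le _ _).trans ?_
      exact Nat.add_le_add_left (Set.ncard_union_le _ _) _
    have hfin : 4 * (T * Nat.card (BadZ R B f)) ≤ 4 * Zc f := by
      calc 4 * (T * Nat.card (BadZ R B f)) = 4 * T * Nat.card (BadZ R B f) := by ring
        _ ≤ 4 * T * (Nat.card X1 + (Nat.card X2 + Nat.card X3)) := Nat.mul_le_mul_left _ hcard
        _ = 4 * T * Nat.card X1 + (4 * T * Nat.card X2 + 4 * T * Nat.card X3) := by ring
        _ ≤ 4 * Zc f := by omega
    have hfin2 : T * Nat.card (BadZ R B f) ≤ Zc f := by omega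
    refine le_trans (Nat.mul_le_mul_right _ ?_) hfin2
    omega

end Run7.h130
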