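import Pool.Agent.Run7.h130.Iface

/-!
# Zero counts under field extension (P9b)
-/

set_option autoImplicit false

namespace Run7.h130

open Module

namespace ZeroKAux

variable {F : Type} [Field F] {e l : ℕ} {A W : Type} [AddCommGroup A] [Module F A]
  [AddCommGroup W] [Module F W]

/-- zeros of the `α`-th coordinate section -/
def Sa (f : ML F e A W) (α : Fin e → Fin l) : Set (Fin e × Fin l → A) :=
  {x | f (fun i => x (i, α i)) = 0}

theorem Sa_multi (f : ML F e A W) (α : Fin e → Fin l) : MultiSub (Sa f α) := by
  intro x ia a b ha hb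
  obtain ⟨i, j⟩ := ia
  simp only [Sa, Set.mem_setOf_eq] at ha hb ⊢
  by_cases hj : j = α i
  · subst hj
    have key : ∀ c : A, (fun i' : Fin e => Function.update x (i, α i) c (i', α i')) =
        Function.update (fun i' => x (i', α i')) i c := by
      intro c
      funext i'
      by_cases hi : i' = i
      · subst hi; simp
      · rw [Function.update_of_ne hi, Function.update_of_ne]
        intro h
        exact hi (congrArg Prod.fst h)
    rw [key] at ha hb ⊢
    rw [f.map_update_sub, ha, hb, sub_zero]
  · have key : ∀ c : A, (fun i' : Fin e => Function.update x (i, j) c (i', α i')) =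
        (fun i' => x (i', α i')) := by
      intro c
      funext i'
      rw [Function.update_of_ne]
      intro h
      have h1 := congrArg Prod.fst h
      have h2 := congrArg Prod.snd h
      simp only at h1 h2
      subst h1
      exact hj h2.symm
    rw [key] at ha ⊢
    exact ha

/-- replace the `α`-section of `x` by `y` -/
def rep (α : Fin e → Fin l) (x : Fin e × Fin l → A) (y : Fin e → A) : Fin e × Fin l → A :=
  fun p => if p.2 = α p.1 then y p.1 else x p

theorem rep_sec (α : Fin e → Fin l) (x : Fin e × Fin l → A) (y : Fin e → A) :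
    (fun i => rep α x y (i, α i)) = y := by
  funext i; simp [rep]

theorem rep_rep (α : Fin e → Fin l) (x : Fin e × Fin l → A) (y : Fin e → A) :
    rep α (rep α x y) (fun i => x (i, α i)) = x := by
  funext p
  obtain ⟨i, j⟩ := p
  simp only [rep]
  split_ifs with h
  · rw [h]
  · rfl

theorem card_Sa [Finite A] (f : ML F e A W) (α : Fin e → Fin l) :
    Nat.card (Sa f α) * Nat.card A ^ e = Zc f * Nat.card (Fin e × Fin l → A) := by
  have h1 : Nat.card A ^ e = Nat.card (Fin e → A) := by
    rw [Nat.card_fun, Nat.card_eq_fintype_card (α := Fin e), Fintype.card_fin]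
  rw [h1, Zc, ← Nat.card_prod, ← Nat.card_prod]
  apply Nat.card_congr
  exact
    { toFun := fun p => (⟨fun i => p.1.1 (i, α i), p.1.2⟩, rep α p.1.1 p.2)
      invFun := fun p => (⟨rep α p.2 p.1.1, by
        simp only [Sa, Set.mem_setOf_eq, rep_sec]; exact p.1.2⟩, fun i => p.2 (i, α i))
      left_inv := by
        rintro ⟨⟨x, hx⟩, y⟩
        simp only [rep_rep, rep_sec]
      right_inv := by
        rintro ⟨⟨y, hy⟩, x⟩
        simp only [rep_rep, rep_sec] }

/-- the intersection of the sections -/
def Si (f : ML F e A W) (s : Finset (Fin e → Fin l)) : Set (Fin e × Fin l → A) :=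
  {x | ∀ α ∈ s, x ∈ Sa f α}

theorem Si_multi (f : ML F e A W) (s : Finset (Fin e → Fin l)) : MultiSub (Si f s) := by
  intro x i a b ha hb α hα
  exact Sa_multi f α x i a b (ha α hα) (hb α hα)

theorem prod_le [Finite A] (hc : S_corr) (f : ML F e A W) (s : Finset (Fin e → Fin l)) :
    (∏ α ∈ s, Nat.card (Sa f α)) * Nat.card (Fin e × Fin l → A) ≤
      Nat.card (Si f s) * Nat.card (Fin e × Fin l → A) ^ s.card := by
  classical
  induction s using Finset.induction_on with
  | empty =>
    simp only [Finset.prod_empty, one_mul, Finset.card_empty, pow_zero, mul_one]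
    apply Nat.card_le_card_of_injective
      (fun x => (⟨x, by simp [Si]⟩ : Si f (∅ : Finset (Fin e → Fin l))))
    intro x y hxy
    exact congrArg Subtype.val hxy
  | insert a s ha ih =>
    rw [Finset.prod_insert ha, Finset.card_insert_of_notMem ha, mul_assoc]
    have h1 := hc (Fin e × Fin l) A (Sa f a) (Si f s) (Sa_multi f a) (Si_multi f s)
    have h2 : (Sa f a ∩ Si f s : Set (Fin e × Fin l → A)) = Si f (insert a s) := by
      ext x
      simp [Si]
    rw [h2] at h1
    have h3 : Nat.card A ^ Fintype.card (Fin e × Fin l) = Nat.card (Fin e × Fin l → A) := by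
      rw [Nat.card_fun, Nat.card_eq_fintype_card (α := Fin e × Fin l)]
    rw [h3] at h1
    calc Nat.card (Sa f a) * ((∏ α ∈ s, Nat.card (Sa f α)) * Nat.card (Fin e × Fin l → A))
        ≤ Nat.card (Sa f a) * (Nat.card (Si f s) * Nat.card (Fin e × Fin l → A) ^ s.card) :=
          Nat.mul_le_mul_left _ ih
      _ = (Nat.card (Sa f a) * Nat.card (Si f s)) * Nat.card (Fin e × Fin l → A) ^ s.card := by
          ring
      _ ≤ (Nat.card (Si f (insert a s)) * Nat.card (Fin e × Fin l → A)) *
          Nat.card (Fin e × Fin l → A) ^ s.card := Nat.mul_le_mul_right _ h1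
      _ = _ := by ring

end ZeroKAux

open ZeroKAux in
theorem zeroK (hc : S_corr) : S_zeroK := by
  intro F K _ _ _ _ _ e n f fK hf
  classical
  set l := finrank F K with hl
  have : Module.Finite F K := Module.Finite.of_finite
  let b : Basis (Fin l) F K := Module.finBasis F K
  -- `fK` vanishes at scalar extensions of zeros of `f`
  have hz : ∀ x : Fin e → Fin n → F, f x = 0 → fK (fun i j => algebraMap F K (x i j)) = 0 := by
    intro x hx
    apply LinearMap.pi_ext'
    intro j
    ext
    have h1 := hf x (Pi.single j 1)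
    have h2 : (fun j' => algebraMap F K ((Pi.single j 1 : Fin n → F) j')) =
        (Pi.single j 1 : Fin n → K) := by
      funext j'
      by_cases hj : j' = j
      · subst hj; simp
      · simp [hj]
    rw [h2, hx] at h1
    simpa using h1
  let ext : (Fin e × Fin l → (Fin n → F)) → (Fin e → Fin n → K) := fun x i =>
    ∑ a : Fin l, b a • (fun j => algebraMap F K (x (i, a) j))
  have hext : ∀ x, x ∈ Si f (Finset.univ : Finset (Fin e → Fin l)) → fK (ext x) = 0 := by
    intro x hx
    simp only [ext]
    rw [MultilinearMap.map_sum]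
    apply Finset.sum_eq_zero
    intro α _
    rw [MultilinearMap.map_smul_univ fK (fun i => b (α i))
      (fun i => (fun j => algebraMap F K (x (i, α i) j)))]
    rw [hz (fun i => x (i, α i)) (hx α (Finset.mem_univ _)), smul_zero]
  have hinj : Function.Injective ext := by
    intro x y hxy
    funext p j
    obtain ⟨i, a⟩ := p
    have h1 := congrFun (congrFun hxy i) j
    simp only [ext, Finset.sum_apply, Pi.smul_apply, smul_eq_mul] at h1
    have h2 : ∀ z : Fin e × Fin l → (Fin n → F), ∑ c : Fin l, b c * algebraMap F K (z (i, c) j) =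
        ∑ c : Fin l, z (i, c) j • b c := by
      intro z
      apply Finset.sum_congr rfl
      intro c _
      rw [Algebra.smul_def, mul_comm]
    rw [h2, h2] at h1
    have h3 := congrArg (fun v => b.repr v a) h1
    simpa [map_sum, Finsupp.single_apply] using h3
  have hcard : Nat.card (Si f (Finset.univ : Finset (Fin e → Fin l))) ≤ Zc fK := by
    unfold Zc
    apply Nat.card_le_card_of_injective (fun x : Si f (Finset.univ : Finset (Fin e → Fin l)) =>
      (⟨ext x.1, hext x.1 x.2⟩ : {x : Fin e → Fin n → K // fK x = 0}))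
    intro x y hxy
    exact Subtype.ext (hinj (congrArg Subtype.val hxy))
  have hp := prod_le hc f (Finset.univ : Finset (Fin e → Fin l))
  have hcu : (Finset.univ : Finset (Fin e → Fin l)).card = l ^ e := by
    simp [Fintype.card_fin]
  rw [hcu] at hp
  set X := Nat.card (Fin e × Fin l → (Fin n → F)) with hX
  have hXpos : 0 < X := Nat.card_pos
  have hA : Nat.card (Fin n → F) = Nat.card F ^ n := by
    rw [Nat.card_fun, Nat.card_eq_fintype_card (α := Fin n), Fintype.card_fin]
  have hXK : X = (Nat.card K ^ n) ^ e := by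
    rw [hX, Nat.card_fun, hA, Nat.card_eq_fintype_card (α := Fin e × Fin l), Fintype.card_prod,
      Fintype.card_fin, Fintype.card_fin, Module.natCard_eq_pow_finrank (K := F) (V := K), ← hl]
    rw [← pow_mul, ← pow_mul, ← pow_mul]
    congr 1
    ring
  have hmul : (∏ α : Fin e → Fin l, Nat.card (Sa f α)) * ((Nat.card F ^ n) ^ e) ^ (l ^ e) =
      Zc f ^ (l ^ e) * X ^ (l ^ e) := by
    rw [← hcu, ← Finset.prod_const, ← Finset.prod_mul_distrib, ← mul_pow, ← Finset.prod_const]
    apply Finset.prod_congr rfl
    intro α _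
    rw [← hA]
    exact card_Sa f α
  rw [← hXK]
  have h5 : (Zc f ^ (l ^ e) * X) * X ^ (l ^ e) ≤
      (Zc fK * ((Nat.card F ^ n) ^ e) ^ (l ^ e)) * X ^ (l ^ e) := by
    calc (Zc f ^ (l ^ e) * X) * X ^ (l ^ e)
        = (Zc f ^ (l ^ e) * X ^ (l ^ e)) * X := by ring
      _ = ((∏ α : Fin e → Fin l, Nat.card (Sa f α)) * X) * ((Nat.card F ^ n) ^ e) ^ (l ^ e) := by
          rw [← hmul]; ring
      _ ≤ (Nat.card (Si f (Finset.univ : Finset (Fin e → Fin l))) * X ^ (l ^ e)) *
          ((Nat.card F ^ n) ^ e) ^ (l ^ e) := Nat.mul_le_mul_right _ hp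
      _ ≤ (Zc fK * X ^ (l ^ e)) * ((Nat.card F ^ n) ^ e) ^ (l ^ e) := by gcongr
      _ = _ := by ring
  exact Nat.le_of_mul_le_mul_right h5 (pow_pos hXpos _)

end Run7.h130
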