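import Pool.Agent.Run7.h130.CC
import Pool.Agent.Run7.h130.Add
import Pool.Agent.Run7.h130.Curve
import Pool.Agent.Run7.h130.PRBasic
import Pool.Agent.Run7.h130.Reduction
import Pool.Agent.Run7.h130.FewZeros
import Pool.Agent.Run7.h130.Count
import Pool.Agent.Run7.h130.Pairs
import Pool.Agent.Run7.h130.Typical
import Pool.Agent.Run7.h130.Alg
import Pool.Agent.Run7.h130.Corr
import Pool.Agent.Run7.h130.ZeroK
import Pool.Agent.Run7.h130.Descent
import Pool.Agent.Run7.h130.Ext
import Pool.Agent.Run7.h130.Char
import Pool.Agent.Run7.h130.Tens
import Pool.Agent.Run7.h130.Schmidt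
import Pool.Agent.Run7.h130.Final

/-! Assembly of the pieces. -/

set_option autoImplicit false

namespace Run7.h130

/-- the linear bound over large finite fields -/
theorem large_thm : S_large :=
  large (typical pencil curve additivity pairs) (reduction count alg)

theorem final_thm : S_final :=
  final large_thm (zeroK corr) tens char schmidt descent ext fewzeros

end Run7.h130
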