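import Pool.Agent.Run7.h130.Defs

/-!
# Basic facts on `ML`, `app`, `Lm`, `dlin`, `dl`, `hat`, `Good`
-/

set_option autoImplicit false

namespace Run7.h130

open Module

section Basic

variable {F : Type} [Field F] {n : ℕ} {E W : Type} [AddCommGroup E] [Module F E]
  [AddCommGroup W] [Module F W]

theorem ML_ext_app {G H : ML F (n + 1) E W} (h : ∀ e, app G e = app H e) : G = H := by
  ext x
  have := congrArg (fun T : ML F n E W => T (Fin.tail x)) (h (x 0))
  simp only [app_apply, Fin.cons_self_tail] at this
  exact this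

theorem apply_eq_app (G : ML F (n + 1) E W) (x : Fin (n + 1) → E) :
    G x = app G (x 0) (Fin.tail x) := by
  rw [app_apply, Fin.cons_self_tail]

theorem Lm_zero (G : ML F (n + 1) E W) (p : Fin (n + 1) → E) (x : E) :
    Lm G p 0 x = app G x (Fin.tail p) := by
  rw [Lm_apply, app_apply]
  congr 1
  rw [← Fin.cons_self_tail p, Fin.update_cons_zero]
  simp

theorem Lm_succ (G : ML F (n + 1) E W) (p : Fin (n + 1) → E) (i : Fin n) :
    Lm G p i.succ = Lm (app G (p 0)) (Fin.tail p) i := by
  ext x
  rw [Lm_apply, Lm_apply, app_apply]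
  congr 1
  conv_lhs => rw [← Fin.cons_self_tail p]
  rw [Fin.cons_update]

theorem Lm_add (G H : ML F n E W) (p : Fin n → E) (i : Fin n) :
    Lm (G + H) p i = Lm G p i + Lm H p i := rfl

theorem Lm_smul (c : F) (G : ML F n E W) (p : Fin n → E) (i : Fin n) :
    Lm (c • G) p i = c • Lm G p i := rfl

theorem Lm_zero_map (p : Fin n → E) (i : Fin n) :
    Lm (0 : ML F n E W) p i = 0 := rfl

theorem Lm_sum {α : Type} (s : Finset α) (G : α → ML F n E W) (p : Fin n → E) (i : Fin n) :
    Lm (∑ a ∈ s, G a) p i = ∑ a ∈ s, Lm (G a) p i := by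
  ext x
  rw [Lm_apply, LinearMap.sum_apply]
  simp only [sum_apply, Lm_apply]

theorem Lm_self (G : ML F n E W) (p : Fin n → E) (i : Fin n) : Lm G p i (p i) = G p := by
  rw [Lm_apply, Function.update_eq_self]

theorem dl_add (A B A' B' : ML F n E W) : dl (A + A') (B + B') = dl A B + dl A' B' := by
  ext x
  · simp [dl_apply]
  · simp only [dl_apply, add_apply, Prod.snd_add, Finset.sum_add_distrib]
    abel

theorem dl_smul (c : F) (A B : ML F n E W) : dl (c • A) (c • B) = c • dl A B := by
  ext x
  · simp [dl_apply]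
  · simp only [dl_apply, smul_apply, Prod.smul_snd, ← Finset.smul_sum, smul_add]

theorem dl_zero_zero : dl (0 : ML F n E W) 0 = 0 := by
  have := dl_smul (0 : F) (0 : ML F n E W) 0
  simpa using this

theorem dl_sum {α : Type} (s : Finset α) (A B : α → ML F n E W) :
    dl (∑ a ∈ s, A a) (∑ a ∈ s, B a) = ∑ a ∈ s, dl (A a) (B a) := by
  classical
  induction s using Finset.induction_on with
  | empty => simp [dl_zero_zero]
  | insert a s ha ih => rw [Finset.sum_insert ha, Finset.sum_insert ha, Finset.sum_insert ha,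
      dl_add, ih]

theorem app_dl (A B : ML F (n + 1) E W) (e e' : E) :
    app (dl A B) (e, e') = dl (app A e) (app A e' + app B e) := by
  ext x
  · simp only [app_apply, dl_apply]
    congr 1
    funext j
    refine Fin.cases ?_ (fun j => ?_) j <;> simp
  · simp only [app_apply, dl_apply, add_apply]
    rw [Fin.sum_univ_succ]
    have h0 : (fun j : Fin (n + 1) => if j = 0 then
        ((Fin.cons (e, e') x : Fin (n + 1) → E × E) j).2 else
        ((Fin.cons (e, e') x : Fin (n + 1) → E × E) j).1) = Fin.cons e' (fun j => (x j).1) := by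
      funext j
      refine Fin.cases ?_ (fun j => ?_) j <;> simp
    have h1 : ∀ i : Fin n, (fun j : Fin (n + 1) => if j = i.succ then
        ((Fin.cons (e, e') x : Fin (n + 1) → E × E) j).2 else
        ((Fin.cons (e, e') x : Fin (n + 1) → E × E) j).1) =
        Fin.cons e (fun j => if j = i then (x j).2 else (x j).1) := by
      intro i
      funext j
      refine Fin.cases ?_ (fun j => ?_) j
      · simp [(Fin.succ_ne_zero i).symm]
      · simp
    have h2 : (fun j : Fin (n + 1) => ((Fin.cons (e, e') x : Fin (n + 1) → E × E) j).1) =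
        Fin.cons e (fun j => (x j).1) := by
      funext j
      refine Fin.cases ?_ (fun j => ?_) j <;> simp
    rw [h0, h2]
    simp only [h1]
    abel

theorem dl_hat (A B : ML F n E W) (p : Fin n → E) : dl A B (hat p) = (A p, B p) := by
  rw [dl_apply]
  ext
  · rfl
  · have : ∀ i : Fin n, A (fun j => if j = i then (hat p j).2 else (hat p j).1) = 0 := by
      intro i
      apply A.map_coord_zero i
      simp [hat]
    simp only [this, Finset.sum_const_zero, zero_add]
    rfl

theorem tail_hat (p : Fin (n + 1) → E) : Fin.tail (hat p) = hat (Fin.tail p) := rfl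

theorem hat_zero' (p : Fin (n + 1) → E) : hat p 0 = (p 0, 0) := rfl

theorem Lm_dl_hat (A B : ML F n E W) (p : Fin n → E) (i : Fin n) :
    Lm (dl A B) (hat p) i = dlin (Lm A p i) (Lm B p i) := by
  induction n with
  | zero => exact i.elim0
  | succ n ih =>
    refine Fin.cases ?_ (fun i => ?_) i
    · refine LinearMap.ext fun z => ?_
      obtain ⟨x, y⟩ := z
      rw [Lm_zero, app_dl, tail_hat, dl_hat, dlin_apply, Lm_zero, Lm_zero, Lm_zero]
      rfl
    · rw [Lm_succ, Lm_succ, Lm_succ, tail_hat, hat_zero', app_dl, ih]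
      simp

end Basic

end Run7.h130
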