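import Pool.Agent.Run7.h130.Iface
import Pool.Agent.Run7.h130.GoodB

/-!
# Curves in kernels: `S_CC` and `S_pencil`
-/

set_option autoImplicit false

namespace Run7.h130

open Module

section curves

variable {F : Type} [Field F]

theorem fr_map' {M N : Type} [AddCommGroup M] [Module F M] [AddCommGroup N] [Module F N]
    (f : M →ₗ[F] N) (S : Submodule F M) [FiniteDimensional F S] :
    finrank F (S.map f) + finrank F (S ⊓ LinearMap.ker f : Submodule F M) = finrank F S := by
  have h3 := LinearMap.finrank_range_add_finrank_ker (f.domRestrict S)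
  rw [LinearMap.range_domRestrict, LinearMap.ker_domRestrict] at h3
  have h4 : finrank F (Submodule.comap S.subtype (LinearMap.ker f)) = finrank F
      (S ⊓ LinearMap.ker f : Submodule F M) := by
    rw [← Submodule.finrank_map_subtype_eq, Submodule.map_comap_subtype]
  rw [h4] at h3
  exact h3

/-- cutting down by a linear condition `f x ∈ T`, when `f` maps `S` to `U ≥ T` -/
theorem cut {M N : Type} [AddCommGroup M] [Module F M] [AddCommGroup N] [Module F N]
    [FiniteDimensional F N] (f : M →ₗ[F] N) (S : Submodule F M) [FiniteDimensional F S]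
    (T U : Submodule F N) (hT : T ≤ U) (hS : S.map f ≤ U) :
    finrank F S + finrank F T ≤ finrank F (S ⊓ T.comap f : Submodule F M) + finrank F U := by
  have : FiniteDimensional F (S ⊓ T.comap f : Submodule F M) :=
    Submodule.finiteDimensional_of_le inf_le_left
  have h1 := fr_map' f S
  have h2 := fr_map' f (S ⊓ T.comap f)
  have h3 : (S ⊓ T.comap f).map f = S.map f ⊓ T := by
    ext y
    simp only [Submodule.mem_map, Submodule.mem_inf, Submodule.mem_comap]
    constructor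
    · rintro ⟨x, ⟨h1, h2⟩, rfl⟩
      exact ⟨⟨x, h1, rfl⟩, h2⟩
    · rintro ⟨⟨x, h1, rfl⟩, h2⟩
      exact ⟨x, ⟨h1, h2⟩, rfl⟩
  have h4 : (S ⊓ T.comap f) ⊓ LinearMap.ker f = S ⊓ LinearMap.ker f := by
    ext x
    simp only [Submodule.mem_inf, Submodule.mem_comap, LinearMap.mem_ker]
    constructor
    · rintro ⟨⟨a, _⟩, b⟩
      exact ⟨a, b⟩
    · rintro ⟨a, b⟩
      exact ⟨⟨a, by rw [b]; exact T.zero_mem⟩, b⟩
  have h5 := Submodule.finrank_sup_add_finrank_inf_eq (S.map f) T
  have h6 : finrank F (S.map f ⊔ T : Submodule F N) ≤ finrank F U :=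
    Submodule.finrank_mono (sup_le hS hT)
  rw [h3, h4] at h2
  omega

/-- Vandermonde for module valued polynomials -/
theorem vand {W : Type} [AddCommGroup W] [Module F W] (d : ℕ) (c : ℕ → F)
    (hc : Set.InjOn c (Set.Iio d)) (w : ℕ → W)
    (h : ∀ j < d, ∑ b ∈ Finset.range d, c j ^ b • w b = 0) : ∀ b < d, w b = 0 := by
  intro b hb
  rw [← Module.forall_dual_apply_eq_zero_iff F]
  intro φ
  set p : Polynomial F := ∑ b ∈ Finset.range d, Polynomial.C (φ (w b)) * Polynomial.X ^ b with hp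
  have hcoef : p.coeff b = φ (w b) := by
    rw [hp, Polynomial.finsetSum_coeff]
    simp only [Polynomial.coeff_C_mul_X_pow]
    rw [Finset.sum_ite_eq]
    simp [hb]
  have hdeg : p.natDegree < Fintype.card (Fin d) := by
    rw [Fintype.card_fin]
    refine lt_of_le_of_lt (Polynomial.natDegree_sum_le_of_forall_le (n := d - 1) _ _ ?_) (by omega)
    intro i hi
    refine (Polynomial.natDegree_C_mul_X_pow_le _ _).trans ?_
    have := Finset.mem_range.mp hi
    omega
  have hz : p = 0 := by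
    refine Polynomial.eq_zero_of_natDegree_lt_card_of_eval_eq_zero p
      (f := fun i : Fin d => c i) ?_ ?_ hdeg
    · intro i j hij
      exact Fin.ext (hc i.2 j.2 hij)
    · intro i
      have := congrArg φ (h i i.2)
      rw [map_sum, map_zero] at this
      rw [hp, Polynomial.eval_finsetSum, ← this]
      apply Finset.sum_congr rfl
      intro b _
      rw [Polynomial.eval_mul, Polynomial.eval_C, Polynomial.eval_pow, Polynomial.eval_X,
        map_smul, smul_eq_mul, mul_comm]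
  rw [← hcoef, hz, Polynomial.coeff_zero]

variable {E W : Type} [AddCommGroup E] [Module F E] [AddCommGroup W] [Module F W]

/-- evaluation of a curve -/
noncomputable def evc (M : ℕ) (c : F) : (ℕ → E) →ₗ[F] E :=
  ∑ a ∈ Finset.range M, c ^ a • LinearMap.proj a

theorem evc_apply (M : ℕ) (c : F) (ξ : ℕ → E) :
    evc M c ξ = ∑ a ∈ Finset.range M, c ^ a • ξ a := by
  simp [evc]

/-- curves supported below `d` -/
def SS (F : Type) [Field F] (E : Type) [AddCommGroup E] [Module F E] (d : ℕ) :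
    Submodule F (ℕ → E) where
  carrier := {ξ | ∀ a, d ≤ a → ξ a = 0}
  add_mem' := by
    intro x y hx hy a ha
    simp [hx a ha, hy a ha]
  zero_mem' := by
    intro a _
    rfl
  smul_mem' := by
    intro c x hx a ha
    simp [hx a ha]

theorem mem_SS {d : ℕ} {ξ : ℕ → E} : ξ ∈ SS F E d ↔ ∀ a, d ≤ a → ξ a = 0 := Iff.rfl

/-- the inclusion of `Fin d → E` -/
def incl (F : Type) [Field F] (E : Type) [AddCommGroup E] [Module F E] (d : ℕ) :
    (Fin d → E) →ₗ[F] (ℕ → E) where
  toFun x := fun a => if h : a < d then x ⟨a, h⟩ else 0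
  map_add' := by
    intro x y
    funext a
    by_cases h : a < d <;> simp [h]
  map_smul' := by
    intro c x
    funext a
    by_cases h : a < d <;> simp [h]

theorem incl_inj (d : ℕ) : Function.Injective (incl F E d) := by
  intro x y hxy
  funext i
  have := congrFun hxy i
  simpa [incl] using this

theorem SS_eq (d : ℕ) : SS F E d = LinearMap.range (incl F E d) := by
  ext ξ
  rw [mem_SS, LinearMap.mem_range]
  constructor
  · intro h
    refine ⟨fun i => ξ i, ?_⟩
    funext a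
    by_cases ha : a < d
    · simp [incl, ha]
    · simp [incl, ha, h a (not_lt.mp ha)]
  · rintro ⟨x, rfl⟩ a ha
    simp [incl, not_lt.mpr ha]

instance (d : ℕ) [FiniteDimensional F E] : FiniteDimensional F (SS F E d) := by
  rw [SS_eq]
  infer_instance

theorem finrank_SS (d : ℕ) [FiniteDimensional F E] : finrank F (SS F E d) = d * finrank F E := by
  rw [SS_eq, LinearMap.finrank_range_of_inj (incl_inj d), Module.finrank_pi_fintype]
  simp

theorem SS_mono {d d' : ℕ} (h : d ≤ d') : SS F E d ≤ SS F E d' :=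
  fun _ hξ a ha => hξ a (h.trans ha)

theorem evc_of_SS {M d : ℕ} (hM : d ≤ M) (c : F) (ξ : ℕ → E) (hξ : ξ ∈ SS F E d) :
    evc M c ξ = ∑ a ∈ Finset.range d, c ^ a • ξ a := by
  rw [evc_apply]
  symm
  apply Finset.sum_subset (Finset.range_mono hM)
  intro a _ ha
  rw [hξ a (by simpa using ha), smul_zero]

/-- coefficients of `L(c) ξ(c)` -/
noncomputable def wc (m : ℕ) (L : ℕ → (E →ₗ[F] W)) (ξ : ℕ → E) (b : ℕ) : W :=
  ∑ a ∈ Finset.range (m + 1), if a ≤ b then L a (ξ (b - a)) else 0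

theorem prod_eval (m d M : ℕ) (hM : d ≤ M) (L : ℕ → (E →ₗ[F] W)) (ξ : ℕ → E)
    (hξ : ξ ∈ SS F E d) (c : F) :
    (∑ a ∈ Finset.range (m + 1), c ^ a • L a) (evc M c ξ) =
      ∑ b ∈ Finset.range (m + d), c ^ b • wc m L ξ b := by
  rw [evc_of_SS hM c ξ hξ, LinearMap.sum_apply]
  unfold wc
  simp only [Finset.smul_sum]
  rw [Finset.sum_comm]
  apply Finset.sum_congr rfl
  intro a ha
  have ha' : a < m + 1 := Finset.mem_range.mp ha
  have hsub : Finset.Ico a (a + d) ⊆ Finset.range (m + d) := by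
    intro b hb
    rw [Finset.mem_Ico] at hb
    rw [Finset.mem_range]
    omega
  rw [← Finset.sum_subset hsub]
  · rw [Finset.sum_Ico_eq_sum_range, map_sum]
    have : a + d - a = d := by omega
    rw [this]
    apply Finset.sum_congr rfl
    intro a' _
    rw [LinearMap.smul_apply, map_smul, smul_smul, ← pow_add, if_pos (by omega)]
    congr 3
    omega
  · intro b _ hb
    rw [Finset.mem_Ico, not_and_or, not_le, not_lt] at hb
    rcases hb with hb | hb
    · rw [if_neg (by omega), smul_zero]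
    · rw [if_pos (by omega), hξ (b - a) (by omega), map_zero, smul_zero]

theorem wc_top {m D : ℕ} (L : ℕ → (E →ₗ[F] W)) (ξ : ℕ → E) (hξ : ξ ∈ SS F E (D + 1)) :
    wc m L ξ (m + D) = L m (ξ D) := by
  unfold wc
  rw [Finset.sum_range_succ, Finset.sum_eq_zero]
  · rw [if_pos (by omega), zero_add]
    congr 2
    omega
  · intro a ha
    have ha' : a < m := Finset.mem_range.mp ha
    rw [if_pos (by omega), hξ _ (by omega), map_zero]

theorem wc_top' {m D : ℕ} (hm : 1 ≤ m) (hD : 1 ≤ D) (L : ℕ → (E →ₗ[F] W)) (ξ : ℕ → E)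
    (hξ : ξ ∈ SS F E (D + 1)) :
    wc m L ξ (m + D - 1) = L m (ξ (D - 1)) + L (m - 1) (ξ D) := by
  obtain ⟨m, rfl⟩ : ∃ m', m = m' + 1 := ⟨m - 1, by omega⟩
  unfold wc
  rw [Finset.sum_range_succ, Finset.sum_range_succ, Finset.sum_eq_zero]
  · rw [if_pos (by omega), if_pos (by omega), zero_add, add_comm]
    congr 3 <;> omega
  · intro a ha
    have ha' : a < m := Finset.mem_range.mp ha
    rw [if_pos (by omega), hξ _ (by omega), map_zero]

/-- the space of curves of degree `< d` meeting `Ξ j` at the nodes `j < s` -/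
noncomputable def KK (M : ℕ) (c : ℕ → F) (Ξ : ℕ → Submodule F E) (s d : ℕ) : Submodule F (ℕ → E) :=
  SS F E d ⊓ ⨅ j : Fin s, (Ξ j).comap (evc M (c j))

theorem mem_KK {M : ℕ} {c : ℕ → F} {Ξ : ℕ → Submodule F E} {s d : ℕ} {ξ : ℕ → E} :
    ξ ∈ KK M c Ξ s d ↔ ξ ∈ SS F E d ∧ ∀ j < s, evc M (c j) ξ ∈ Ξ j := by
  unfold KK
  rw [Submodule.mem_inf, Submodule.mem_iInf]
  constructor
  · rintro ⟨h1, h2⟩
    exact ⟨h1, fun j hj => h2 ⟨j, hj⟩⟩
  · rintro ⟨h1, h2⟩
    exact ⟨h1, fun j => h2 j j.2⟩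

instance (M : ℕ) (c : ℕ → F) (Ξ : ℕ → Submodule F E) (s d : ℕ) [FiniteDimensional F E] :
    FiniteDimensional F (KK M c Ξ s d) :=
  Submodule.finiteDimensional_of_le inf_le_left

theorem KK_succ {M : ℕ} {c : ℕ → F} {Ξ : ℕ → Submodule F E} {s d : ℕ} :
    KK M c Ξ (s + 1) d = KK M c Ξ s d ⊓ (Ξ s).comap (evc M (c s)) := by
  ext ξ
  rw [Submodule.mem_inf, mem_KK, mem_KK, Submodule.mem_comap]
  constructor
  · rintro ⟨h1, h2⟩
    exact ⟨⟨h1, fun j hj => h2 j (by omega)⟩, h2 s (by omega)⟩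
  · rintro ⟨⟨h1, h2⟩, h3⟩
    refine ⟨h1, fun j hj => ?_⟩
    rcases Nat.lt_succ_iff_lt_or_eq.mp hj with h | rfl
    · exact h2 j h
    · exact h3

/-- the curves through the kernels at `m + d` nodes: `L(c) ξ(c)` vanishes identically -/
theorem wc_eq_zero {m M d N s : ℕ} (hM : d ≤ M) {c : ℕ → F} (hc : Set.InjOn c (Set.Iio N))
    {L : ℕ → (E →ₗ[F] W)} {Ξ : ℕ → Submodule F E}
    (hΞ : ∀ j < N, Ξ j ≤ LinearMap.ker (∑ a ∈ Finset.range (m + 1), c j ^ a • L a))
    (hs : m + d ≤ s) (hsN : s ≤ N) {ξ : ℕ → E} (hξ : ξ ∈ KK M c Ξ s d) :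
    ∀ b < m + d, wc m L ξ b = 0 := by
  rw [mem_KK] at hξ
  apply vand (m + d) c (hc.mono (Set.Iio_subset_Iio (by omega)))
  intro j hj
  rw [← prod_eval m d M hM L ξ hξ.1 (c j)]
  exact hΞ j (by omega) (hξ.2 j (by omega))

theorem eval_mem_ker {m M d N s : ℕ} (hM : d ≤ M) {c : ℕ → F} (hc : Set.InjOn c (Set.Iio N))
    {L : ℕ → (E →ₗ[F] W)} {Ξ : ℕ → Submodule F E}
    (hΞ : ∀ j < N, Ξ j ≤ LinearMap.ker (∑ a ∈ Finset.range (m + 1), c j ^ a • L a))
    (hs : m + d ≤ s) (hsN : s ≤ N) {ξ : ℕ → E} (hξ : ξ ∈ KK M c Ξ s d) (x : F) :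
    evc M x ξ ∈ LinearMap.ker (∑ a ∈ Finset.range (m + 1), x ^ a • L a) := by
  rw [LinearMap.mem_ker, prod_eval m d M hM L ξ (mem_KK.mp hξ).1 x]
  apply Finset.sum_eq_zero
  intro b hb
  rw [wc_eq_zero hM hc hΞ hs hsN hξ b (Finset.mem_range.mp hb), smul_zero]

/-- dimension count, first `m + d` nodes -/
theorem dim_first [FiniteDimensional F E] {M d : ℕ} {c : ℕ → F} {Ξ : ℕ → Submodule F E} (s : ℕ)
    (x : ℕ → ℕ) (hx : ∀ j < s, finrank F E ≤ finrank F (Ξ j) + x j) :
    d * finrank F E ≤ finrank F (KK M c Ξ s d) + ∑ j ∈ Finset.range s, x j := by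
  induction s with
  | zero =>
    have : KK M c Ξ 0 d = SS F E d := by
      ext ξ
      rw [mem_KK]
      simp
    rw [this, finrank_SS]
    simp
  | succ s ih =>
    have h1 := ih (fun j hj => hx j (by omega))
    have h2 := cut (evc M (c s)) (KK M c Ξ s d) (Ξ s) ⊤ le_top le_top
    rw [← KK_succ, finrank_top] at h2
    rw [Finset.sum_range_succ]
    have := hx s (by omega)
    omega

theorem dim_rest [FiniteDimensional F E] {m M d N : ℕ} (hM : d ≤ M) {c : ℕ → F}
    (hc : Set.InjOn c (Set.Iio N))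
    {L : ℕ → (E →ₗ[F] W)} {Ξ : ℕ → Submodule F E}
    (hΞ : ∀ j < N, Ξ j ≤ LinearMap.ker (∑ a ∈ Finset.range (m + 1), c j ^ a • L a))
    {θ : ℕ} (hθ : ∀ j < N, finrank F
      (LinearMap.ker (∑ a ∈ Finset.range (m + 1), c j ^ a • L a)) ≤ finrank F (Ξ j) + θ)
    (r : ℕ) (hr : m + d + r ≤ N) :
    finrank F (KK M c Ξ (m + d) d) ≤ finrank F (KK M c Ξ (m + d + r) d) + r * θ := by
  induction r with
  | zero => simp
  | succ r ih =>
    have h1 := ih (by omega)
    have h2 := cut (evc M (c (m + d + r))) (KK M c Ξ (m + d + r) d) (Ξ (m + d + r))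
      (LinearMap.ker (∑ a ∈ Finset.range (m + 1), c (m + d + r) ^ a • L a))
      (hΞ _ (by omega)) (by
        rintro _ ⟨ξ, hξ, rfl⟩
        exact eval_mem_ker hM hc hΞ (by omega) (by omega) hξ _)
    rw [← KK_succ] at h2
    have h3 := hθ (m + d + r) (by omega)
    rw [← add_assoc]
    have : (r + 1) * θ = r * θ + θ := by ring
    omega

/-- leading coefficients -/
noncomputable def EE (M : ℕ) (c : ℕ → F) (Ξ : ℕ → Submodule F E) (s d : ℕ) : Submodule F E :=
  (KK M c Ξ s (d + 1)).map (LinearMap.proj d)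

theorem KK_lead [FiniteDimensional F E] (M : ℕ) (c : ℕ → F) (Ξ : ℕ → Submodule F E) (s d : ℕ) :
    finrank F (EE M c Ξ s d) + finrank F (KK M c Ξ s d) = finrank F (KK M c Ξ s (d + 1)) := by
  have h := fr_map' (LinearMap.proj d : (ℕ → E) →ₗ[F] E) (KK M c Ξ s (d + 1))
  have h2 : KK M c Ξ s (d + 1) ⊓ LinearMap.ker (LinearMap.proj d : (ℕ → E) →ₗ[F] E) =
      KK M c Ξ s d := by
    ext ξ
    rw [Submodule.mem_inf, mem_KK, mem_KK, LinearMap.mem_ker, LinearMap.proj_apply]
    constructor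
    · rintro ⟨⟨h1, h2⟩, h3⟩
      refine ⟨fun a ha => ?_, h2⟩
      rcases Nat.eq_or_lt_of_le ha with rfl | h
      · exact h3
      · exact h1 a h
    · rintro ⟨h1, h2⟩
      exact ⟨⟨fun a ha => h1 a (by omega), h2⟩, h1 d le_rfl⟩
  rw [h2] at h
  exact h

theorem EE_mono (M : ℕ) (c : ℕ → F) (Ξ : ℕ → Submodule F E) (s d : ℕ) (hd : d + 2 ≤ M) :
    EE M c Ξ s d ≤ EE M c Ξ s (d + 1) := by
  rintro _ ⟨ξ, hξ, rfl⟩
  rw [SetLike.mem_coe, mem_KK] at hξ
  refine ⟨fun a => if a = 0 then 0 else ξ (a - 1), ?_, ?_⟩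
  · rw [SetLike.mem_coe, mem_KK]
    have hS : (fun a => if a = 0 then 0 else ξ (a - 1)) ∈ SS F E (d + 1 + 1) := by
      intro a ha
      dsimp only
      rw [if_neg (by omega), hξ.1 _ (by omega)]
    refine ⟨hS, fun j hj => ?_⟩
    have : evc M (c j) (fun a => if a = 0 then 0 else ξ (a - 1)) = c j • evc M (c j) ξ := by
      rw [evc_of_SS (by omega) _ _ hS, evc_of_SS (by omega) _ _ hξ.1, Finset.sum_range_succ',
        Finset.smul_sum]
      simp [pow_succ', smul_smul]
    rw [this]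
    exact (Ξ j).smul_mem _ (hξ.2 j hj)
  · simp

theorem EE_mono' [FiniteDimensional F E] (M : ℕ) (c : ℕ → F) (Ξ : ℕ → Submodule F E) (s d e : ℕ)
    (hde : d ≤ e) (hd : e + 1 ≤ M) :
    finrank F (EE M c Ξ s d) ≤ finrank F (EE M c Ξ s e) := by
  induction e, hde using Nat.le_induction with
  | base => exact le_rfl
  | succ e he ih =>
    exact (ih (by omega)).trans (Submodule.finrank_mono (EE_mono M c Ξ s e (by omega)))

theorem KK_le_lead [FiniteDimensional F E] (M : ℕ) (c : ℕ → F) (Ξ : ℕ → Submodule F E)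
    (s D d : ℕ) (hd : d ≤ D + 1) (hD : D + 1 ≤ M) :
    finrank F (KK M c Ξ s d) ≤ d * finrank F (EE M c Ξ s D) := by
  induction d with
  | zero =>
    have : KK M c Ξ s 0 = ⊥ := by
      rw [Submodule.eq_bot_iff]
      intro ξ hξ
      rw [mem_KK] at hξ
      funext a
      exact hξ.1 a (by omega)
    rw [this, finrank_bot]
    omega
  | succ d ih =>
    have h1 := KK_lead M c Ξ s d
    have h2 := ih (by omega)
    have h3 := EE_mono' M c Ξ s d D (by omega) hD
    have : (d + 1) * finrank F (EE M c Ξ s D) = d * finrank F (EE M c Ξ s D) +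
      finrank F (EE M c Ξ s D) := by ring
    omega

end curves

theorem pencil : S_pencil := by
  intro F _ E W _ _ _ _ _ _ N c hc L₀ L₁
  rcases Nat.lt_or_ge N 2 with hN | hN
  · have : N - 1 = 0 := by omega
    rw [this, zero_mul]
    exact Nat.zero_le _
  obtain ⟨D, rfl⟩ : ∃ D, N = D + 2 := ⟨N - 2, by omega⟩
  set L : ℕ → (E →ₗ[F] W) := fun a => if a = 0 then L₀ else L₁ with hL
  have hLc : ∀ x : F, ∑ a ∈ Finset.range (1 + 1), x ^ a • L a = L₀ + x • L₁ := by
    intro x
    simp [Finset.sum_range_succ, hL]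
  set Ξ : ℕ → Submodule F E := fun j =>
    LinearMap.ker (∑ a ∈ Finset.range (1 + 1), c j ^ a • L a) with hΞ
  have h1 := dim_first (M := D + 1) (d := D + 1) (c := c) (Ξ := Ξ) (D + 2)
    (fun j => rk (L₀ + c j • L₁)) (by
      intro j _
      have := rk_add_ker (L₀ + c j • L₁)
      change finrank F E ≤ finrank F (LinearMap.ker (∑ a ∈ Finset.range (1 + 1), c j ^ a • L a)) +
        rk (L₀ + c j • L₁)
      rw [hLc]
      omega)
  have h2 := KK_le_lead (D + 1) c Ξ (D + 2) D (D + 1) le_rfl le_rfl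
  have h3 : EE (D + 1) c Ξ (D + 2) D ≤ LinearMap.ker L₁ := by
    rintro _ ⟨ξ, hξ, rfl⟩
    rw [SetLike.mem_coe] at hξ
    have h4 := wc_eq_zero (m := 1) (L := L) (N := D + 2) (s := D + 2) (d := D + 1) le_rfl hc
      (fun j _ => le_rfl) (by omega) le_rfl hξ (1 + D) (by omega)
    rw [wc_top L ξ (mem_KK.mp hξ).1] at h4
    simpa [hL] using h4
  have h4 := Submodule.finrank_mono h3
  have h5 := rk_add_ker L₁
  have h6 : (D + 1) * finrank F (EE (D + 1) c Ξ (D + 2) D) ≤
      (D + 1) * finrank F (LinearMap.ker L₁) := Nat.mul_le_mul_left _ h4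
  have h7 : (D + 1) * finrank F E = (D + 1) * rk L₁ + (D + 1) * finrank F (LinearMap.ker L₁) := by
    rw [← h5]
    ring
  have h8 : D + 2 - 1 = D + 1 := by omega
  rw [h8]
  omega

theorem CC : S_CC := by
  intro F _ E W _ _ _ _ _ _ m D N hm hD hN c hc L Ξ k K X θ hΞ hθ hk hsum hK
  have hfin : ∀ j < N, finrank F E ≤ finrank F (Ξ j) + (k j + 2 * θ) := by
    intro j hj
    have h1 := rk_add_ker (∑ a ∈ Finset.range (m + 1), c j ^ a • L a)
    have h2 := hθ j hj
    have h3 := hk j hj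
    omega
  have h1 := dim_first (M := D + 1) (d := D) (c := c) (Ξ := Ξ) (m + D)
    (fun j => k j + 2 * θ) (fun j hj => hfin j (by omega))
  have h2 := dim_rest (m := m) (M := D + 1) (d := D) (N := N) (by omega) hc hΞ hθ (N - (m + D))
    (by omega)
  have h3 : m + D + (N - (m + D)) = N := by omega
  rw [h3] at h2
  have h4 := KK_le_lead (D + 1) c Ξ N (D - 1) D (by omega) (by omega)
  set f : (ℕ → E) →ₗ[F] E × E := (LinearMap.proj D).prod (LinearMap.proj (D - 1)) with hf
  have h5 := fr_map' f (KK (D + 1) c Ξ N (D + 1))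
  have h6 : KK (D + 1) c Ξ N (D + 1) ⊓ LinearMap.ker f = KK (D + 1) c Ξ N (D - 1) := by
    ext ξ
    rw [Submodule.mem_inf, mem_KK, mem_KK, LinearMap.mem_ker]
    have hfξ : f ξ = (ξ D, ξ (D - 1)) := rfl
    rw [hfξ, Prod.mk_eq_zero]
    constructor
    · rintro ⟨⟨h1, h2⟩, h3, h4⟩
      refine ⟨fun a ha => ?_, h2⟩
      rcases Nat.lt_or_ge a (D + 1) with h | h
      · rcases Nat.lt_or_ge a D with h' | h'
        · have : a = D - 1 := by omega
          rw [this]
          exact h4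
        · have : a = D := by omega
          rw [this]
          exact h3
      · exact h1 a h
    · rintro ⟨h1, h2⟩
      exact ⟨⟨fun a ha => h1 a (by omega), h2⟩, h1 D (by omega), h1 (D - 1) (by omega)⟩
  rw [h6] at h5
  have h7 := KK_lead (D + 1) c Ξ N D
  have h8 := KK_lead (D + 1) c Ξ N (D - 1)
  have h9 : D - 1 + 1 = D := by omega
  rw [h9] at h8
  have h10 := EE_mono' (D + 1) c Ξ N (D - 1) D (by omega) (by omega)
  have h11 : (KK (D + 1) c Ξ N (D + 1)).map f ≤ LinearMap.ker (dlin (L m) (L (m - 1))) := by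
    rintro _ ⟨ξ, hξ, rfl⟩
    rw [SetLike.mem_coe] at hξ
    have h := wc_eq_zero (m := m) (N := N) (s := N) (d := D + 1) le_rfl hc hΞ (by omega) le_rfl hξ
    have ha := h (m + D) (by omega)
    have hb := h (m + D - 1) (by omega)
    rw [wc_top L ξ (mem_KK.mp hξ).1] at ha
    rw [wc_top' hm hD L ξ (mem_KK.mp hξ).1] at hb
    rw [LinearMap.mem_ker]
    change dlin (L m) (L (m - 1)) (ξ D, ξ (D - 1)) = 0
    rw [dlin_apply, ha, hb]
    rfl
  have h12 := Submodule.finrank_mono h11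
  have h13 := rk_add_ker (dlin (L m) (L (m - 1)))
  rw [Module.finrank_prod] at h13
  have h14 := rk_dlin_ge (L m) (L (m - 1))
  rw [Finset.sum_add_distrib, Finset.sum_const, Finset.card_range, smul_eq_mul] at h1
  set e := finrank F E
  set κD := finrank F (KK (D + 1) c Ξ N D)
  set κD1 := finrank F (KK (D + 1) c Ξ N (D + 1))
  set κDm := finrank F (KK (D + 1) c Ξ N (D - 1))
  set ε1 := finrank F (EE (D + 1) c Ξ N (D - 1))
  set ε2 := finrank F (EE (D + 1) c Ξ N D)
  set x := finrank F ((KK (D + 1) c Ξ N (D + 1)).map f)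
  set y := finrank F (LinearMap.ker (dlin (L m) (L (m - 1))))
  set z := rk (dlin (L m) (L (m - 1)))
  set S := ∑ j ∈ Finset.range (m + D), k j
  have h15 : 2 * ε1 ≤ x := by omega
  have h16 : D * (2 * ε1) ≤ D * x := Nat.mul_le_mul_left _ h15
  have h17 : (N - (m + D)) * θ ≤ N * θ := Nat.mul_le_mul_right _ (by omega)
  have h18 : (m + D - 1) * K = (m - 1) * K + D * K := by
    rw [← add_mul]
    congr 1
    omega
  have h19 : D * y ≤ D * (2 * e) - D * (2 * K) := by
    rw [← Nat.mul_sub]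
    apply Nat.mul_le_mul_left
    omega
  have h20 : D * z ≤ D * (2 * e) - D * x := by
    rw [← Nat.mul_sub]
    apply Nat.mul_le_mul_left
    omega
  have h21 : D * x ≤ D * (2 * e) := by
    apply Nat.mul_le_mul_left
    omega
  have h22 : D * (2 * K) ≤ D * (2 * e) := by
    apply Nat.mul_le_mul_left
    omega
  have e1 : D * (2 * ε1) = 2 * (D * ε1) := by ring
  have e2 : D * (2 * e) = 2 * (D * e) := by ring
  have e3 : D * (2 * K) = 2 * (D * K) := by ring
  have e4 : (m + D) * (2 * θ) + N * θ = (2 * (m + D) + N) * θ := by ring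
  refine ⟨(KK (D + 1) c Ξ N (D + 1)).map f, h11, ?_, ?_, ?_⟩
  · rintro _ ⟨ξ, hξ, rfl⟩
    rw [SetLike.mem_coe, mem_KK] at hξ
    refine ⟨ξ, rfl, rfl, fun j hj => ?_⟩
    rw [← evc_apply]
    exact hξ.2 j hj
  · change D * y ≤ D * x + 2 * ((m - 1) * K + X + (2 * (m + D) + N) * θ)
    omega
  · omega

end Run7.h130
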