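import Mathlib

/-!
# Definitions for the linear bound partition rank versus analytic rank (MP_dc7dd9_co, S11851)
-/

set_option autoImplicit false

namespace Run7.h130

open Module

/-- `n`-linear maps `E^n → W`. -/
abbrev ML (F : Type) [Field F] (n : ℕ) (E W : Type) [AddCommGroup E] [Module F E]
    [AddCommGroup W] [Module F W] : Type :=
  MultilinearMap F (fun _ : Fin n => E) W

section Basic

variable {F : Type} [Field F] {n : ℕ} {E W : Type} [AddCommGroup E] [Module F E]
  [AddCommGroup W] [Module F W]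

/-- fixing the first argument of a multilinear map -/
noncomputable def app : ML F (n + 1) E W →ₗ[F] (E →ₗ[F] ML F n E W) :=
  (multilinearCurryLeftEquiv F (fun _ : Fin (n + 1) => E) W).toLinearMap

theorem app_apply (G : ML F (n + 1) E W) (e : E) (x : Fin n → E) :
    app G e x = G (Fin.cons e x) := rfl

/-- the linear map `x ↦ G(p_0, …, x, …, p_{n-1})` (`x` in slot `i`) -/
noncomputable def Lm (G : ML F n E W) (p : Fin n → E) (i : Fin n) : E →ₗ[F] W :=
  G.toLinearMap p i

theorem Lm_apply (G : ML F n E W) (p : Fin n → E) (i : Fin n) (x : E) :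
    Lm G p i x = G (Function.update p i x) := rfl

/-- the rank of a linear map -/
noncomputable def rk (L : E →ₗ[F] W) : ℕ := finrank F (LinearMap.range L)

/-- the `i`-th section rank of `G` at `p` -/
noncomputable def kap (G : ML F n E W) (p : Fin n → E) (i : Fin n) : ℕ := rk (Lm G p i)

/-- `L + ε M` acting on `E ⊕ ε E`, `ε² = 0` -/
def dlin (L M : E →ₗ[F] W) : (E × E) →ₗ[F] (W × W) :=
  LinearMap.prod (L ∘ₗ LinearMap.fst F E E)
    (L ∘ₗ LinearMap.snd F E E + M ∘ₗ LinearMap.fst F E E)

theorem dlin_apply (L M : E →ₗ[F] W) (x y : E) : dlin L M (x, y) = (L x, L y + M x) := rfl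

/-- `A + ε B` acting on `(E ⊕ ε E)^n`, `ε² = 0` -/
noncomputable def dl (A B : ML F n E W) : ML F n (E × E) (W × W) :=
  MultilinearMap.prod (A.compLinearMap fun _ => LinearMap.fst F E E)
    ((∑ i : Fin n, A.compLinearMap
        (fun j => if j = i then LinearMap.snd F E E else LinearMap.fst F E E)) +
      B.compLinearMap fun _ => LinearMap.fst F E E)

theorem dl_apply (A B : ML F n E W) (x : Fin n → E × E) :
    dl A B x = (A (fun j => (x j).1),
      (∑ i : Fin n, A (fun j => if j = i then (x j).2 else (x j).1)) + B (fun j => (x j).1)) := by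
  simp only [dl, MultilinearMap.prod_apply, MultilinearMap.compLinearMap_apply,
    add_apply, sum_apply, LinearMap.fst_apply]
  congr 3
  funext i
  congr 1
  funext j
  split_ifs <;> rfl

/-- `(p_i) ↦ (p_i + ε 0)` -/
def hat (p : Fin n → E) : Fin n → E × E := fun i => (p i, 0)

end Basic

/-- The recursive goodness predicate. -/
def Good {F : Type} [Field F] (θ : ℕ) : (n : ℕ) → (E W : Type) → [AddCommGroup E] → [Module F E] →
    [AddCommGroup W] → [Module F W] → ML F n E W → (Fin n → E) → (Fin n → ℕ) → Prop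
  | 0, _, _, _, _, _, _, _, _, _ => True
  | n + 1, E, W, _, _, _, _, G, p, k =>
      rk (Lm G p 0) ≤ k 0 + θ ∧
      ∃ Ξ : Submodule F E, Ξ ≤ LinearMap.ker (Lm G p 0) ∧
        finrank F (LinearMap.ker (Lm G p 0)) ≤ finrank F Ξ + θ ∧
        ∀ ξ ∈ Ξ, Good θ n (E × E) (W × W) (dl (app G (p 0)) (app G ξ)) (hat (Fin.tail p))
          (fun i => 2 * k i.succ)

/-- `φ` is multilinear in the coordinates of `s` and does not depend on the others -/
def MD (F : Type) [Field F] {ι V X : Type} [DecidableEq ι] [AddCommGroup V] [Module F V]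
    [AddCommGroup X] [Module F X] (s : Finset ι) (φ : (ι → V) → X) : Prop :=
  (∀ i ∈ s, ∀ (x : ι → V) (v w : V), φ (Function.update x i (v + w)) =
      φ (Function.update x i v) + φ (Function.update x i w)) ∧
  (∀ i ∈ s, ∀ (x : ι → V) (c : F) (v : V), φ (Function.update x i (c • v)) =
      c • φ (Function.update x i v)) ∧
  (∀ i ∉ s, ∀ (x : ι → V) (v : V), φ (Function.update x i v) = φ x)

/-- `f` is a sum of at most `k` terms `a(x_I) • h(x_{Iᶜ})` with `I` nonempty -/
def PRle {F : Type} [Field F] {n : ℕ} {V W : Type} [AddCommGroup V] [Module F V]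
    [AddCommGroup W] [Module F W] (k : ℕ) (f : ML F n V W) : Prop :=
  ∃ r ≤ k, ∃ (I : Fin r → Finset (Fin n)) (a : Fin r → (Fin n → V) → F)
    (h : Fin r → (Fin n → V) → W),
    (∀ l, (I l).Nonempty) ∧ (∀ l, MD F (I l) (a l)) ∧ (∀ l, MD F (I l)ᶜ (h l)) ∧
    ∀ x, f x = ∑ l, a l x • h l x

/-- number of zeros of a multilinear map -/
noncomputable def Zc {F : Type} [Field F] {n : ℕ} {V W : Type} [AddCommGroup V] [Module F V]
    [AddCommGroup W] [Module F W] (f : ML F n V W) : ℕ := Nat.card {x : Fin n → V // f x = 0}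

/-- next generalised inverse -/
def Rnext {F : Type} [Field F] {E W : Type} [AddCommGroup E] [Module F E]
    [AddCommGroup W] [Module F W] (R : W →ₗ[F] E) (M : E →ₗ[F] W) : (W × W) →ₗ[F] (E × E) :=
  dlin R (-(R ∘ₗ M ∘ₗ R))

/-- The last coefficient of the residual (see the notes). -/
noncomputable def lastE {F : Type} [Field F] {W₀ : Type} [AddCommGroup W₀] [Module F W₀] :
    (m : ℕ) → (E W : Type) → [AddCommGroup E] → [Module F E] →
    [AddCommGroup W] → [Module F W] → ML F m E W → (Fin m → E) → (Fin m → (W →ₗ[F] E)) →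
    (Fin m → E) → (W →ₗ[F] W₀) → W₀
  | 0, _, _, _, _, _, _, G, p, _, _, lam => lam (G p)
  | m + 1, E, W, _, _, _, _, G, p, R, t, lam =>
      lastE m (E × E) (W × W) (dl (app G (p 0)) (app G (t 0))) (hat (Fin.tail p))
        (fun i => Rnext (R i.succ) (Lm (app G (t 0)) (Fin.tail p) i))
        (fun i => (t i.succ, -(R i.succ (Lm (app G (t 0)) (Fin.tail p) i (t i.succ)))))
        (lam ∘ₗ LinearMap.snd F W W)

end Run7.h130
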