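import Pool.Agent.Run7.h130.Basics

/-!
# Interface: exact statements of the pieces (MP_dc7dd9_co, frozen S11851)

Every piece is a closed proposition `S_xxx : Prop`.  Prove `theorem xxx : S_xxx` in your own file
(imports: `Pool.Agent.Run7.h130.Iface`, `Pool.Agent.Run7.h130.GoodB`, Mathlib).
-/

set_option autoImplicit false

namespace Run7.h130

open Module

/-- P1a.  Pencils: `(N-1) rk L₁ ≤ ∑_{j<N} rk (L₀ + c_j L₁)` for distinct nodes `c_j`. -/
def S_pencil : Prop :=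
  ∀ (F : Type) [Field F] (E W : Type) [AddCommGroup E] [Module F E] [FiniteDimensional F E]
    [AddCommGroup W] [Module F W] [FiniteDimensional F W] (N : ℕ) (c : ℕ → F),
    Set.InjOn c (Set.Iio N) → ∀ (L₀ L₁ : E →ₗ[F] W),
      (N - 1) * rk L₁ ≤ ∑ j ∈ Finset.range N, rk (L₀ + c j • L₁)

/-- P1b.  Curves in the kernels of a polynomial family of linear maps. -/
def S_CC : Prop :=
  ∀ (F : Type) [Field F] (E W : Type) [AddCommGroup E] [Module F E] [FiniteDimensional F E]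
    [AddCommGroup W] [Module F W] [FiniteDimensional F W] (m D N : ℕ),
    1 ≤ m → 1 ≤ D → m + D + 1 ≤ N →
    ∀ (c : ℕ → F), Set.InjOn c (Set.Iio N) →
    ∀ (L : ℕ → (E →ₗ[F] W)) (Ξ : ℕ → Submodule F E) (k : ℕ → ℕ) (K X θ : ℕ),
      (∀ j < N, Ξ j ≤ LinearMap.ker (∑ a ∈ Finset.range (m + 1), c j ^ a • L a)) →
      (∀ j < N, finrank F (LinearMap.ker (∑ a ∈ Finset.range (m + 1), c j ^ a • L a)) ≤
        finrank F (Ξ j) + θ) →
      (∀ j < N, rk (∑ a ∈ Finset.range (m + 1), c j ^ a • L a) ≤ k j + θ) →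
      (∑ j ∈ Finset.range (m + D), k j ≤ (m + D - 1) * K + X) →
      K ≤ rk (L m) →
      ∃ Ξ' : Submodule F (E × E), Ξ' ≤ LinearMap.ker (dlin (L m) (L (m - 1))) ∧
        (∀ z ∈ Ξ', ∃ ξ : ℕ → E, ξ D = z.1 ∧ ξ (D - 1) = z.2 ∧
          ∀ j < N, ∑ a ∈ Finset.range (D + 1), c j ^ a • ξ a ∈ Ξ j) ∧
        D * finrank F (LinearMap.ker (dlin (L m) (L (m - 1)))) ≤ D * finrank F Ξ' +
          2 * ((m - 1) * K + X + (2 * (m + D) + N) * θ) ∧
        D * rk (dlin (L m) (L (m - 1))) ≤ D * (2 * K) +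
          2 * ((m - 1) * K + X + (2 * (m + D) + N) * θ)

/-- P3.  Additivity. -/
def S_additivity : Prop :=
  ∀ (F : Type) [Field F] (n : ℕ) (E W : Type) [AddCommGroup E] [Module F E]
    [FiniteDimensional F E] [AddCommGroup W] [Module F W] [FiniteDimensional F W]
    (θ : ℕ) (h h1 h2 : ML F n E W) (p : Fin n → E) (k : Fin n → ℕ),
    (∀ i, k i ≤ 2 * kap h p i) →
    Good θ n (E × E) (W × W) (dl h h1) (hat p) k →
    Good θ n (E × E) (W × W) (dl h h2) (hat p) k →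
    Good (4 * θ) n (E × E) (W × W) (dl h (h1 + h2)) (hat p) k

/-- P4.  The curve lemma in `n` variables. -/
def S_curve : Prop :=
  ∀ n m A B : ℕ, 1 ≤ m → 1 ≤ B → ∃ (N C : ℕ) (Ns : Fin n → ℕ), (∀ i, 2 ≤ Ns i ∧ Ns i ≤ N) ∧
    ∀ (F : Type) [Field F] (E W : Type) [AddCommGroup E] [Module F E] [FiniteDimensional F E]
      [AddCommGroup W] [Module F W] [FiniteDimensional F W] (c : ℕ → F),
      (∀ j < N, c j ≠ 0) → Set.InjOn c (Set.Iio N) →
      ∀ (g : ℕ → ML F n E W) (p : Fin n → E) (k : ℕ → Fin n → ℕ) (K : Fin n → ℕ) (ρ θ : ℕ),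
        (∀ j < N, Good θ n E W (∑ a ∈ Finset.range (m + 1), c j ^ a • g a) p (k j)) →
        (∀ i, K i ≤ kap (g m) p i) → (∀ i, K i ≤ ρ) →
        (∀ i, ∑ j ∈ Finset.range (Ns i), k j i ≤ (Ns i - 1) * K i + A * ρ) →
        Good ((ρ + C * θ) / B) n (E × E) (W × W) (dl (g m) (g (m - 1))) (hat p)
          (fun i => 2 * K i)

/-- P5a.  Averaging over pairs in a finite vector space `K`: `G` is the good set, `kp i` are
subadditive rank-like functions. -/
def S_pairs : Prop :=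
  ∀ (F : Type) [Field F] (V : Type) [AddCommGroup V] [Module F V] [Finite V] (n N : ℕ)
    (Ns : Fin n → ℕ) (c : ℕ → F) (kp : V → Fin n → ℕ) (G : Set V) (s' A ρ : ℕ),
    1 ≤ s' → 8 * n * s' ≤ A → 1 ≤ ρ →
    (∀ j < N, c j ≠ 0) → (∀ i, 2 ≤ Ns i ∧ Ns i ≤ N) →
    (∀ u v i, kp (u + v) i ≤ kp u i + kp v i) →
    (∀ u u₁ i, (Ns i - 1) * kp u₁ i ≤ ∑ j ∈ Finset.range (Ns i), kp (u + c j • u₁) i) →
    (∀ u ∈ G, ∀ i, kp u i ≤ ρ) →
    4 * (N + 1) * s' * (Nat.card {u : V // u ∉ G}) ≤ Nat.card V →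
    s' * Nat.card {u₁ : V // ¬ (Nat.card V < 2 * Nat.card {u : V // u₁ ∈ G ∧
        (∀ j < N, u + c j • u₁ ∈ G) ∧
        ∀ i, ∑ j ∈ Finset.range (Ns i), kp (u + c j • u₁) i ≤ (Ns i - 1) * kp u₁ i + A * ρ})} ≤
      Nat.card V

/-- the bad zeros of `f` (relative to `R`, `B`) -/
def BadZ {F : Type} [Field F] {n : ℕ} {V W : Type} [AddCommGroup V] [Module F V]
    [AddCommGroup W] [Module F W] (R B : ℕ) (f : ML F n V W) : Set (Fin n → V) :=
  {p | f p = 0 ∧ ¬ (Good (R / B) n V W f p (kap f p) ∧ ∀ i, kap f p i ≤ R + 1)}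

/-- P5.  Typical zeros are good. -/
def S_typical : Prop :=
  ∀ n t B : ℕ, 1 ≤ B → ∃ q₀ : ℕ, ∀ (F : Type) [Field F] [Finite F] (V W : Type) [AddCommGroup V]
    [Module F V] [Finite V] [AddCommGroup W] [Module F W] [FiniteDimensional F W]
    (f : ML F n V W) (R : ℕ), q₀ ≤ Nat.card F → 1 ≤ R →
      Nat.card V ^ n ≤ Zc f * Nat.card F ^ R →
      t * Nat.card (BadZ R B f) ≤ Zc f

/-- P6.  Counting tangent vectors with vanishing residual. -/
def S_count : Prop :=
  ∀ n : ℕ, ∃ C : ℕ, ∀ (F : Type) [Field F] [Finite F] (E W W₀ : Type) [AddCommGroup E]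
    [Module F E] [Finite E] [AddCommGroup W] [Module F W] [FiniteDimensional F W]
    [AddCommGroup W₀] [Module F W₀] (θ : ℕ) (G : ML F n E W) (p : Fin n → E) (k : Fin n → ℕ)
    (R : Fin n → (W →ₗ[F] E)) (T : Fin n → Submodule F E) (lam : W →ₗ[F] W₀),
    Good θ n E W G p k → G p = 0 →
    (∀ i, k i ≤ finrank F (LinearMap.ker (Lm G p i ∘ₗ R i - LinearMap.id))) →
    (∀ i, T i ≤ LinearMap.ker (Lm G p i)) →
    ∏ i, Nat.card (T i) ≤
      Nat.card {t : Fin n → E // (∀ i, t i ∈ T i) ∧ lastE n E W G p R t lam = 0} *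
        Nat.card F ^ (C * θ)

/-- P7.  Structure of the last coefficient: multilinear, and equal to `f` up to cheap terms. -/
def S_alg : Prop :=
  ∀ n : ℕ, ∃ C : ℕ, ∀ (F : Type) [Field F] (V W : Type) [AddCommGroup V]
    [Module F V] [FiniteDimensional F V] [AddCommGroup W] [Module F W] [FiniteDimensional F W]
    (f : ML F n V W) (p : Fin n → V) (R : Fin n → (W →ₗ[F] V)) (κ : ℕ),
    (∀ i, finrank F (LinearMap.range (R i)) ≤ κ) →
    ∃ g : ML F n V W, (∀ t, g t = lastE n V W f p R t LinearMap.id) ∧ PRle (C * κ) (f - g)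

/-- P8a.  Reduction at a good zero (from P6, P7). -/
def S_reduction : Prop :=
  ∀ n : ℕ, ∃ C : ℕ, ∀ (F : Type) [Field F] [Finite F] (V W : Type) [AddCommGroup V]
    [Module F V] [Finite V] [AddCommGroup W] [Module F W] [FiniteDimensional F W]
    (θ κ : ℕ) (f : ML F n V W) (p : Fin n → V), f p = 0 →
    Good θ n V W f p (kap f p) → (∀ i, kap f p i ≤ κ) →
    ∃ g : ML F n V W, PRle (C * κ) (f - g) ∧
      Nat.card V ^ n ≤ Zc g * Nat.card F ^ (C * θ)

/-- P8b.  Main theorem over large fields. -/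
def S_large : Prop :=
  ∀ n : ℕ, ∃ q₀ C : ℕ, ∀ (F : Type) [Field F] [Finite F] (V W : Type) [AddCommGroup V]
    [Module F V] [Finite V] [AddCommGroup W] [Module F W] [FiniteDimensional F W]
    (f : ML F n V W) (R : ℕ), q₀ ≤ Nat.card F →
      Nat.card V ^ n ≤ Zc f * Nat.card F ^ R → PRle (C * R) f

/-- a set meeting every axis-parallel line in a subgroup or not at all -/
def MultiSub {ι A : Type} [DecidableEq ι] [AddGroup A] (S : Set (ι → A)) : Prop :=
  ∀ (x : ι → A) (i : ι) (a b : A), Function.update x i a ∈ S → Function.update x i b ∈ S →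
    Function.update x i (a - b) ∈ S

/-- P9a.  Positive correlation. -/
def S_corr : Prop :=
  ∀ (ι A : Type) [Fintype ι] [DecidableEq ι] [AddCommGroup A] [Finite A] (S T : Set (ι → A)),
    MultiSub S → MultiSub T →
    Nat.card S * Nat.card T ≤ Nat.card (S ∩ T : Set (ι → A)) * Nat.card A ^ Fintype.card ι

/-- P9b.  Zero counts under field extension (`D = [K:F]`), `f` and `fK` related by scalar
extension. -/
def S_zeroK : Prop :=
  ∀ (F K : Type) [Field F] [Finite F] [Field K] [Finite K] [Algebra F K] (e n : ℕ)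
    (f : ML F e (Fin n → F) (Module.Dual F (Fin n → F)))
    (fK : ML K e (Fin n → K) (Module.Dual K (Fin n → K))),
    (∀ (x : Fin e → Fin n → F) (y : Fin n → F),
      fK (fun i j => algebraMap F K (x i j)) (fun j => algebraMap F K (y j)) =
        algebraMap F K (f x y)) →
    Zc f ^ (finrank F K ^ e) * (Nat.card K ^ n) ^ e ≤
      Zc fK * ((Nat.card F ^ n) ^ e) ^ (finrank F K ^ e)

/-- P10a.  A multihomogeneous polynomial is a multilinear form. -/
def S_tens : Prop :=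
  ∀ (F : Type) [Field F] (e n : ℕ) (P : MvPolynomial (Fin e × Fin n) F),
    (∀ m ∈ P.support, ∀ i : Fin e, ∑ j : Fin n, m (i, j) = 1) →
    ∃ T : ML F e (Fin n → F) F, ∀ x : Fin e → Fin n → F,
      T x = MvPolynomial.eval (fun v => x v.1 v.2) P

/-- P10b.  Character sums count zeros. -/
def S_char : Prop :=
  ∀ (F : Type) [Field F] [Fintype F] (e n : ℕ) (T : ML F (e + 1) (Fin n → F) F)
    (f : ML F e (Fin n → F) (Module.Dual F (Fin n → F))),
    (∀ (x : Fin e → Fin n → F) (y : Fin n → F), f x y = T (Fin.snoc x y)) →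
    ∀ ψ : AddChar F ℂ, ψ ≠ 1 →
    ∑ x : Fin (e + 1) × Fin n → F, ψ (T (fun i j => x (i, j))) =
      (Zc f : ℂ) * (Fintype.card F : ℂ) ^ n

/-- Schmidt rank at most `k` -/
def Schmidt {F : Type} [Field F] (d n k : ℕ) (P : MvPolynomial (Fin d × Fin n) F) : Prop :=
  ∃ Q R : Fin k → MvPolynomial (Fin d × Fin n) F,
    (∀ i, (Q i).totalDegree < d ∧ (R i).totalDegree < d) ∧ P = ∑ i, Q i * R i

/-- P10c.  From `PRle` to Schmidt rank. -/
def S_schmidt : Prop :=
  ∀ (F : Type) [Field F] (e n k : ℕ), 1 ≤ e →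
    ∀ (P : MvPolynomial (Fin (e + 1) × Fin n) F),
    (∀ m ∈ P.support, ∀ i : Fin (e + 1), ∑ j : Fin n, m (i, j) = 1) →
    ∀ (f : ML F e (Fin n → F) (Module.Dual F (Fin n → F))),
    (∀ (x : Fin e → Fin n → F) (y : Fin n → F), f x y =
      MvPolynomial.eval (fun v => (Fin.snoc x y : Fin (e + 1) → Fin n → F) v.1 v.2) P) →
    PRle k f → Schmidt (e + 1) n k P

/-- P10d.  Descent of Schmidt rank. -/
def S_descent : Prop :=
  ∀ (F K : Type) [Field F] [Field K] [Algebra F K] [FiniteDimensional F K] (d n k : ℕ)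
    (P : MvPolynomial (Fin d × Fin n) F),
    Schmidt d n k (MvPolynomial.map (algebraMap F K) P) → Schmidt d n (finrank F K * k) P

/-- P10e.  Finite fields have extensions of every degree. -/
def S_ext : Prop :=
  ∀ (F : Type) [Field F] [Finite F] (l : ℕ), 1 ≤ l →
    ∃ (K : Type) (_ : Field K) (_ : Finite K) (_ : Algebra F K), finrank F K = l

/-- P10f.  Nonzero multilinear maps have few zeros. -/
def S_fewzeros : Prop :=
  ∀ (F : Type) [Field F] [Finite F] (n : ℕ) (V W : Type) [AddCommGroup V]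
    [Module F V] [Finite V] [AddCommGroup W] [Module F W] (f : ML F n V W), f ≠ 0 →
      Zc f * Nat.card F ≤ n * Nat.card V ^ n

/-- P10g.  Final assembly: the frozen statement. -/
def S_final : Prop :=
  ∀ d : ℕ, 2 ≤ d → ∃ ε : ℝ, 0 < ε ∧
    ∀ (F : Type) [Field F] [Fintype F] (n : ℕ) (P : MvPolynomial (Fin d × Fin n) F),
      (∀ m ∈ P.support, ∀ i : Fin d, ∑ j : Fin n, m (i, j) = 1) →
      ∀ ψ : AddChar F ℂ, ψ ≠ 1 →
      ∀ r : ℕ,
        (¬ ∃ k < r, ∃ Q R : Fin k → MvPolynomial (Fin d × Fin n) F,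
            (∀ i, (Q i).totalDegree < d ∧ (R i).totalDegree < d) ∧
              P = ∑ i, Q i * R i) →
        ε * (r : ℝ) ≤ -Real.logb (Fintype.card F : ℝ)
          (‖∑ x : Fin d × Fin n → F, ψ (MvPolynomial.eval x P)‖ /
            (Fintype.card F : ℝ) ^ (d * n))

end Run7.h130
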