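import Pool.Agent.Run7.h130.PRFinal

/-!
# The frozen statement S11277 (partition rank versus analytic rank) from `S_prfinal`
-/

set_option autoImplicit false

namespace Run7.h130

open Module

section Aux

variable {F : Type} [Field F]

/-- `φ` depends only on the coordinates in `s` -/
theorem MD_indep {ι V X : Type} [DecidableEq ι] [Fintype ι] [AddCommGroup V] [Module F V]
    [AddCommGroup X] [Module F X] {s : Finset ι} {φ : (ι → V) → X} (h : MD F s φ) :
    ∀ (x y : ι → V), (∀ j ∈ s, x j = y j) → φ x = φ y := by
  have key : ∀ (U : Finset ι) (x y : ι → V), (∀ j ∉ U, x j = y j) → (∀ j ∈ s, x j = y j) →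
      φ x = φ y := by
    intro U
    induction U using Finset.induction_on with
    | empty =>
      intro x y hxy _
      rw [show x = y from funext fun j => hxy j (Finset.notMem_empty j)]
    | insert a U _ ih =>
      intro x y hxy hs
      have h1 : φ (Function.update x a (y a)) = φ x := by
        by_cases ha : a ∈ s
        · rw [← hs a ha, Function.update_eq_self]
        · exact h.2.2 a ha x (y a)
      rw [← h1]
      apply ih
      · intro j hj
        by_cases hja : j = a
        · subst hja; simp
        · rw [Function.update_of_ne hja]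
          apply hxy
          simp [hja, hj]
      · intro j hj
        by_cases hja : j = a
        · subst hja; simp
        · rw [Function.update_of_ne hja]
          exact hs j hj
  intro x y hs
  exact key Finset.univ x y (fun j hj => absurd (Finset.mem_univ j) hj) hs

/-- a function that is multilinear in the coordinates of `s` gives a multilinear map on the
subtype -/
theorem MD_restrict {ι V X : Type} [DecidableEq ι] [Fintype ι] [AddCommGroup V] [Module F V]
    [AddCommGroup X] [Module F X] {s : Finset ι} {φ : (ι → V) → X} (h : MD F s φ)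
    (p : ι → Prop) (hp : ∀ j, j ∈ s ↔ p j) (E : ι → Type) [∀ j, AddCommGroup (E j)]
    [∀ j, Module F (E j)] (m : ∀ j, E j →ₗ[F] V) :
    ∃ a : MultilinearMap F (fun j : {j // p j} => E j.1) X, ∀ x : ∀ j, E j,
      a (fun j => x j.1) = φ (fun j => m j (x j)) := by
  classical
  let e : (∀ j : {j // p j}, E j.1) → ι → V := fun z j => if hj : p j then m j (z ⟨j, hj⟩) else 0
  have he : ∀ (inst : DecidableEq {j // p j}) (z : ∀ j : {j // p j}, E j.1) (i : {j // p j})
      (v : E i.1), e (@Function.update _ _ inst z i v) =
        Function.update (e z) i.1 (m i.1 v) := by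
    intro inst z i v
    funext j
    by_cases hji : j = i.1
    · subst hji
      have : p i.1 := i.2
      simp [e, this]
    · rw [Function.update_of_ne hji]
      by_cases hj : p j
      · have hne : (⟨j, hj⟩ : {j // p j}) ≠ i := fun h => hji (congrArg Subtype.val h)
        simp only [e, hj, dif_pos, Function.update_of_ne hne]
      · simp [e, hj]
  refine ⟨{ toFun := fun z => φ (e z), map_update_add' := ?_, map_update_smul' := ?_ }, ?_⟩
  · intro inst z i v w
    rw [he inst, he inst, he inst, map_add]
    exact h.1 i.1 ((hp i.1).2 i.2) _ _ _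
  · intro inst z i c v
    rw [he inst, he inst, map_smul]
    exact h.2.1 i.1 ((hp i.1).2 i.2) _ _ _
  · intro x
    refine MD_indep h _ _ ?_
    intro j hj
    have : p j := (hp j).1 hj
    simp [e, this]

/-- counting a preimage under a surjective homomorphism -/
theorem card_preimage_hom {G H : Type} [AddCommGroup G] [AddCommGroup H] [Finite G] [Finite H]
    (φ : G →+ H) (hφ : Function.Surjective φ) (A : Set H) :
    Nat.card {x : G // φ x ∈ A} * Nat.card H = Nat.card {y : H // y ∈ A} * Nat.card G := by
  have key : ∀ B : Set H, Nat.card {x : G // φ x ∈ B} = Nat.card {y : H // y ∈ B} *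
      Nat.card φ.ker := by
    intro B
    rw [← Nat.card_prod]
    refine Nat.card_congr
      { toFun := fun x => (⟨φ x.1, x.2⟩, ⟨x.1 - Function.surjInv hφ (φ x.1), by
          rw [AddMonoidHom.mem_ker, map_sub, Function.surjInv_eq hφ, sub_self]⟩)
        invFun := fun z => ⟨Function.surjInv hφ z.1.1 + z.2.1, by
          have h2 := z.2.2
          rw [AddMonoidHom.mem_ker] at h2
          rw [map_add, Function.surjInv_eq hφ, h2, add_zero]
          exact z.1.2⟩
        left_inv := ?_
        right_inv := ?_ }
    · rintro ⟨x, hx⟩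
      simp
    · rintro ⟨⟨y, hy⟩, ⟨k, hk⟩⟩
      have hk' : φ k = 0 := by rwa [AddMonoidHom.mem_ker] at hk
      simp [map_add, Function.surjInv_eq hφ, hk']
  have h1 := key A
  have h2 := key Set.univ
  have h3 : Nat.card {x : G // φ x ∈ (Set.univ : Set H)} = Nat.card G :=
    Nat.card_congr (Equiv.subtypeUnivEquiv fun x => Set.mem_univ _)
  have h4 : Nat.card {x : H // x ∈ (Set.univ : Set H)} = Nat.card H :=
    Nat.card_congr (Equiv.subtypeUnivEquiv fun x => Set.mem_univ _)
  rw [h3, h4] at h2
  rw [h1, h2]
  ring

end Aux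

/-- the frozen statement -/
def S_pr : Prop :=
  ∀ (d : ℕ) (F : Type) [Field F] [Fintype F], ∃ C : ℝ, ∀ (n : Fin (d+2) → ℕ)
    (T : MultilinearMap F (fun i : Fin (d+2) => Fin (n i) → F) F),
    ∃ r : ℕ, (r : ℝ) ≤ C * (-Real.logb (Fintype.card F : ℝ)
        ((Nat.card {x : (i : Fin (d+2)) → Fin (n i) → F //
            ∀ y : Fin (n 0) → F, T (Function.update x 0 y) = 0} : ℝ) /
          (Nat.card ((i : Fin (d+2)) → Fin (n i) → F) : ℝ))) ∧
      ∃ S : Fin r → Finset (Fin (d+2)),
      ∃ a : (k : Fin r) → MultilinearMap F (fun j : {j // j ∈ S k} => Fin (n j.1) → F) F,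
      ∃ b : (k : Fin r) → MultilinearMap F (fun j : {j // j ∉ S k} => Fin (n j.1) → F) F,
      (∀ k, (S k).Nonempty ∧ S k ≠ Finset.univ) ∧
      ∀ x : (i : Fin (d+2)) → Fin (n i) → F,
        T x = ∑ k, a k (fun j => x j.1) * b k (fun j => x j.1)

theorem pr_of_prfinal (hfin : S_prfinal) : S_pr := by
  intro d F _ _
  classical
  obtain ⟨C, hC0, hC⟩ := hfin (d + 1) (by omega)
  refine ⟨C, fun n T => ?_⟩
  have hcF : Nat.card F = Fintype.card F := Nat.card_eq_fintype_card
  set N := ∑ i, n i with hN
  have hn : ∀ i, n i ≤ N := fun i => Finset.single_le_sum (fun _ _ => Nat.zero_le _)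
    (Finset.mem_univ i)
  let π : ∀ i, (Fin N → F) →ₗ[F] (Fin (n i) → F) := fun i => LinearMap.funLeft F F (Fin.castLE (hn i))
  have hπ : ∀ i, Function.Surjective (π i) := fun i =>
    LinearMap.funLeft_surjective_of_injective F F _ (Fin.castLE_injective (hn i))
  have hsec : ∀ i, ∃ s : (Fin (n i) → F) →ₗ[F] (Fin N → F), π i ∘ₗ s = LinearMap.id := fun i =>
    LinearMap.exists_rightInverse_of_surjective (π i) (LinearMap.range_eq_top.mpr (hπ i))
  choose s hs using hsec
  have hs' : ∀ i x, π i (s i x) = x := fun i x => by
    have := congrArg (fun φ => φ x) (hs i)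
    simpa using this
  let T' : ML F (d + 2) (Fin N → F) F := T.compLinearMap π
  have hT' : ∀ x : Fin (d + 2) → Fin N → F, T' x = T (fun i => π i (x i)) := fun x => rfl
  let f : ML F (d + 1) (Fin N → F) (Module.Dual F (Fin N → F)) :=
    { toFun := fun x =>
        { toFun := fun y => T' (Fin.cons y x)
          map_add' := fun y z => T'.cons_add x y z
          map_smul' := fun c y => T'.cons_smul x c y }
      map_update_add' := by
        intro inst x i v w
        have : inst = fun a b => instDecidableEqFin _ a b := Subsingleton.elim _ _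
        subst this
        refine LinearMap.ext fun y => ?_
        simp only [LinearMap.coe_mk, AddHom.coe_mk, LinearMap.add_apply, Fin.cons_update]
        exact T'.map_update_add _ _ _ _
      map_update_smul' := by
        intro inst x i c v
        have : inst = fun a b => instDecidableEqFin _ a b := Subsingleton.elim _ _
        subst this
        refine LinearMap.ext fun y => ?_
        simp only [LinearMap.coe_mk, AddHom.coe_mk, LinearMap.smul_apply, Fin.cons_update]
        exact T'.map_update_smul _ _ _ _ }
  have hf : ∀ x y, f x y = T' (Fin.cons y x) := fun x y => rfl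
  obtain ⟨r, hr, r', hr', I, a, g, hI, ha, hg, hsum⟩ := hC F N f
  -- the two counts
  let H := (i : Fin (d + 1)) → Fin (n i.succ) → F
  let A : Set H := {x | ∀ y : Fin (n 0) → F, T (Fin.cons y x) = 0}
  have hcount1 : Nat.card {x : (i : Fin (d + 2)) → Fin (n i) → F //
      ∀ y : Fin (n 0) → F, T (Function.update x 0 y) = 0} * Nat.card H =
      Nat.card {y : H // y ∈ A} * Nat.card ((i : Fin (d + 2)) → Fin (n i) → F) := by
    let φ : ((i : Fin (d + 2)) → Fin (n i) → F) →+ H :=
      { toFun := fun x => Fin.tail x
        map_zero' := rfl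
        map_add' := fun _ _ => rfl }
    have hφ : Function.Surjective φ := fun y =>
      ⟨Fin.cons (0 : Fin (n 0) → F) y, Fin.tail_cons (α := fun i => Fin (n i) → F) 0 y⟩
    have h1 := card_preimage_hom φ hφ A
    have h2 : Nat.card {x : (i : Fin (d + 2)) → Fin (n i) → F //
        ∀ y : Fin (n 0) → F, T (Function.update x 0 y) = 0} = Nat.card {x // φ x ∈ A} := by
      refine Nat.card_congr (Equiv.subtypeEquivRight fun x => ?_)
      refine forall_congr' fun y => ?_
      have : Function.update x 0 y = Fin.cons y (φ x) := by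
        conv_lhs => rw [← Fin.cons_self_tail x, Fin.update_cons_zero]
        rfl
      rw [this]
    rw [h2]
    exact h1
  have hcount2 : Zc f * Nat.card H = Nat.card {y : H // y ∈ A} * Nat.card (Fin (d + 1) → Fin N → F) := by
    let φ : (Fin (d + 1) → Fin N → F) →+ H :=
      { toFun := fun x i => π i.succ (x i)
        map_zero' := by funext i; exact map_zero (π i.succ)
        map_add' := fun x y => by funext i; exact map_add (π i.succ) (x i) (y i) }
    have hφ : Function.Surjective φ := fun y => ⟨fun i => s i.succ (y i), by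
      funext i; exact hs' _ _⟩
    have h1 := card_preimage_hom φ hφ A
    have h2 : Zc f = Nat.card {x // φ x ∈ A} := by
      refine Nat.card_congr (Equiv.subtypeEquivRight fun x => ?_)
      constructor
      · intro hx y
        have h3 := congrArg (fun ψ : Module.Dual F (Fin N → F) => ψ (s 0 y)) hx
        simp only [hf, hT', LinearMap.zero_apply] at h3
        rw [← h3]
        congr 1
        funext i
        refine Fin.cases ?_ (fun i => ?_) i
        · simp [hs']
        · simp only [Fin.cons_succ]; rfl
      · intro hx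
        refine LinearMap.ext fun y => ?_
        rw [hf, hT', LinearMap.zero_apply]
        rw [← hx (π 0 y)]
        congr 1
        funext i
        refine Fin.cases ?_ (fun i => ?_) i
        · simp
        · simp only [Fin.cons_succ]; rfl
    rw [h2]
    exact h1
  have hratio : (Nat.card {x : (i : Fin (d + 2)) → Fin (n i) → F //
      ∀ y : Fin (n 0) → F, T (Function.update x 0 y) = 0} : ℝ) /
      (Nat.card ((i : Fin (d + 2)) → Fin (n i) → F) : ℝ) =
      (Zc f : ℝ) / (Nat.card F : ℝ) ^ (N * (d + 1)) := by
    have hV : (Nat.card F : ℝ) ^ (N * (d + 1)) = (Nat.card (Fin (d + 1) → Fin N → F) : ℝ) := by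
      rw [Nat.card_fun, Nat.card_fun, Nat.card_eq_fintype_card (α := Fin N),
        Nat.card_eq_fintype_card (α := Fin (d + 1)), Fintype.card_fin, Fintype.card_fin, pow_mul]
      push_cast
      rfl
    rw [hV]
    have p1 : (0 : ℝ) < Nat.card ((i : Fin (d + 2)) → Fin (n i) → F) := by
      exact_mod_cast Nat.card_pos
    have p2 : (0 : ℝ) < Nat.card (Fin (d + 1) → Fin N → F) := by
      exact_mod_cast Nat.card_pos
    have p3 : (0 : ℝ) < Nat.card H := by
      exact_mod_cast Nat.card_pos
    rw [div_eq_div_iff p1.ne' p2.ne']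
    have e1 : (Nat.card {x : (i : Fin (d + 2)) → Fin (n i) → F //
        ∀ y : Fin (n 0) → F, T (Function.update x 0 y) = 0} : ℝ) * Nat.card H =
        Nat.card {y : H // y ∈ A} * Nat.card ((i : Fin (d + 2)) → Fin (n i) → F) := by
      exact_mod_cast hcount1
    have e2 : (Zc f : ℝ) * Nat.card H =
        Nat.card {y : H // y ∈ A} * Nat.card (Fin (d + 1) → Fin N → F) := by
      exact_mod_cast hcount2
    have e3 : (Nat.card {x : (i : Fin (d + 2)) → Fin (n i) → F //
        ∀ y : Fin (n 0) → F, T (Function.update x 0 y) = 0} : ℝ) *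
        Nat.card (Fin (d + 1) → Fin N → F) * Nat.card H =
        (Zc f : ℝ) * Nat.card ((i : Fin (d + 2)) → Fin (n i) → F) * Nat.card H := by
      calc _ = ((Nat.card {x : (i : Fin (d + 2)) → Fin (n i) → F //
            ∀ y : Fin (n 0) → F, T (Function.update x 0 y) = 0} : ℝ) * Nat.card H) *
            Nat.card (Fin (d + 1) → Fin N → F) := by ring
        _ = ((Zc f : ℝ) * Nat.card H) * Nat.card ((i : Fin (d + 2)) → Fin (n i) → F) := by
            rw [e1, e2]; ring
        _ = _ := by ring
    exact mul_right_cancel₀ p3.ne' e3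
  refine ⟨r', ?_, fun k => (I k).map (Fin.succEmb (d + 1)), ?_⟩
  · rw [hratio, ← hcF]
    exact le_trans (by exact_mod_cast hr') hr
  -- the functions of all coordinates
  have hA : ∀ k, MD F ((I k).map (Fin.succEmb (d + 1)))
      (fun x : Fin (d + 2) → Fin N → F => a k (Fin.tail x)) := by
    intro k
    obtain ⟨h1, h2, h3⟩ := ha k
    refine ⟨?_, ?_, ?_⟩
    · intro i hi x v w
      obtain ⟨i, hi', rfl⟩ := Finset.mem_map.mp hi
      simp only [Fin.coe_succEmb, Fin.tail_update_succ]
      exact h1 i hi' _ _ _
    · intro i hi x c v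
      obtain ⟨i, hi', rfl⟩ := Finset.mem_map.mp hi
      simp only [Fin.coe_succEmb, Fin.tail_update_succ]
      exact h2 i hi' _ _ _
    · intro i hi x v
      rcases Fin.eq_zero_or_eq_succ i with rfl | ⟨i, rfl⟩
      · simp only [Fin.tail_update_zero]
      · simp only [Fin.tail_update_succ]
        apply h3
        intro hi'
        exact hi (Finset.mem_map.mpr ⟨i, hi', rfl⟩)
  have hB : ∀ k, MD F ((I k).map (Fin.succEmb (d + 1)))ᶜ
      (fun x : Fin (d + 2) → Fin N → F => g k (Fin.tail x) (x 0)) := by
    intro k
    obtain ⟨h1, h2, h3⟩ := hg k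
    refine ⟨?_, ?_, ?_⟩
    · intro i hi x v w
      rcases Fin.eq_zero_or_eq_succ i with rfl | ⟨i, rfl⟩
      · simp only [Fin.tail_update_zero, Function.update_self, map_add]
      · have hi' : i ∈ (I k)ᶜ := by
          rw [Finset.mem_compl] at hi ⊢
          exact fun h => hi (Finset.mem_map.mpr ⟨i, h, rfl⟩)
        simp only [Fin.tail_update_succ, Function.update_of_ne (Fin.succ_ne_zero i).symm]
        rw [h1 i hi', LinearMap.add_apply]
    · intro i hi x c v
      rcases Fin.eq_zero_or_eq_succ i with rfl | ⟨i, rfl⟩
      · simp only [Fin.tail_update_zero, Function.update_self, map_smul]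
      · have hi' : i ∈ (I k)ᶜ := by
          rw [Finset.mem_compl] at hi ⊢
          exact fun h => hi (Finset.mem_map.mpr ⟨i, h, rfl⟩)
        simp only [Fin.tail_update_succ, Function.update_of_ne (Fin.succ_ne_zero i).symm]
        rw [h2 i hi', LinearMap.smul_apply]
    · intro i hi x v
      rw [Finset.mem_compl, not_not] at hi
      obtain ⟨i, hi', rfl⟩ := Finset.mem_map.mp hi
      simp only [Fin.coe_succEmb, Fin.tail_update_succ,
        Function.update_of_ne (Fin.succ_ne_zero i).symm]
      rw [h3 i (by rwa [Finset.mem_compl, not_not])]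
  have ea : ∀ k, ∃ a' : MultilinearMap F (fun j : {j // j ∈ (I k).map (Fin.succEmb (d + 1))} =>
      Fin (n j.1) → F) F, ∀ x : (i : Fin (d + 2)) → Fin (n i) → F,
        a' (fun j => x j.1) = a k (Fin.tail fun j => s j (x j)) := fun k =>
    MD_restrict (hA k) (fun j => j ∈ (I k).map (Fin.succEmb (d + 1))) (fun _ => Iff.rfl)
      (fun i => Fin (n i) → F) s
  have eb : ∀ k, ∃ b' : MultilinearMap F (fun j : {j // j ∉ (I k).map (Fin.succEmb (d + 1))} =>
      Fin (n j.1) → F) F, ∀ x : (i : Fin (d + 2)) → Fin (n i) → F,
        b' (fun j => x j.1) = g k (Fin.tail fun j => s j (x j)) (s 0 (x 0)) := fun k =>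
    MD_restrict (hB k) (fun j => j ∉ (I k).map (Fin.succEmb (d + 1)))
      (fun _ => Finset.mem_compl) (fun i => Fin (n i) → F) s
  choose a' ha' using ea
  choose b' hb' using eb
  refine ⟨a', b', fun k => ⟨?_, ?_⟩, fun x => ?_⟩
  · exact (hI k).map
  · intro h
    have h0 : (0 : Fin (d + 2)) ∈ (I k).map (Fin.succEmb (d + 1)) := by
      have h' : (I k).map (Fin.succEmb (d + 1)) = Finset.univ := h
      rw [h']; exact Finset.mem_univ _
    obtain ⟨i, _, hi⟩ := Finset.mem_map.mp h0
    exact Fin.succ_ne_zero i hi
  · have h1 : T x = f (Fin.tail fun j => s j (x j)) (s 0 (x 0)) := by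
      rw [hf, hT']
      congr 1
      funext i
      refine Fin.cases ?_ (fun i => ?_) i
      · simp [hs']
      · simp [Fin.tail, hs']
    rw [h1, hsum]
    simp only [LinearMap.sum_apply, LinearMap.smul_apply, smul_eq_mul, ha', hb']

end Run7.h130
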