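import Pool.Agent.Run7.h130.Add
import Pool.Agent.Run7.h130.Alg
import Pool.Agent.Run7.h130.CC
import Pool.Agent.Run7.h130.Corr
import Pool.Agent.Run7.h130.Count
import Pool.Agent.Run7.h130.Curve
import Pool.Agent.Run7.h130.Ext
import Pool.Agent.Run7.h130.FewZeros
import Pool.Agent.Run7.h130.PRBasic
import Pool.Agent.Run7.h130.PRCor
import Pool.Agent.Run7.h130.Pairs
import Pool.Agent.Run7.h130.Reduction
import Pool.Agent.Run7.h130.Typical
import Pool.Agent.Run7.h130.ZeroK

/-!
# The partition rank is at most a constant times the analytic rank, over all finite fields
-/

set_option autoImplicit false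

namespace Run7.h130

/-- the theorem over large fields -/
theorem large_all : S_large :=
  large (typical pencil curve additivity pairs) (reduction count alg)

/-- the theorem over all finite fields -/
theorem pr_all : S_prfinal := prfinal large_all (zeroK corr) ext fewzeros

end Run7.h130
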