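import Pool.Agent.Run7.h130.Iface

/-!
# Piece `prdescent` : descent of `PRle` from a finite extension, and scalar extension of
multilinear maps in coordinates
-/

set_option autoImplicit false

namespace Run7.h130

open Module

section Descent

variable {F K : Type} [Field F] [Field K] [Algebra F K]

/-- `f` and `fK` are related by scalar extension -/
def ScalarExt {e n : ℕ} (f : ML F e (Fin n → F) (Module.Dual F (Fin n → F)))
    (fK : ML K e (Fin n → K) (Module.Dual K (Fin n → K))) : Prop :=
  ∀ (x : Fin e → Fin n → F) (y : Fin n → F),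
      fK (fun i j => algebraMap F K (x i j)) (fun j => algebraMap F K (y j)) =
        algebraMap F K (f x y)

/-- coordinatewise extension of scalars of a vector -/
def ex (F K : Type) [Field F] [Field K] [Algebra F K] (n : ℕ) : (Fin n → F) →ₗ[F] (Fin n → K) where
  toFun y j := algebraMap F K (y j)
  map_add' x y := by funext j; simp
  map_smul' c x := by funext j; simp [Algebra.smul_def]

theorem ex_apply {n : ℕ} (y : Fin n → F) : ex F K n y = fun j => algebraMap F K (y j) := rfl

theorem ex_update {e n : ℕ} (x : Fin e → Fin n → F) (i : Fin e) (v : Fin n → F) :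
    (fun j => ex F K n (Function.update x i v j)) =
      Function.update (fun j => ex F K n (x j)) i (ex F K n v) := by
  funext j
  by_cases h : j = i
  · subst h; simp
  · simp [h]

/-- Descent of cheap decompositions. -/
theorem prdescent {e n k : ℕ} [FiniteDimensional F K]
    (f : ML F e (Fin n → F) (Module.Dual F (Fin n → F)))
    (fK : ML K e (Fin n → K) (Module.Dual K (Fin n → K))) (hf : ScalarExt f fK)
    (h : PRle k fK) : PRle (finrank F K * k) f := by
  classical
  obtain ⟨r, hr, I, a, g, hI, ha, hg, hsum⟩ := h
  set l := finrank F K with hl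
  let b : Basis (Fin l) F K := Module.finBasis F K
  -- a linear functional with `lam 1 = 1`
  obtain ⟨lam, hlam⟩ : ∃ lam : K →ₗ[F] F, lam 1 = 1 := by
    obtain ⟨lam, hlam⟩ := LinearMap.exists_leftInverse_of_injective
      (Algebra.linearMap F K) (LinearMap.ker_eq_bot.mpr (algebraMap F K).injective)
    refine ⟨lam, ?_⟩
    have := congrArg (fun φ : F →ₗ[F] F => φ 1) hlam
    simpa using this
  have hlam' : ∀ c : F, lam (algebraMap F K c) = c := by
    intro c
    rw [Algebra.algebraMap_eq_smul_one, map_smul, hlam, smul_eq_mul, mul_one]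
  let E := finProdFinEquiv (m := l) (n := r)
  refine ⟨l * r, Nat.mul_le_mul_left _ hr, fun t => I (E.symm t).2,
    fun t x => b.repr (a (E.symm t).2 (fun j => ex F K n (x j))) (E.symm t).1,
    fun t x => lam ∘ₗ LinearMap.mulLeft F (b (E.symm t).1) ∘ₗ
      (g (E.symm t).2 (fun j => ex F K n (x j))).restrictScalars F ∘ₗ ex F K n,
    fun t => hI _, ?_, ?_, ?_⟩
  · intro t
    obtain ⟨h1, h2, h3⟩ := ha (E.symm t).2
    refine ⟨fun i hi x v w => ?_, fun i hi x c v => ?_, fun i hi x v => ?_⟩
    · simp only [ex_update, map_add]
      rw [h1 i hi, map_add, Finsupp.add_apply]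
    · simp only [ex_update, map_smul]
      have : c • ex F K n v = algebraMap F K c • ex F K n v := by
        funext j; simp [Algebra.smul_def]
      rw [this, h2 i hi, smul_eq_mul, ← Algebra.smul_def, map_smul, Finsupp.smul_apply]
    · simp only [ex_update]
      rw [h3 i hi]
  · intro t
    obtain ⟨h1, h2, h3⟩ := hg (E.symm t).2
    refine ⟨fun i hi x v w => ?_, fun i hi x c v => ?_, fun i hi x v => ?_⟩
    · refine LinearMap.ext fun y => ?_
      simp only [ex_update, map_add, LinearMap.comp_apply, LinearMap.restrictScalars_apply,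
        LinearMap.add_apply]
      rw [h1 i hi, LinearMap.add_apply, map_add, map_add]
    · refine LinearMap.ext fun y => ?_
      have : c • ex F K n v = algebraMap F K c • ex F K n v := by
        funext j; simp [Algebra.smul_def]
      simp only [ex_update, map_smul, LinearMap.comp_apply, LinearMap.restrictScalars_apply,
        LinearMap.smul_apply]
      rw [this, h2 i hi, LinearMap.smul_apply, smul_eq_mul, ← Algebra.smul_def, map_smul, map_smul]
    · simp only [ex_update]
      rw [h3 i hi]
  · intro x
    refine LinearMap.ext fun y => ?_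
    have h1 : lam (fK (fun j => ex F K n (x j)) (ex F K n y)) = f x y := by
      have := hf x y
      rw [← ex_apply y] at this
      rw [← hlam' (f x y), ← this]
      rfl
    rw [← h1, hsum]
    simp only [LinearMap.sum_apply, LinearMap.smul_apply, map_sum]
    rw [← Equiv.sum_comp E, Fintype.sum_prod_type_right]
    refine Finset.sum_congr rfl fun j _ => ?_
    simp only [Equiv.symm_apply_apply, LinearMap.comp_apply, LinearMap.restrictScalars_apply,
      LinearMap.mulLeft_apply, smul_eq_mul]
    conv_lhs => rw [← b.sum_repr (a j (fun j => ex F K n (x j))), Finset.sum_mul, map_sum]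
    refine Finset.sum_congr rfl fun s _ => ?_
    rw [smul_mul_assoc, map_smul, smul_eq_mul]

/-- existence of scalar extensions -/
theorem exists_scalarExt {e n : ℕ} (f : ML F e (Fin n → F) (Module.Dual F (Fin n → F))) :
    ∃ fK : ML K e (Fin n → K) (Module.Dual K (Fin n → K)), ScalarExt f fK := by
  classical
  refine ⟨∑ m : Fin e → Fin n, MultilinearMap.smulRight
    ((MultilinearMap.mkPiAlgebra K (Fin e) K).compLinearMap
      (fun i => (LinearMap.proj (m i) : (Fin n → K) →ₗ[K] K)))
    (∑ j : Fin n, algebraMap F K (f (fun i => Pi.single (m i) 1) (Pi.single j 1)) •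
      (LinearMap.proj j : (Fin n → K) →ₗ[K] K)), ?_⟩
  intro x y
  have hx : ∀ i, x i = ∑ k : Fin n, x i k • (Pi.single k (1 : F) : Fin n → F) := by
    intro i
    funext j
    simp [Finset.sum_apply, Pi.single_apply]
  have hy : y = ∑ k : Fin n, y k • (Pi.single k (1 : F) : Fin n → F) := by
    funext j
    simp [Finset.sum_apply, Pi.single_apply]
  have h1 : f x = ∑ m : Fin e → Fin n, (∏ i, x i (m i)) •
      f (fun i => (Pi.single (m i) (1 : F) : Fin n → F)) := by
    conv_lhs => rw [show x = fun i => ∑ k : Fin n, x i k • (Pi.single k (1 : F) : Fin n → F) from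
      funext hx]
    rw [MultilinearMap.map_sum]
    refine Finset.sum_congr rfl fun m _ => ?_
    rw [MultilinearMap.map_smul_univ]
  have h2 : ∀ φ : Module.Dual F (Fin n → F), φ y = ∑ j, φ (Pi.single j 1) * y j := by
    intro φ
    conv_lhs => rw [hy, map_sum]
    refine Finset.sum_congr rfl fun j _ => ?_
    rw [map_smul, smul_eq_mul, mul_comm]
  rw [h1]
  simp only [sum_apply, LinearMap.sum_apply, MultilinearMap.smulRight_apply,
    MultilinearMap.compLinearMap_apply, MultilinearMap.mkPiAlgebra_apply, LinearMap.smul_apply,
    LinearMap.proj_apply, smul_eq_mul, map_sum, map_mul, map_prod]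
  refine Finset.sum_congr rfl fun m _ => ?_
  rw [h2, map_sum]
  simp only [map_mul]

end Descent

end Run7.h130
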