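import Pool.Agent.Run7.h130.PRDescent

/-!
# The linear bound for the partition rank over all finite fields
-/

set_option autoImplicit false

namespace Run7.h130

open Module

/-- partition rank (in the form `PRle`) at most a constant times the analytic rank -/
def S_prfinal : Prop :=
  ∀ e : ℕ, 1 ≤ e → ∃ C : ℝ, 0 ≤ C ∧ ∀ (F : Type) [Field F] [Finite F] (n : ℕ)
    (f : ML F e (Fin n → F) (Module.Dual F (Fin n → F))), ∃ r : ℕ,
      (r : ℝ) ≤ C * (-Real.logb (Nat.card F) ((Zc f : ℝ) / (Nat.card F : ℝ) ^ (n * e))) ∧ PRle r f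

theorem Zc_pos {F : Type} [Field F] {n : ℕ} {V W : Type} [AddCommGroup V] [Module F V] [Finite V]
    [AddCommGroup W] [Module F W] (f : ML F n V W) (hn : 1 ≤ n) : 0 < Zc f := by
  unfold Zc
  have : Nonempty {x : Fin n → V // f x = 0} := ⟨⟨0, f.map_coord_zero ⟨0, hn⟩ rfl⟩⟩
  exact Nat.card_pos

theorem Zc_le {F : Type} [Field F] {n : ℕ} {V W : Type} [AddCommGroup V] [Module F V] [Finite V]
    [AddCommGroup W] [Module F W] (f : ML F n V W) : Zc f ≤ Nat.card V ^ n := by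
  unfold Zc
  refine (Finite.card_subtype_le _).trans ?_
  rw [Nat.card_fun, Nat.card_eq_fintype_card (α := Fin n), Fintype.card_fin]

theorem prfinal (hlarge : S_large) (hzero : S_zeroK) (hext : S_ext) (hfew : S_fewzeros) :
    S_prfinal := by
  intro e he
  obtain ⟨q₀, C₀, hL⟩ := hlarge e
  set l : ℕ := q₀ + e ^ 2 + 1 with hl
  have hl1 : 1 ≤ l := by omega
  refine ⟨3 * C₀ * (l : ℝ) ^ e, by positivity, ?_⟩
  intro F _ _ n f
  set q := Nat.card F with hq
  have hq2 : 2 ≤ q := by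
    have := Finite.one_lt_card (α := F)
    omega
  have hq1r : (1 : ℝ) < q := by exact_mod_cast hq2
  have hcV : Nat.card (Fin n → F) = q ^ n := by
    rw [Nat.card_fun, Nat.card_eq_fintype_card (α := Fin n), Fintype.card_fin]
  have hzpos : 0 < Zc f := Zc_pos f he
  have hzle : Zc f ≤ q ^ (n * e) := by
    have := Zc_le f
    rwa [hcV, ← pow_mul] at this
  set A : ℝ := (q : ℝ) ^ (n * e) / (Zc f : ℝ) with hA
  have hzr : (0 : ℝ) < Zc f := by exact_mod_cast hzpos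
  have hA1 : 1 ≤ A := by
    rw [hA, one_le_div hzr]
    exact_mod_cast hzle
  set a : ℝ := -Real.logb (q : ℝ) ((Zc f : ℝ) / (q : ℝ) ^ (n * e)) with ha
  have haA : a = Real.logb q A := by
    rw [ha, hA, ← Real.logb_inv, inv_div]
  have hAa : A = (q : ℝ) ^ a := by
    rw [haA, Real.rpow_logb (by linarith) (by linarith) (by linarith)]
  have ha0 : 0 ≤ a := by
    rw [haA]
    exact Real.logb_nonneg hq1r hA1
  by_cases hf : f = 0
  · refine ⟨0, ?_, 0, le_rfl, fun i => i.elim0, fun i => i.elim0, fun i => i.elim0, fun i => i.elim0,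
      fun i => i.elim0, fun i => i.elim0, fun x => by simp [hf]⟩
    simp only [Nat.cast_zero]
    positivity
  -- extension
  obtain ⟨K, _, _, _, hKl⟩ := hext F l hl1
  obtain ⟨fK, hfK⟩ := exists_scalarExt (K := K) f
  have hfin : FiniteDimensional F K := Module.Finite.of_finite
  have hQ : Nat.card K = q ^ l := by
    rw [Module.natCard_eq_pow_finrank (K := F) (V := K), hKl]
  set Q := Nat.card K with hQdef
  have hQ0 : q₀ ≤ Q := by
    rw [hQ]
    calc q₀ ≤ l := by omega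
      _ ≤ 2 ^ l := Nat.lt_two_pow_self.le
      _ ≤ q ^ l := Nat.pow_le_pow_left hq2 l
  have hQe : e ^ 2 ≤ Q := by
    rw [hQ]
    calc e ^ 2 ≤ l := by omega
      _ ≤ 2 ^ l := Nat.lt_two_pow_self.le
      _ ≤ q ^ l := Nat.pow_le_pow_left hq2 l
  have hfK0 : fK ≠ 0 := by
    intro h0
    apply hf
    refine MultilinearMap.ext fun x => LinearMap.ext fun y => ?_
    have h1 := hfK x y
    rw [h0] at h1
    have h2 : algebraMap F K (f x y) = algebraMap F K 0 := by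
      rw [← h1, map_zero]
      rfl
    exact (algebraMap F K).injective h2
  have hcVK : Nat.card (Fin n → K) = Q ^ n := by
    rw [Nat.card_fun, Nat.card_eq_fintype_card (α := Fin n), Fintype.card_fin]
  have h1 := hzero F K e n f fK hfK
  rw [hKl, ← hq, ← hQdef] at h1
  have h2 := hfew K e (Fin n → K) (Module.Dual K (Fin n → K)) fK hfK0
  rw [hcVK, ← hQdef] at h2
  -- real versions
  set Z : ℝ := (Zc fK : ℝ) with hZ
  have hZ0 : 0 < Z := by
    rw [hZ]
    have := Zc_pos fK he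
    exact_mod_cast this
  set L : ℕ := l ^ e with hLdef
  have hQr : (0 : ℝ) < (Q : ℝ) := by
    rw [hQ]; positivity
  have h1r : ((Q : ℝ) ^ n) ^ e ≤ Z * A ^ L := by
    have h3 : ((Zc f : ℝ)) ^ L * (((Q : ℝ) ^ n) ^ e) ≤ Z * (((q : ℝ) ^ n) ^ e) ^ L := by
      rw [hZ]
      exact_mod_cast h1
    have h4 : 0 < (Zc f : ℝ) ^ L := by positivity
    have h5 : Z * A ^ L = Z * (((q : ℝ) ^ n) ^ e) ^ L / (Zc f : ℝ) ^ L := by
      rw [hA, div_pow, ← pow_mul (q : ℝ) n e]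
      ring
    rw [h5, le_div_iff₀ h4]
    linarith
  have h2r : Z * Q ≤ e * ((Q : ℝ) ^ n) ^ e := by
    rw [hZ]
    exact_mod_cast h2
  have hQeR : (e : ℝ) ^ 2 ≤ Q := by exact_mod_cast hQe
  have hQA : (Q : ℝ) ≤ A ^ (2 * L) := by
    set X := ((Q : ℝ) ^ n) ^ e with hX
    have hX0 : 0 < X := by positivity
    have hAL : 0 < A ^ L := by positivity
    -- Z² Q² ≤ e² X² ≤ Q X² ≤ Q Z² A^{2L}
    have h3 : (Z * Q) ^ 2 ≤ (e * X) ^ 2 := by
      apply pow_le_pow_left₀ (by positivity) h2r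
    have h4 : (e * X) ^ 2 ≤ Q * X ^ 2 := by
      rw [mul_pow]
      exact mul_le_mul_of_nonneg_right hQeR (by positivity)
    have h5 : X ^ 2 ≤ (Z * A ^ L) ^ 2 := pow_le_pow_left₀ hX0.le h1r 2
    have h6 : (Z * Q) ^ 2 ≤ Q * (Z * A ^ L) ^ 2 :=
      h3.trans (h4.trans (mul_le_mul_of_nonneg_left h5 hQr.le))
    have h7 : (Z ^ 2 * Q) * Q ≤ (Z ^ 2 * Q) * A ^ (2 * L) := by
      have e1 : (Z * Q) ^ 2 = (Z ^ 2 * Q) * Q := by ring
      have e2 : (Q : ℝ) * (Z * A ^ L) ^ 2 = (Z ^ 2 * Q) * A ^ (2 * L) := by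
        rw [mul_comm 2 L, pow_mul]; ring
      rw [← e1, ← e2]
      exact h6
    exact le_of_mul_le_mul_left h7 (by positivity)
  have hlr : (0 : ℝ) < l := by exact_mod_cast hl1
  -- `1 ≤ 2 a l^(e-1)`
  obtain ⟨e', rfl⟩ : ∃ e', e = e' + 1 := ⟨e - 1, by omega⟩
  have hLe : (L : ℝ) = (l : ℝ) ^ e' * l := by
    rw [hLdef]; push_cast; rw [pow_succ]
  have hapow : ∀ k : ℕ, A ^ k = (q : ℝ) ^ (a * k) := by
    intro k
    rw [hAa, ← Real.rpow_natCast, ← Real.rpow_mul (by linarith)]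
  have hhalf : 1 ≤ 2 * (a * (l : ℝ) ^ e') := by
    have h3 : ((q : ℝ)) ^ ((l : ℕ) : ℝ) ≤ (q : ℝ) ^ (a * ((2 * L : ℕ) : ℝ)) := by
      rw [← hapow, Real.rpow_natCast]
      calc ((q : ℝ)) ^ l = (Q : ℝ) := by rw [hQ]; push_cast; rfl
        _ ≤ A ^ (2 * L) := hQA
    have h4 := (Real.rpow_le_rpow_left_iff hq1r).mp h3
    push_cast at h4
    rw [hLe] at h4
    have h5 : (l : ℝ) * 1 ≤ l * (2 * (a * (l : ℝ) ^ e')) := by
      calc (l : ℝ) * 1 = l := mul_one _
        _ ≤ _ := h4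
        _ = _ := by ring
    exact le_of_mul_le_mul_left h5 hlr
  set R : ℕ := ⌈a * (l : ℝ) ^ e'⌉₊ with hR
  have hRle : (R : ℝ) ≤ 3 * (a * (l : ℝ) ^ e') := by
    have := Nat.ceil_lt_add_one (a := a * (l : ℝ) ^ e') (by positivity)
    rw [← hR] at this
    linarith
  have hRge : a * (l : ℝ) ^ e' ≤ R := Nat.le_ceil _
  have hALQ : A ^ L ≤ (Q : ℝ) ^ R := by
    rw [hapow]
    have h3 : (Q : ℝ) ^ R = (q : ℝ) ^ ((l * R : ℕ) : ℝ) := by
      rw [Real.rpow_natCast, hQ, pow_mul]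
      push_cast
      rfl
    rw [h3]
    apply Real.rpow_le_rpow_of_exponent_le hq1r.le
    rw [hLe]
    push_cast
    calc a * ((l : ℝ) ^ e' * l) = l * (a * (l : ℝ) ^ e') := by ring
      _ ≤ l * R := mul_le_mul_of_nonneg_left hRge hlr.le
  have h6 : Nat.card (Fin n → K) ^ (e' + 1) ≤ Zc fK * Nat.card K ^ R := by
    rw [hcVK, ← hQdef]
    have : ((Q : ℝ) ^ n) ^ (e' + 1) ≤ Z * (Q : ℝ) ^ R :=
      h1r.trans (mul_le_mul_of_nonneg_left hALQ hZ0.le)
    rw [hZ] at this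
    exact_mod_cast this
  have h7 := hL K (Fin n → K) (Module.Dual K (Fin n → K)) fK R hQ0 h6
  have h8 := prdescent f fK hfK h7
  rw [hKl] at h8
  refine ⟨l * (C₀ * R), ?_, h8⟩
  push_cast
  have hC0 : (0 : ℝ) ≤ C₀ := Nat.cast_nonneg _
  calc (l : ℝ) * (C₀ * R) ≤ l * (C₀ * (3 * (a * (l : ℝ) ^ e'))) := by
        apply mul_le_mul_of_nonneg_left _ hlr.le
        exact mul_le_mul_of_nonneg_left hRle hC0
    _ = 3 * C₀ * (l : ℝ) ^ (e' + 1) * a := by ring

end Run7.h130
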