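import Pool.Agent.Run7.h130.Iface

/-! # From `PRle` to Schmidt rank -/

set_option autoImplicit false

namespace Run7.h130

open Module MvPolynomial

/-- A function which depends on no coordinate is constant. -/
theorem SC_const {ι A X : Type} [Fintype ι] [DecidableEq ι] (φ : (ι → A) → X)
    (h : ∀ i (x : ι → A) (v : A), φ (Function.update x i v) = φ x) (x y : ι → A) : φ x = φ y := by
  have key : ∀ s : Finset ι, φ (fun i => if i ∈ s then y i else x i) = φ x := by
    intro s
    induction s using Finset.induction_on with
    | empty => simp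
    | insert a s ha ih =>
      rw [← ih, ← h a (fun i => if i ∈ s then y i else x i) (y a)]
      congr 1
      funext i
      by_cases hi : i = a
      · subst hi; simp
      · simp [Finset.mem_insert, hi]
  have := key Finset.univ
  simp only [Finset.mem_univ, if_true] at this
  exact this.symm

/-- Functions which are multilinear in some coordinates are polynomials. -/
theorem SC_poly {F : Type} [Field F] {ι : Type} [Fintype ι] [DecidableEq ι] {n : ℕ}
    (s : Finset ι) : ∀ φ : (ι → Fin n → F) → F, MD F s φ →
      ∃ Q : MvPolynomial (ι × Fin n) F, (∀ x, eval (fun v => x v.1 v.2) Q = φ x) ∧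
        Q.totalDegree ≤ s.card ∧ (∀ i ∈ s, ∀ j, Q.degreeOf (i, j) ≤ 1) ∧
        ∀ i ∉ s, ∀ j, Q.degreeOf (i, j) = 0 := by
  classical
  induction s using Finset.induction_on with
  | empty =>
    intro φ hφ
    refine ⟨C (φ 0), fun x => ?_, ?_, ?_, ?_⟩
    · rw [eval_C]
      exact SC_const φ (fun i x v => hφ.2.2 i (Finset.notMem_empty i) x v) 0 x
    · simp
    · simp
    · intro i _ j
      exact degreeOf_C _ _
  | insert a s ha ih =>
    intro φ hφ
    -- the coefficients
    let ψ : Fin n → (ι → Fin n → F) → F := fun j x => φ (Function.update x a (Pi.single j 1))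
    have hψ : ∀ j, MD F s (ψ j) := by
      intro j
      refine ⟨?_, ?_, ?_⟩
      · intro i hi x v w
        have hia : i ≠ a := fun h => ha (h ▸ hi)
        show φ _ = φ _ + φ _
        rw [Function.update_comm hia, Function.update_comm hia, Function.update_comm hia]
        exact hφ.1 i (Finset.mem_insert_of_mem hi) _ v w
      · intro i hi x c v
        have hia : i ≠ a := fun h => ha (h ▸ hi)
        show φ _ = c • φ _
        rw [Function.update_comm hia, Function.update_comm hia]
        exact hφ.2.1 i (Finset.mem_insert_of_mem hi) _ c v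
      · intro i hi x v
        show φ _ = φ _
        by_cases hia : i = a
        · subst hia
          rw [Function.update_idem]
        · rw [Function.update_comm hia]
          exact hφ.2.2 i (by simp [hi, hia]) _ v
    choose Q hQ1 hQ2 hQ3 hQ4 using fun j => ih (ψ j) (hψ j)
    -- expansion
    have hexp : ∀ x, φ x = ∑ j, x a j * ψ j x := by
      intro x
      let L : (Fin n → F) →ₗ[F] F :=
        { toFun := fun v => φ (Function.update x a v)
          map_add' := fun v w => hφ.1 a (Finset.mem_insert_self _ _) x v w
          map_smul' := fun c v => hφ.2.1 a (Finset.mem_insert_self _ _) x c v }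
      have h1 : L (x a) = φ x := by
        show φ (Function.update x a (x a)) = φ x
        rw [Function.update_eq_self]
      rw [← h1]
      conv_lhs => rw [← (Pi.basisFun F (Fin n)).sum_repr (x a)]
      rw [map_sum]
      refine Finset.sum_congr rfl fun j _ => ?_
      rw [map_smul, Pi.basisFun_repr, smul_eq_mul, Pi.basisFun_apply]
      rfl
    refine ⟨∑ j, X (a, j) * Q j, fun x => ?_, ?_, ?_, ?_⟩
    · rw [map_sum, hexp]
      refine Finset.sum_congr rfl fun j _ => ?_
      rw [map_mul, eval_X, hQ1]
    · refine totalDegree_finsetSum_le fun j _ => ?_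
      refine (totalDegree_mul _ _).trans ?_
      rw [Finset.card_insert_of_notMem ha]
      have h1 : (X (a, j) : MvPolynomial (ι × Fin n) F).totalDegree = 1 := totalDegree_X _
      have h2 := hQ2 j
      omega
    · intro i hi j
      refine (degreeOf_sum_le _ _ _).trans ?_
      refine Finset.sup_le fun j' _ => ?_
      refine (degreeOf_mul_le _ _ _).trans ?_
      have h1 : degreeOf (i, j) (X (a, j') : MvPolynomial (ι × Fin n) F) =
          if (i, j) = (a, j') then 1 else 0 := degreeOf_X _ _
      rw [h1]
      by_cases hia : i = a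
      · subst hia
        have h2 := hQ4 j' i ha j
        rw [h2]
        split_ifs <;> omega
      · have h2 := hQ3 j' i ((Finset.mem_insert.1 hi).resolve_left hia) j
        rw [if_neg (by simp [hia])]
        omega
    · intro i hi j
      rw [Finset.mem_insert, not_or] at hi
      rw [← Nat.le_zero]
      refine (degreeOf_sum_le _ _ _).trans ?_
      refine Finset.sup_le fun j' _ => ?_
      refine (degreeOf_mul_le _ _ _).trans ?_
      have h1 : degreeOf (i, j) (X (a, j') : MvPolynomial (ι × Fin n) F) =
          if (i, j) = (a, j') then 1 else 0 := degreeOf_X _ _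
      rw [h1, hQ4 j' i hi.2 j, if_neg (by simp [hi.1])]

/-- polynomials of degree at most one in each variable are determined by their values -/
theorem SC_eq {F : Type} [Field F] {σ : Type} [Finite σ] (P Q : MvPolynomial σ F)
    (hP : ∀ v, P.degreeOf v ≤ 1) (hQ : ∀ v, Q.degreeOf v ≤ 1) (h : ∀ x, eval x P = eval x Q) :
    P = Q := by
  classical
  rw [← sub_eq_zero]
  refine eq_zero_of_eval_zero_at_prod_finset _ (fun _ => {0, 1}) ?_ ?_
  · intro v
    rw [Finset.card_pair zero_ne_one]
    have := degreeOf_sub_le v P Q
    have h1 := hP v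
    have h2 := hQ v
    omega
  · intro x _
    rw [map_sub, h x, sub_self]

theorem schmidt : S_schmidt := by
  intro F _ e n k he P hP f hf ⟨r, hr, I, a, h, hI, ha, hh, hsum⟩
  classical
  -- polynomials for the factors
  have hA : ∀ l : Fin r, ∃ Q : MvPolynomial (Fin (e + 1) × Fin n) F,
      (∀ x : Fin (e + 1) → Fin n → F, eval (fun v => x v.1 v.2) Q = a l (Fin.init x)) ∧
        Q.totalDegree < e + 1 ∧ (∀ i ∈ I l, ∀ j, Q.degreeOf (i.castSucc, j) ≤ 1) ∧
        (∀ i ∉ I l, ∀ j, Q.degreeOf (i.castSucc, j) = 0) ∧
        ∀ j, Q.degreeOf (Fin.last e, j) = 0 := by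
    intro l
    have hMD : MD F ((I l).map Fin.castSuccEmb) (fun x : Fin (e + 1) → Fin n → F =>
        a l (Fin.init x)) := by
      refine ⟨?_, ?_, ?_⟩
      · intro i hi x v w
        obtain ⟨i, hi', rfl⟩ := Finset.mem_map.1 hi
        simp only [Fin.coe_castSuccEmb, Fin.init_update_castSucc]
        exact (ha l).1 i hi' _ v w
      · intro i hi x c v
        obtain ⟨i, hi', rfl⟩ := Finset.mem_map.1 hi
        simp only [Fin.coe_castSuccEmb, Fin.init_update_castSucc]
        exact (ha l).2.1 i hi' _ c v
      · intro i hi x v
        refine Fin.lastCases ?_ (fun i => ?_) i hi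
        · intro _
          simp only [Fin.init_update_last]
        · intro hi
          simp only [Fin.init_update_castSucc]
          exact (ha l).2.2 i (fun h => hi (Finset.mem_map.2 ⟨i, h, rfl⟩)) _ v
    obtain ⟨Q, h1, h2, h3, h4⟩ := SC_poly _ _ hMD
    refine ⟨Q, h1, ?_, ?_, ?_, ?_⟩
    · rw [Finset.card_map] at h2
      have := Finset.card_le_univ (I l)
      rw [Fintype.card_fin] at this
      omega
    · intro i hi j
      exact h3 _ (Finset.mem_map.2 ⟨i, hi, rfl⟩) j
    · intro i hi j
      refine h4 _ (fun hc => ?_) j
      obtain ⟨i', hi', he⟩ := Finset.mem_map.1 hc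
      have : i' = i := Fin.castSucc_injective _ he
      exact hi (this ▸ hi')
    · intro j
      refine h4 _ (fun hc => ?_) j
      obtain ⟨i', hi', he⟩ := Finset.mem_map.1 hc
      exact (Fin.castSucc_lt_last i').ne he
  have hH : ∀ l : Fin r, ∃ Q : MvPolynomial (Fin (e + 1) × Fin n) F,
      (∀ x : Fin (e + 1) → Fin n → F, eval (fun v => x v.1 v.2) Q =
        h l (Fin.init x) (x (Fin.last e))) ∧
        Q.totalDegree < e + 1 ∧ (∀ i ∉ I l, ∀ j, Q.degreeOf (i.castSucc, j) ≤ 1) ∧
        (∀ i ∈ I l, ∀ j, Q.degreeOf (i.castSucc, j) = 0) ∧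
        ∀ j, Q.degreeOf (Fin.last e, j) ≤ 1 := by
    intro l
    have hMD : MD F (insert (Fin.last e) ((I l)ᶜ.map Fin.castSuccEmb))
        (fun x : Fin (e + 1) → Fin n → F => h l (Fin.init x) (x (Fin.last e))) := by
      refine ⟨?_, ?_, ?_⟩
      · intro i hi x v w
        rcases Finset.mem_insert.1 hi with rfl | hi
        · simp only [Fin.init_update_last, Function.update_self]
          exact map_add _ _ _
        · obtain ⟨i, hi', rfl⟩ := Finset.mem_map.1 hi
          have hne : Fin.last e ≠ i.castSucc := (Fin.castSucc_lt_last i).ne'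
          simp only [Fin.coe_castSuccEmb, Fin.init_update_castSucc, Function.update_of_ne hne]
          rw [(hh l).1 i hi' _ v w]
          rfl
      · intro i hi x c v
        rcases Finset.mem_insert.1 hi with rfl | hi
        · simp only [Fin.init_update_last, Function.update_self]
          exact map_smul _ _ _
        · obtain ⟨i, hi', rfl⟩ := Finset.mem_map.1 hi
          have hne : Fin.last e ≠ i.castSucc := (Fin.castSucc_lt_last i).ne'
          simp only [Fin.coe_castSuccEmb, Fin.init_update_castSucc, Function.update_of_ne hne]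
          rw [(hh l).2.1 i hi' _ c v]
          rfl
      · intro i hi x v
        rw [Finset.mem_insert, not_or] at hi
        refine Fin.lastCases ?_ (fun i => ?_) i hi
        · intro hi
          exact absurd rfl hi.1
        · intro hi
          have hne : Fin.last e ≠ i.castSucc := (Fin.castSucc_lt_last i).ne'
          simp only [Fin.init_update_castSucc, Function.update_of_ne hne]
          rw [(hh l).2.2 i (fun h => hi.2 (Finset.mem_map.2 ⟨i, h, rfl⟩)) _ v]
    obtain ⟨Q, h1, h2, h3, h4⟩ := SC_poly _ _ hMD
    refine ⟨Q, h1, ?_, ?_, ?_, ?_⟩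
    · refine lt_of_le_of_lt (h2.trans (Finset.card_insert_le _ _)) ?_
      rw [Finset.card_map, Finset.card_compl, Fintype.card_fin]
      have := Finset.card_pos.2 (hI l)
      have h5 := Finset.card_le_univ (I l)
      rw [Fintype.card_fin] at h5
      omega
    · intro i hi j
      exact h3 _ (Finset.mem_insert_of_mem (Finset.mem_map.2 ⟨i, by simpa using hi, rfl⟩)) j
    · intro i hi j
      refine h4 _ (fun hc => ?_) j
      rcases Finset.mem_insert.1 hc with hc | hc
      · exact (Fin.castSucc_lt_last i).ne hc
      · obtain ⟨i', hi', he⟩ := Finset.mem_map.1 hc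
        have : i' = i := Fin.castSucc_injective _ he
        rw [this, Finset.mem_compl] at hi'
        exact hi' hi
    · intro j
      exact h3 _ (Finset.mem_insert_self _ _) j
  choose A hA1 hA2 hA3 hA4 hA5 using hA
  choose H hH1 hH2 hH3 hH4 hH5 using hH
  have hPe : P = ∑ l : Fin r, A l * H l := by
    refine SC_eq _ _ ?_ ?_ ?_
    · rintro ⟨i, j⟩
      rw [degreeOf_le_iff]
      intro m hm
      have h1 := hP m hm i
      have h2 : m (i, j) ≤ ∑ j, m (i, j) :=
        Finset.single_le_sum (f := fun j => m (i, j)) (fun _ _ => Nat.zero_le _)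
          (Finset.mem_univ j)
      omega
    · rintro ⟨i, j⟩
      refine (degreeOf_sum_le _ _ _).trans (Finset.sup_le fun l _ => ?_)
      refine (degreeOf_mul_le _ _ _).trans ?_
      refine Fin.lastCases ?_ (fun i => ?_) i
      · rw [hA5 l j]
        have := hH5 l j
        omega
      · by_cases hi : i ∈ I l
        · rw [hH4 l i hi j]
          have := hA3 l i hi j
          omega
        · rw [hA4 l i hi j]
          have := hH3 l i hi j
          omega
    · intro x
      have h1 : x = fun v : Fin (e + 1) × Fin n => (fun i j => x (i, j)) v.1 v.2 := rfl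
      set y : Fin (e + 1) → Fin n → F := fun i j => x (i, j) with hy
      rw [map_sum, h1]
      have h2 := hf (Fin.init y) (y (Fin.last e))
      rw [Fin.snoc_init_self] at h2
      rw [← h2, hsum]
      rw [LinearMap.sum_apply]
      refine Finset.sum_congr rfl fun l _ => ?_
      rw [map_mul, hA1, hH1]
      rfl
  refine ⟨fun i => if hi : (i : ℕ) < r then A ⟨i, hi⟩ else 0,
    fun i => if hi : (i : ℕ) < r then H ⟨i, hi⟩ else 0, fun i => ?_, ?_⟩
  · by_cases hi : (i : ℕ) < r
    · simp only [dif_pos hi]
      exact ⟨hA2 _, hH2 _⟩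
    · simp only [dif_neg hi, totalDegree_zero]
      omega
  · rw [hPe]
    rw [Finset.sum_fin_eq_sum_range, Finset.sum_fin_eq_sum_range]
    rw [← Finset.sum_subset (Finset.range_mono hr)]
    · refine Finset.sum_congr rfl fun i hi => ?_
      rw [Finset.mem_range] at hi
      rw [dif_pos hi, dif_pos (by omega)]
      simp only [dif_pos hi]
    · intro i hi hi'
      rw [Finset.mem_range] at hi hi'
      rw [dif_pos hi]
      simp only [dif_neg hi', zero_mul]

end Run7.h130
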